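import Mathlib
import Pool.Agent.H.MP_6c077c_gt.CG.Defs
import Pool.Agent.H.MP_6c077c_gt.Shape

/-! Index theorem: index of a point with normal `-e`. -/

set_option autoImplicit false

namespace Pool.Schoen

open scoped ContDiff RealInnerProductSpace

variable {V : Type*} [NormedAddCommGroup V] [InnerProductSpace ℝ V] [FiniteDimensional ℝ V]

/-- The hyperplane orthogonal to `e` is the orthogonal sum of `N` and `P`, which are orthogonal for
the second derivative of `F` at `x`; it is negative definite on `N` and positive definite on `P`. -/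
structure Split (F : V → ℝ) (e x : V) (N P : Submodule ℝ V) : Prop where
  hN : ∀ a ∈ N, ⟪a, e⟫ = 0
  hP : ∀ b ∈ P, ⟪b, e⟫ = 0
  orth : ∀ a ∈ N, ∀ b ∈ P, ⟪a, b⟫ = 0
  span : ∀ w : V, ⟪w, e⟫ = 0 → ∃ a ∈ N, ∃ b ∈ P, w = a + b
  diag : ∀ a ∈ N, ∀ b ∈ P, fderiv ℝ (fderiv ℝ F) x a b = 0
  neg : ∀ a ∈ N, a ≠ 0 → fderiv ℝ (fderiv ℝ F) x a a < 0
  pos : ∀ b ∈ P, b ≠ 0 → 0 < fderiv ℝ (fderiv ℝ F) x b b

/-- The second derivative of `F` at `x` is nondegenerate on the hyperplane orthogonal to `e` and has
there exactly `k` negative directions. -/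
def Idx (F : V → ℝ) (e x : V) (k : ℕ) : Prop :=
  ∃ N P : Submodule ℝ V, Split F e x N P ∧ Module.finrank ℝ N = k

/-- The number of negative principal curvatures at `x`, with multiplicities: the number of negative
roots of the characteristic polynomial of the shape operator. -/
noncomputable def nneg (F : V → ℝ) (x : V) : ℕ :=
  Multiset.card ((LinearMap.charpoly (shape F x : V →ₗ[ℝ] V)).roots.filter fun r => r < 0)

end Pool.Schoen
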