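import Mathlib
import Pool.Agent.H.MP_6c077c_gt.IxB.Defs

/-! Index theorem: basic facts on splittings. -/

set_option autoImplicit false

namespace Pool.Schoen

open scoped ContDiff RealInnerProductSpace
open Metric Set

variable {V : Type*} [NormedAddCommGroup V] [InnerProductSpace ℝ V] [FiniteDimensional ℝ V]
  {F : V → ℝ} {e x : V} {N P : Submodule ℝ V}

/-- Symmetry of the second derivative: `ContDiffAt.isSymmSndFDerivAt` (see `level_hess_symm` in
`CG/Level.lean`). -/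
theorem ixHess_symm (hF : ContDiff ℝ ∞ F) (x a b : V) :
    fderiv ℝ (fderiv ℝ F) x a b = fderiv ℝ (fderiv ℝ F) x b a := by
  have h : IsSymmSndFDerivAt ℝ F x := (hF.contDiffAt).isSymmSndFDerivAt (by simp; norm_cast)
  exact h a b

/-- The components of a vector `w ⊥ e` are its orthogonal projection to `N` and the rest:
from `span`, `w = a + b`, and `N.starProjection w = N.starProjection a + N.starProjection b = a + 0`
because `b` is orthogonal to `N`. -/
theorem Split.proj (h : Split F e x N P) (w : V) (hw : ⟪w, e⟫ = 0) :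
    N.starProjection w ∈ N ∧ w - N.starProjection w ∈ P := by
  obtain ⟨a, ha, b, hb, rfl⟩ := h.span w hw
  have h1 : N.starProjection (a + b) = a := by
    refine Submodule.eq_starProjection_of_mem_of_inner_eq_zero ha fun w hw => ?_
    rw [add_sub_cancel_left, real_inner_comm]
    exact h.orth w hw b hb
  rw [h1, add_sub_cancel_left]
  exact ⟨ha, hb⟩

/-- `N ∩ P = 0`, `N + P` is the hyperplane orthogonal to `e`:
`Submodule.finrank_sup_add_finrank_inf_eq` and `Submodule.finrank_add_finrank_orthogonal` for the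
line of `e`. -/
theorem Split.finrank (h : Split F e x N P) (he : ‖e‖ = 1) :
    Module.finrank ℝ N + Module.finrank ℝ P + 1 = Module.finrank ℝ V := by
  have h0 : e ≠ 0 := by
    intro h0
    rw [h0, norm_zero] at he
    exact zero_ne_one he
  have h1 : N ⊓ P = ⊥ := by
    rw [eq_bot_iff]
    intro a ha
    have h2 := h.orth a ha.1 a ha.2
    rw [Submodule.mem_bot]
    exact inner_self_eq_zero.1 h2
  have h2 : N ⊔ P = (Submodule.span ℝ {e})ᗮ := by
    ext w
    rw [Submodule.mem_orthogonal_singleton_iff_inner_left, Submodule.mem_sup]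
    constructor
    · rintro ⟨a, ha, b, hb, rfl⟩
      rw [inner_add_left, h.hN a ha, h.hP b hb, add_zero]
    · intro hw
      obtain ⟨a, ha, b, hb, hab⟩ := h.span w hw
      exact ⟨a, ha, b, hb, hab.symm⟩
  have h3 := Submodule.finrank_sup_add_finrank_inf_eq N P
  rw [h1, h2, finrank_bot, add_zero] at h3
  have h4 := Submodule.finrank_add_finrank_orthogonal (𝕜 := ℝ) (Submodule.span ℝ {e})
  rw [finrank_span_singleton h0, h3] at h4
  omega

/-- Exchange of `N` and `P` when the sign of the second derivative changes.  `diag` uses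
`ixHess_symm`. -/
theorem Split.flip (h : Split F e x N P) (hF : ContDiff ℝ ∞ F) (G : V → ℝ) (c : ℝ) (hc : 0 < c)
    (hG : ∀ a b : V, ⟪a, e⟫ = 0 → ⟪b, e⟫ = 0 →
      fderiv ℝ (fderiv ℝ G) x a b = -(c * fderiv ℝ (fderiv ℝ F) x a b)) :
    Split G (-e) x P N := by
  refine ⟨fun a ha => ?_, fun b hb => ?_, fun a ha b hb => ?_, fun w hw => ?_,
    fun a ha b hb => ?_, fun a ha ha0 => ?_, fun b hb hb0 => ?_⟩
  · rw [inner_neg_right, h.hP a ha, neg_zero]
  · rw [inner_neg_right, h.hN b hb, neg_zero]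
  · rw [real_inner_comm]
    exact h.orth b hb a ha
  · rw [inner_neg_right, neg_eq_zero] at hw
    obtain ⟨a, ha, b, hb, hab⟩ := h.span w hw
    exact ⟨b, hb, a, ha, by rw [hab, add_comm]⟩
  · rw [hG a b (h.hP a ha) (h.hN b hb), ixHess_symm hF, h.diag b hb a ha, mul_zero, neg_zero]
  · rw [hG a a (h.hP a ha) (h.hP a ha)]
    have := mul_pos hc (h.pos a ha ha0)
    linarith
  · rw [hG b b (h.hN b hb) (h.hN b hb)]
    have := mul_neg_of_pos_of_neg hc (h.neg b hb hb0)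
    linarith

/-- Index `0`: `N = ⊥` (`Submodule.finrank_eq_zero`), so every `w ⊥ e` is in `P`. -/
theorem Idx.posAt (h : Idx F e x 0) : PosAt F e x := by
  obtain ⟨N, P, hs, hk⟩ := h
  intro w hw hw0
  obtain ⟨a, ha, b, hb, rfl⟩ := hs.span w hw
  have h1 : N = ⊥ := Submodule.finrank_eq_zero.1 hk
  rw [h1, Submodule.mem_bot] at ha
  rw [ha, zero_add] at hw0 ⊢
  exact hs.pos b hb hw0

/-- Index `n`: then `finrank P = 0` by `Split.finrank`, every `w ⊥ e` is in `N`. -/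
theorem Idx.negAt {n : ℕ} (hn : Module.finrank ℝ V = n + 1) (he : ‖e‖ = 1) (h : Idx F e x n) :
    NegAt F e x := by
  obtain ⟨N, P, hs, hk⟩ := h
  intro w hw hw0
  obtain ⟨a, ha, b, hb, rfl⟩ := hs.span w hw
  have h0 := hs.finrank he
  have h1 : P = ⊥ := Submodule.finrank_eq_zero.1 (by omega)
  rw [h1, Submodule.mem_bot] at hb
  rw [hb, add_zero] at hw0 ⊢
  exact hs.neg a ha hw0

private theorem Basic_unit (F : V → ℝ) (x : V) (N : Submodule ℝ V) (σ : ℝ)
    (hpos : ∀ a ∈ N, a ≠ 0 → 0 < σ * fderiv ℝ (fderiv ℝ F) x a a) :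
    ∃ c : ℝ, 0 < c ∧ ∀ a ∈ N, c * ‖a‖ ^ 2 ≤ σ * fderiv ℝ (fderiv ℝ F) x a a := by
  have : ProperSpace V := FiniteDimensional.proper ℝ V
  have hK : IsCompact (sphere (0 : V) 1 ∩ (N : Set V)) :=
    (isCompact_sphere _ _).inter_right N.closed_of_finiteDimensional
  have hc : Continuous fun a : V => σ * fderiv ℝ (fderiv ℝ F) x a a := by fun_prop
  obtain ⟨c, hc0, h⟩ := hK.exists_forall_le' hc.continuousOn (a := 0) (by
    rintro a ⟨ha, haN⟩
    refine hpos a haN ?_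
    intro h0
    rw [h0] at ha
    simp at ha)
  refine ⟨c, hc0, fun a ha => ?_⟩
  by_cases h0 : a = 0
  · rw [h0]
    simp
  have hn : 0 < ‖a‖ := norm_pos_iff.2 h0
  have h1 := h (‖a‖⁻¹ • a) ⟨by simp [norm_smul, hn.ne'], N.smul_mem _ ha⟩
  simp only [map_smul, _root_.smul_apply, smul_eq_mul] at h1
  have h2 := mul_le_mul_of_nonneg_right h1 (sq_nonneg ‖a‖)
  calc c * ‖a‖ ^ 2 ≤ σ * (‖a‖⁻¹ * (‖a‖⁻¹ * fderiv ℝ (fderiv ℝ F) x a a)) * ‖a‖ ^ 2 := h2
    _ = σ * fderiv ℝ (fderiv ℝ F) x a a := by field_simp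

/-- Nondegeneracy.  Take `N, P` and for `w ⊥ e` write `w = a + b`; `w' = b - a` has the norm of `w`
(`a ⊥ b`), and `D²F w w' = D²F b b - D²F a a` (`diag`, `ixHess_symm`).  The unit sphere of `N` is
compact, so `D²F a a ≤ -c₁ ‖a‖²` for a `c₁ > 0` (if `N = ⊥` any `c₁`), in the same way
`c₂ ‖b‖² ≤ D²F b b`; take `c = min c₁ c₂` and use `‖w‖² = ‖a‖² + ‖b‖²`. -/
theorem Idx.nondeg {k : ℕ} (hF : ContDiff ℝ ∞ F) (h : Idx F e x k) :
    ∃ c : ℝ, 0 < c ∧ ∀ w : V, ⟪w, e⟫ = 0 →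
      ∃ w' : V, ⟪w', e⟫ = 0 ∧ ‖w'‖ = ‖w‖ ∧ c * ‖w‖ ^ 2 ≤ fderiv ℝ (fderiv ℝ F) x w w' := by
  obtain ⟨N, P, hs, -⟩ := h
  obtain ⟨c1, hc1, h1⟩ := Basic_unit F x N (-1) fun a ha ha0 => by
    have := hs.neg a ha ha0
    linarith
  obtain ⟨c2, hc2, h2⟩ := Basic_unit F x P 1 fun a ha ha0 => by
    have := hs.pos a ha ha0
    linarith
  refine ⟨min c1 c2, lt_min hc1 hc2, fun w hw => ?_⟩
  obtain ⟨a, ha, b, hb, rfl⟩ := hs.span w hw
  have hab : ⟪a, b⟫ = 0 := hs.orth a ha b hb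
  have hba : ⟪b, a⟫ = 0 := by rw [real_inner_comm]; exact hab
  have n1 : ‖a + b‖ ^ 2 = ‖a‖ ^ 2 + ‖b‖ ^ 2 := by
    rw [norm_add_sq_real, hab]
    ring
  have n2 : ‖b - a‖ ^ 2 = ‖a‖ ^ 2 + ‖b‖ ^ 2 := by
    rw [norm_sub_sq_real, hba]
    ring
  refine ⟨b - a, ?_, ?_, ?_⟩
  · rw [inner_sub_left, hs.hP b hb, hs.hN a ha, sub_zero]
  · rw [← abs_of_nonneg (norm_nonneg (b - a)), ← abs_of_nonneg (norm_nonneg (a + b))]
    exact sq_eq_sq_iff_abs_eq_abs _ _ |>.1 (by rw [n1, n2])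
  · have e1 : fderiv ℝ (fderiv ℝ F) x (a + b) (b - a) =
        fderiv ℝ (fderiv ℝ F) x b b - fderiv ℝ (fderiv ℝ F) x a a := by
      rw [map_add, _root_.add_apply, map_sub, map_sub, hs.diag a ha b hb, ixHess_symm hF x b a,
        hs.diag a ha b hb]
      ring
    rw [e1, n1]
    have e2 := h1 a ha
    have e3 := h2 b hb
    have e4 := mul_le_mul_of_nonneg_right (min_le_left c1 c2) (sq_nonneg ‖a‖)
    have e5 := mul_le_mul_of_nonneg_right (min_le_right c1 c2) (sq_nonneg ‖b‖)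
    linarith

end Pool.Schoen
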