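import Mathlib
import Pool.Agent.H.MP_6c077c_gt.IxB.Basic
import Pool.Agent.H.MP_6c077c_gt.CG.Flip
import Pool.Agent.H.MP_6c077c_gt.CG.Conn

/-! Index theorem: the index for the outer side. -/

set_option autoImplicit false

namespace Pool.Schoen

open scoped ContDiff RealInnerProductSpace
open Metric Set

variable {V : Type*} [NormedAddCommGroup V] [InnerProductSpace ℝ V] [FiniteDimensional ℝ V]

/-- The mixed second derivative of `cgY F R` on the hyperplane orthogonal to `e` at a point with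
normal `-e`.

PROOF.  For `w ⊥ e`, `cg_Y_second` gives `D²Y w w = -(R² - ‖x‖²) D²F w w` (`F x = 0` and
`fderiv F x w = 0`, see `key` in the proof of `cg_Y_def`).  Apply this to `a + b`, `a`, `b` and
use bilinearity and the symmetry `ixHess_symm` of both second derivatives:
`2 D² a b = D² (a+b) (a+b) - D² a a - D² b b`. -/
theorem ix_Y_mixed (F : V → ℝ) (hF : ContDiff ℝ ∞ F) (R : ℝ) (e x : V) (hx : Inward F e x)
    (a b : V) (ha : ⟪a, e⟫ = 0) (hb : ⟪b, e⟫ = 0) :
    fderiv ℝ (fderiv ℝ (cgY F R)) x a b =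
      -((R ^ 2 - ‖x‖ ^ 2) * fderiv ℝ (fderiv ℝ F) x a b) := by
  have key : ∀ w : V, ⟪w, e⟫ = 0 → fderiv ℝ (fderiv ℝ (cgY F R)) x w w
        = -(R ^ 2 - ‖x‖ ^ 2) * fderiv ℝ (fderiv ℝ F) x w w := by
    intro w hw
    obtain ⟨h, l, hl, hg⟩ := hx
    have h1 : fderiv ℝ F x w = 0 := by
      rw [← inner_gradient_left, hg, inner_neg_left, real_inner_smul_left, real_inner_comm, hw]
      simp
    rw [cg_Y_second F hF R x w, h1, h]
    ring
  have hab := key (a + b) (by rw [inner_add_left, ha, hb, add_zero])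
  have haa := key a ha
  have hbb := key b hb
  simp only [map_add, ContinuousLinearMap.add_apply] at hab
  rw [ixHess_symm (cg_Y_smooth F hF R) x b a, ixHess_symm hF x b a] at hab
  linarith

/-- The index at a point with normal `-e` for the outer side.

PROOF.  `Split.flip` with `G = cgY F R`, `c = R² - ‖x‖² > 0` (`F x = 0` gives `‖x‖ < R`),
`ix_Y_mixed`, and `Split.finrank`: `finrank N = k`, `finrank P = n - k`. -/
theorem ix_flip (n : ℕ) (hn : Module.finrank ℝ V = n + 1) (F : V → ℝ) (hF : ContDiff ℝ ∞ F)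
    (R : ℝ) (hR : ∀ x, F x ≤ 0 → ‖x‖ < R) (e : V) (he : ‖e‖ = 1) (x : V) (hx : Inward F e x)
    (k : ℕ) (hk : Idx F e x k) : Idx (cgY F R) (-e) x (n - k) := by
  obtain ⟨N, P, hs, hN⟩ := hk
  have h1 := hR x hx.1.le
  have h2 := norm_nonneg x
  have h3 : 0 < R ^ 2 - ‖x‖ ^ 2 := by nlinarith
  have h4 := hs.finrank he
  exact ⟨P, N, hs.flip hF (cgY F R) (R ^ 2 - ‖x‖ ^ 2) h3
    (fun a b ha hb => ix_Y_mixed F hF R e x hx a b ha hb), by omega⟩

/-- Everything about the outer side at once.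

PROOF.  `R` from `hb.exists_pos_norm_lt`, `Y = cgY F R`: `cg_Y_smooth`; bounded and preconnected
sublevel set by `cg_Y_set`, `cg_conn_outer` (`CG/Conn.lean`); `cg_Y_reg`; `cg_Y_inward`;
`q = R • e`, `PosAt` there by `cg_Y_def`; `F q > 0` because `‖q‖ = R`; `ix_flip`.  (Exactly as in
the proof of `cg_criterion`, `CG/Crit.lean`.) -/
theorem ix_outer (n : ℕ) (hn : Module.finrank ℝ V = n + 1) (F : V → ℝ) (hF : ContDiff ℝ ∞ F)
    (hb : Bornology.IsBounded {x | F x ≤ 0}) (hreg : ∀ x, F x = 0 → gradient F x ≠ 0)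
    (hM : IsConnected {x | F x = 0}) (e : V) (he : ‖e‖ = 1) :
    ∃ (Y : V → ℝ) (q : V), ContDiff ℝ ∞ Y ∧ Bornology.IsBounded {x | Y x ≤ 0} ∧
      (∀ x, Y x = 0 → gradient Y x ≠ 0) ∧ IsPreconnected {x | Y x ≤ 0} ∧
      (∀ x, Inward Y (-e) x ↔ (Inward F e x ∨ x = q)) ∧ PosAt Y (-e) q ∧ 0 < F q ∧
      ∀ x k, Inward F e x → Idx F e x k → Idx Y (-e) x (n - k) := by
  obtain ⟨R, hR0, hR⟩ := hb.exists_pos_norm_lt
  have hR' : ∀ y, F y ≤ 0 → ‖y‖ < R := fun y hy => hR y hy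
  have hset := cg_Y_set F R hR0 hR'
  obtain ⟨hY1, hY2, hY3⟩ := cg_Y_def F hF R hR0 hR' e he
  have hYin := cg_Y_inward F hF R hR0 hR' e he
  refine ⟨cgY F R, R • e, cg_Y_smooth F hF R, ?_, cg_Y_reg F hF hreg R hR0 hR', ?_, hYin, hY3, ?_,
    fun x k hx hk => ix_flip n hn F hF R hR' e he x hx k hk⟩
  · rw [hset]
    refine (isBounded_closedBall (x := (0 : V)) (r := R)).subset fun y hy => ?_
    rw [mem_closedBall_zero_iff]
    exact hy.2
  · rw [hset]
    exact cg_conn_outer F hF.continuous R hR' hM.isPreconnected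
  · by_contra hc
    have h1 := hR' _ (not_lt.1 hc)
    rw [norm_smul, he, mul_one, Real.norm_of_nonneg hR0.le] at h1
    exact lt_irrefl _ h1

end Pool.Schoen
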