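import Mathlib
import Pool.Agent.H.MP_6c077c_gt.IxB.Basic
import Pool.Agent.H.MP_6c077c_gt.CG.Ring

/-! Index theorem: nondegenerate points with normal `-e` are isolated. -/

set_option autoImplicit false

namespace Pool.Schoen

open scoped ContDiff RealInnerProductSpace
open Metric Set

variable {V : Type*} [NormedAddCommGroup V] [InnerProductSpace ℝ V] [FiniteDimensional ℝ V]

/-- Nondegenerate points with normal `-e` are isolated.

PROOF.  Let `D = fderiv (fderiv F) p`, `c` from `Idx.nondeg`, and `fderiv F p v = -(l * ⟪e, v⟫)`,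
`l > 0` (`Inward`; `cgLocal_grad` in `CG/Local.lean`).  Put `L = ‖D‖`.  For `ε > 0` there is `ρ > 0`
such that for `dist x p < ρ`
(1) `‖fderiv F x - fderiv F p - D (x - p)‖ ≤ ε * ‖x - p‖` (`HasFDerivAt` of `fderiv F` at `p`,
`hasFDerivAt_iff_isLittleO`), and
(2) `|F x - F p - fderiv F p (x - p)| ≤ ε * ‖x - p‖`.
Let `x` be `Inward` with `dist x p < ρ`; write `x - p = w + t • e`, `w ⊥ e` (`t = Ring_t p e x`,
`w = Ring_w p e x`, `Ring_eq`, `Ring_orth`), `‖x - p‖ ≤ ‖w‖ + |t|`.  With `w'` from `Idx.nondeg`: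
`fderiv F x w' = 0` and `fderiv F p w' = 0` (`Ring_fd`), so (1) gives
`|D (x - p) w'| ≤ ε (‖w‖ + |t|) ‖w‖`, and `D (x - p) w' = D w w' + t * D e w' ≥ c ‖w‖² - |t| L ‖w‖`
(`‖e‖ = 1`).  Hence `c ‖w‖² ≤ (|t| (L + ε) + ε ‖w‖) ‖w‖`; if `ε ≤ c / 2` this gives
`‖w‖ ≤ (2 / c) (L + ε) |t| ≤ C |t|` with `C = 2 (L + c) / c` (also true for `w = 0`).
(2) with `F x = F p = 0`, `fderiv F p (x - p) = -(l t)`: `l |t| ≤ ε (‖w‖ + |t|) ≤ ε (C + 1) |t|`.
With `ε < l / (C + 1)` this forces `t = 0`, so `w = 0` and `x = p`.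
Take `ε = min (c / 2) (l / (2 (C + 1)))`. -/
theorem ix_isol (F : V → ℝ) (hF : ContDiff ℝ ∞ F) (e : V) (he : ‖e‖ = 1) (p : V)
    (hp : Inward F e p) (k : ℕ) (hk : Idx F e p k) :
    ∃ ρ : ℝ, 0 < ρ ∧ ∀ x, dist x p < ρ → Inward F e x → x = p := by
  obtain ⟨c, hc, hcw⟩ := Idx.nondeg hF hk
  obtain ⟨hp0, l, hl, hg⟩ := hp
  have hpI : Inward F e p := ⟨hp0, l, hl, hg⟩
  have hd1 : HasFDerivAt F (fderiv ℝ F p) p :=
    (hF.differentiable (by simp)).differentiableAt.hasFDerivAt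
  have hd2 : HasFDerivAt (fderiv ℝ F) (fderiv ℝ (fderiv ℝ F) p) p :=
    ((hF.fderiv_right (m := ∞) (by simp)).differentiable (by simp)).differentiableAt.hasFDerivAt
  set D := fderiv ℝ (fderiv ℝ F) p with hD
  have hL : 0 ≤ ‖D‖ := norm_nonneg D
  set C : ℝ := 2 * (‖D‖ + c) / c with hC
  have hC0 : 0 ≤ C := by positivity
  set ε : ℝ := min (c / 2) (l / (2 * (C + 1))) with hε
  have hε0 : 0 < ε := by
    rw [hε]
    exact lt_min (by positivity) (by positivity)
  have hε1 : ε ≤ c / 2 := min_le_left _ _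
  have hε2 : ε * (C + 1) ≤ l / 2 := by
    have h1 : ε ≤ l / (2 * (C + 1)) := min_le_right _ _
    have h2 : l / (2 * (C + 1)) * (C + 1) = l / 2 := by
      field_simp
    calc ε * (C + 1) ≤ l / (2 * (C + 1)) * (C + 1) :=
          mul_le_mul_of_nonneg_right h1 (by linarith)
      _ = l / 2 := h2
  have hb1 := (hasFDerivAt_iff_isLittleO.1 hd2).bound hε0
  have hb2 := (hasFDerivAt_iff_isLittleO.1 hd1).bound hε0
  obtain ⟨ρ, hρ, hball⟩ := Metric.eventually_nhds_iff.1 (hb1.and hb2)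
  refine ⟨ρ, hρ, fun x hx hin => ?_⟩
  obtain ⟨h1, h2⟩ := hball hx
  have hxp : x - p = Ring_w p e x + Ring_t p e x • e := by rw [Ring_w]; abel
  have ho := Ring_orth he p x
  have hdist : ‖x - p‖ ≤ ‖Ring_w p e x‖ + |Ring_t p e x| := by
    rw [← dist_eq_norm]
    exact Ring_dist he p x
  obtain ⟨w', hw'e, hw'n, hw'c⟩ := hcw _ ho
  set w := Ring_w p e x with hw
  set t := Ring_t p e x with ht
  -- the first estimate
  have h3 : |D (x - p) w'| ≤ ε * (‖w‖ + |t|) * ‖w‖ := by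
    have h4 := (fderiv ℝ F x - fderiv ℝ F p - D (x - p)).le_opNorm w'
    have h5 : (fderiv ℝ F x - fderiv ℝ F p - D (x - p)) w' = -(D (x - p) w') := by
      rw [ContinuousLinearMap.sub_apply, ContinuousLinearMap.sub_apply, Ring_fd hin hw'e,
        Ring_fd hpI hw'e]
      ring
    rw [h5, norm_neg, Real.norm_eq_abs, hw'n] at h4
    have h6 : ‖fderiv ℝ F x - fderiv ℝ F p - D (x - p)‖ ≤ ε * (‖w‖ + |t|) :=
      h1.trans (mul_le_mul_of_nonneg_left hdist hε0.le)
    exact h4.trans (mul_le_mul_of_nonneg_right h6 (norm_nonneg _))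
  have h7 : D (x - p) w' = D w w' + t * D e w' := by
    rw [hxp, map_add, map_smul]
    rfl
  have h8 : |D e w'| ≤ ‖D‖ * ‖w‖ := by
    have h9 := (D e).le_opNorm w'
    have h10 := D.le_opNorm e
    rw [he, mul_one] at h10
    rw [Real.norm_eq_abs, hw'n] at h9
    exact h9.trans (mul_le_mul_of_nonneg_right h10 (norm_nonneg _))
  have h11 : c * ‖w‖ ^ 2 ≤ ε * (‖w‖ + |t|) * ‖w‖ + |t| * (‖D‖ * ‖w‖) := by
    have h12 : D w w' = D (x - p) w' - t * D e w' := by rw [h7]; ring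
    have h13 : |t * D e w'| ≤ |t| * (‖D‖ * ‖w‖) := by
      rw [abs_mul]
      exact mul_le_mul_of_nonneg_left h8 (abs_nonneg _)
    have h14 := le_abs_self (D (x - p) w')
    have h15 := neg_abs_le (t * D e w')
    calc c * ‖w‖ ^ 2 ≤ D w w' := hw'c
      _ = D (x - p) w' - t * D e w' := h12
      _ ≤ ε * (‖w‖ + |t|) * ‖w‖ + |t| * (‖D‖ * ‖w‖) := by linarith
  have h16 : ‖w‖ ≤ C * |t| := by
    rcases (norm_nonneg w).eq_or_lt with h0 | h0
    · rw [← h0]
      positivity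
    · have h17 : c * ‖w‖ ≤ ε * (‖w‖ + |t|) + |t| * ‖D‖ := by
        have h18 : c * ‖w‖ * ‖w‖ ≤ (ε * (‖w‖ + |t|) + |t| * ‖D‖) * ‖w‖ := by
          nlinarith [h11]
        exact le_of_mul_le_mul_right h18 h0
      have h19 : c / 2 * ‖w‖ ≤ (‖D‖ + c) * |t| := by
        have h20 : ε * ‖w‖ ≤ c / 2 * ‖w‖ := mul_le_mul_of_nonneg_right hε1 h0.le
        have h21 : ε * |t| ≤ c * |t| :=
          mul_le_mul_of_nonneg_right (by linarith) (abs_nonneg _)
        nlinarith
      rw [hC, div_mul_eq_mul_div, le_div_iff₀ hc]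
      nlinarith
  -- the second estimate
  have h22 : l * |t| ≤ ε * (‖w‖ + |t|) := by
    have h23 : F x - F p - fderiv ℝ F p (x - p) = l * t := by
      rw [hin.1, hp0, cgLocal_grad hg]
      have h24 : (⟪x - p, e⟫ : ℝ) = t := rfl
      rw [h24]
      ring
    rw [h23, Real.norm_eq_abs, abs_mul, abs_of_pos hl] at h2
    exact h2.trans (mul_le_mul_of_nonneg_left hdist hε0.le)
  have h25 : |t| = 0 := by
    have h26 : ε * (‖w‖ + |t|) ≤ ε * ((C + 1) * |t|) :=
      mul_le_mul_of_nonneg_left (by linarith) hε0.le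
    have h27 : ε * ((C + 1) * |t|) ≤ l / 2 * |t| := by
      rw [← mul_assoc]
      exact mul_le_mul_of_nonneg_right hε2 (abs_nonneg _)
    have h28 : l * |t| ≤ l / 2 * |t| := h22.trans (h26.trans h27)
    nlinarith [abs_nonneg t]
  have ht0 : t = 0 := abs_eq_zero.1 h25
  have hw0 : w = 0 := by
    rw [h25, mul_zero] at h16
    exact norm_le_zero_iff.1 h16
  rw [hw0, ht0, zero_smul, add_zero] at hxp
  exact sub_eq_zero.1 hxp

/-- If all points with normal `-e` are nondegenerate, there are finitely many.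

PROOF.  `T = {x | Inward F e x}` is closed: `Inward F e x ↔ F x = 0 ∧
gradient F x = -(‖gradient F x‖ • e)` (by `hreg`; see the proof of `hIn` in `CG/Unique.lean`), and
bounded, so compact; every point of `T` has a neighbourhood meeting `T` in one point (`ix_isol`), so
`T` is finite (finite subcover, as in `CG/Unique.lean`: `IsCompact.elim_nhds_subcover`). -/
theorem ix_finite (F : V → ℝ) (hF : ContDiff ℝ ∞ F) (hb : Bornology.IsBounded {x | F x ≤ 0})
    (hreg : ∀ x, F x = 0 → gradient F x ≠ 0) (e : V) (he : ‖e‖ = 1)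
    (hidx : ∀ x, Inward F e x → ∃ k, Idx F e x k) : {x | Inward F e x}.Finite := by
  classical
  have hFc : Continuous F := hF.continuous
  have hgc : Continuous (gradient F) := by
    have h1 : Continuous (fderiv ℝ F) := hF.continuous_fderiv (by simp)
    exact (InnerProductSpace.toDual ℝ V).symm.continuous.comp h1
  have hIn : ∀ x, Inward F e x ↔ F x = 0 ∧ gradient F x = -(‖gradient F x‖ • e) := by
    intro x
    constructor
    · rintro ⟨h0, l, hl, hg⟩
      refine ⟨h0, ?_⟩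
      have hn : ‖gradient F x‖ = l := by
        rw [hg, norm_neg, norm_smul, he, mul_one, Real.norm_of_nonneg hl.le]
      rw [hn]
      exact hg
    · rintro ⟨h0, hg⟩
      exact ⟨h0, _, norm_pos_iff.2 (hreg x h0), hg⟩
  set T : Set V := {x | Inward F e x} with hT
  have hTcl : IsClosed T := by
    have h1 : T = {x | F x = 0} ∩ {x | gradient F x = -(‖gradient F x‖ • e)} := by
      ext x
      exact hIn x
    rw [h1]
    exact (isClosed_eq hFc continuous_const).inter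
      (isClosed_eq hgc (hgc.norm.smul continuous_const).neg)
  have hTc : IsCompact T :=
    Metric.isCompact_of_isClosed_isBounded hTcl (hb.subset fun x hx => hx.1.le)
  have hloc : ∀ x : V, ∃ U : Set V, x ∈ T → (U ∈ nhds x ∧ ∀ y ∈ T, y ∈ U → y = x) := by
    intro x
    by_cases hx : x ∈ T
    · obtain ⟨k, hk⟩ := hidx x hx
      obtain ⟨ρ, hρ, h⟩ := ix_isol F hF e he x hx k hk
      exact ⟨ball x ρ, fun _ => ⟨ball_mem_nhds x hρ, fun y hy hyU => h y hyU hy⟩⟩
    · exact ⟨∅, fun h => absurd h hx⟩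
  choose U hU using hloc
  obtain ⟨t, htT, ht⟩ := hTc.elim_nhds_subcover U (fun x hx => (hU x hx).1)
  refine t.finite_toSet.subset ?_
  intro x hx
  obtain ⟨y, hy, hxy⟩ := Set.mem_iUnion₂.1 (ht hx)
  rw [(hU y (htT y hy)).2 x hx hxy]
  exact Finset.mem_coe.2 hy

end Pool.Schoen
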