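import Mathlib
import Pool.Agent.H.MP_6c077c_gt.Ix.Class

/-! Index theorem: sets on which every map to the circle lifts to the line. -/

set_option autoImplicit false

namespace Pool.Schoen

open Filter Set Metric
open scoped Topology RealInnerProductSpace

/-- The lifting property is invariant under homeomorphisms.

PROOF.  Given `u` on `B`, let `u' y = u (Φ ⟨y, hy⟩)` for `y ∈ A` and `1` otherwise (classical
`dite`); it is continuous on `A` (`continuousOn_iff_continuous_domRestrict`).  Let `v'` be the lift;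
`v z = v' (Φ.symm ⟨z, hz⟩)` for `z ∈ B`, `0` otherwise. -/
theorem LiftS.homeo {Y Z : Type*} [TopologicalSpace Y] [TopologicalSpace Z] {A : Set Y} {B : Set Z}
    (Φ : A ≃ₜ B) (h : LiftS A) : LiftS B := by
  classical
  intro u hu hn
  set u' : Y → ℂ := fun y => if hy : y ∈ A then u (Φ ⟨y, hy⟩) else 1 with hu'
  have e0 : ∀ (y : Y) (hy : y ∈ A), u' y = u (Φ ⟨y, hy⟩) := fun y hy => by
    rw [hu']
    exact dif_pos hy
  have c1 : ContinuousOn u' A := by
    rw [continuousOn_iff_continuous_domRestrict]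
    have e1 : A.domRestrict u' = B.domRestrict u ∘ Φ := by
      funext a
      exact e0 a a.2
    rw [e1]
    exact (continuousOn_iff_continuous_domRestrict.1 hu).comp Φ.continuous
  obtain ⟨v', cv', ev'⟩ := h u' c1 (fun y hy => by rw [e0 y hy]; exact hn _ (Φ ⟨y, hy⟩).2)
  set v : Z → ℝ := fun z => if hz : z ∈ B then v' (Φ.symm ⟨z, hz⟩) else 0 with hv
  have f0 : ∀ (z : Z) (hz : z ∈ B), v z = v' (Φ.symm ⟨z, hz⟩) := fun z hz => by
    rw [hv]
    exact dif_pos hz
  refine ⟨v, ?_, ?_⟩
  · rw [continuousOn_iff_continuous_domRestrict]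
    have e1 : B.domRestrict v = A.domRestrict v' ∘ Φ.symm := by
      funext a
      exact f0 a a.2
    rw [e1]
    exact (continuousOn_iff_continuous_domRestrict.1 cv').comp Φ.symm.continuous
  · intro z hz
    rw [f0 z hz, ← ev' _ (Φ.symm ⟨z, hz⟩).2, e0 _ (Φ.symm ⟨z, hz⟩).2]
    have : Φ ⟨(Φ.symm ⟨z, hz⟩ : Y), (Φ.symm ⟨z, hz⟩).2⟩ = ⟨z, hz⟩ := Φ.apply_symm_apply ⟨z, hz⟩
    rw [this]

private theorem Lift_int {x y : ℝ} (h : Complex.exp (x * Complex.I) = Complex.exp (y * Complex.I)) :
    ∃ n : ℤ, x = y + n * (2 * Real.pi) := by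
  obtain ⟨n, hn⟩ := Complex.exp_eq_exp_iff_exists_int.1 h
  refine ⟨n, ?_⟩
  have h1 := congrArg Complex.im hn
  simpa using h1

private theorem Lift_exp (y : ℝ) (n : ℤ) :
    Complex.exp (((y + n * (2 * Real.pi) : ℝ) : ℂ) * Complex.I) = Complex.exp (y * Complex.I) := by
  rw [Complex.exp_eq_exp_iff_exists_int]
  refine ⟨n, ?_⟩
  push_cast
  ring

/-- Union of two closed sets with preconnected intersection.

PROOF.  Let `v₁`, `v₂` be lifts of `u` on `A`, `B`.  On `A ∩ B`, `exp (i (v₁ - v₂)) = 1`, so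
`(v₁ - v₂) / (2π)` is an integer (`Complex.exp_eq_one_iff`), continuous on the preconnected set
`A ∩ B`, hence constant (`IsPreconnected.constant`, or the image in `ℝ` is preconnected and
contained in the range of `ℤ`): there is `k : ℤ` with `v₁ = v₂ + 2πk` on `A ∩ B` (if `A ∩ B = ∅`
take `k = 0`).  Take `v = v₁` on `A`, `v₂ + 2πk` off `A` (classical `ite`): on `A` it equals `v₁`, on
`B` it equals `v₂ + 2πk`; so it is continuous on the closed sets `A` and `B`, hence on `A ∪ B`
(`ContinuousOn.union_of_isClosed`), and it lifts `u`. -/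
theorem LiftS.union {Y : Type*} [TopologicalSpace Y] {A B : Set Y} (hA : IsClosed A)
    (hB : IsClosed B) (h1 : LiftS A) (h2 : LiftS B) (hc : IsPreconnected (A ∩ B)) :
    LiftS (A ∪ B) := by
  classical
  intro u hu hn
  obtain ⟨v₁, c₁, e₁⟩ := h1 u (hu.mono subset_union_left) (fun x hx => hn x (Or.inl hx))
  obtain ⟨v₂, c₂, e₂⟩ := h2 u (hu.mono subset_union_right) (fun x hx => hn x (Or.inr hx))
  have hpi : (2 * Real.pi) ≠ 0 := by positivity
  have hint : ∀ x ∈ A ∩ B, ∃ n : ℤ, v₁ x = v₂ x + n * (2 * Real.pi) := by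
    rintro x ⟨hxA, hxB⟩
    exact Lift_int ((e₁ x hxA).symm.trans (e₂ x hxB))
  choose! n hn' using hint
  have cn : ContinuousOn n (A ∩ B) := by
    have c3 : ContinuousOn (fun x => (v₁ x - v₂ x) / (2 * Real.pi)) (A ∩ B) :=
      ((c₁.mono inter_subset_left).sub (c₂.mono inter_subset_right)).div_const _
    have c4 : ContinuousOn ((fun m : ℤ => (m : ℝ)) ∘ n) (A ∩ B) := by
      refine c3.congr fun x hx => ?_
      change (n x : ℝ) = (v₁ x - v₂ x) / (2 * Real.pi)
      rw [hn' x hx]
      field_simp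
      ring
    exact Int.isClosedEmbedding_coe_real.isInducing.continuousOn_iff.2 c4
  have hk : ∃ k : ℤ, ∀ x ∈ A ∩ B, v₁ x = v₂ x + k * (2 * Real.pi) := by
    rcases (A ∩ B).eq_empty_or_nonempty with he | ⟨x₀, hx₀⟩
    · exact ⟨0, fun x hx => by rw [he] at hx; exact absurd hx (notMem_empty x)⟩
    · exact ⟨n x₀, fun x hx => by rw [← hc.constant cn hx hx₀]; exact hn' x hx⟩
  obtain ⟨k, hk⟩ := hk
  have hvB : ∀ x ∈ B, (if x ∈ A then v₁ x else v₂ x + k * (2 * Real.pi)) =
      v₂ x + k * (2 * Real.pi) := by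
    intro x hx
    split_ifs with hxA
    · exact hk x ⟨hxA, hx⟩
    · rfl
  refine ⟨fun x => if x ∈ A then v₁ x else v₂ x + k * (2 * Real.pi), ?_, ?_⟩
  · refine ContinuousOn.union_of_isClosed ?_ ?_ hA hB
    · exact c₁.congr fun x hx => if_pos hx
    · exact (c₂.add continuousOn_const).congr fun x hx => hvB x hx
  · rintro x (hx | hx)
    · change u x = Complex.exp (((if x ∈ A then v₁ x else v₂ x + k * (2 * Real.pi) : ℝ) : ℂ) *
        Complex.I)
      rw [if_pos hx]
      exact e₁ x hx
    · change u x = Complex.exp (((if x ∈ A then v₁ x else v₂ x + k * (2 * Real.pi) : ℝ) : ℂ) *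
        Complex.I)
      rw [hvB x hx, Lift_exp]
      exact e₂ x hx

/-- From a union to a part.

PROOF.  Let `u` be given on `A`.  Let `v₀` be a lift on `A ∩ B`.  By Tietze (`Y` is normal,
`A ∩ B` closed: `ContinuousMap.exists_restrict_eq` / `ContinuousMap.exists_extension`) there is
`v₁ : Y → ℝ` continuous with `v₁ = v₀` on `A ∩ B`.  Let `u' = u` on `A` and `exp (i v₁)` off `A`
(classical `ite`); on `B` it equals `exp (i v₁)` (for points of `A ∩ B` because `v₀` lifts `u`).  It
is continuous on the closed sets `A` and `B`, so on `A ∪ B` (`ContinuousOn.union_of_isClosed`), of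
norm one.  A lift of `u'` on `A ∪ B` lifts `u` on `A`. -/
theorem LiftS.of_union {Y : Type*} [TopologicalSpace Y] [NormalSpace Y] {A B : Set Y}
    (hA : IsClosed A) (hB : IsClosed B) (h1 : LiftS (A ∪ B)) (h2 : LiftS (A ∩ B)) : LiftS A := by
  classical
  intro u hu hn
  obtain ⟨v₀, c₀, e₀⟩ := h2 u (hu.mono inter_subset_left) (fun x hx => hn x hx.1)
  obtain ⟨g, hg⟩ := ContinuousMap.exists_restrict_eq (Y := ℝ) (hA.inter hB)
    ⟨(A ∩ B).domRestrict v₀, continuousOn_iff_continuous_domRestrict.1 c₀⟩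
  have hg' : ∀ x ∈ A ∩ B, g x = v₀ x := fun x hx => DFunLike.congr_fun hg ⟨x, hx⟩
  have huB : ∀ x ∈ B, (if x ∈ A then u x else Complex.exp (g x * Complex.I)) =
      Complex.exp (g x * Complex.I) := by
    intro x hx
    split_ifs with hxA
    · rw [hg' x ⟨hxA, hx⟩]
      exact e₀ x ⟨hxA, hx⟩
    · rfl
  obtain ⟨v, cv, ev⟩ := h1 (fun x => if x ∈ A then u x else Complex.exp (g x * Complex.I))
    (by
      refine ContinuousOn.union_of_isClosed ?_ ?_ hA hB
      · exact hu.congr fun x hx => if_pos hx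
      · have c1 : Continuous fun x => Complex.exp (g x * Complex.I) :=
          Complex.continuous_exp.comp
            ((Complex.continuous_ofReal.comp g.continuous).mul continuous_const)
        exact c1.continuousOn.congr fun x hx => huB x hx)
    (by
      intro x _
      change ‖(if x ∈ A then u x else Complex.exp (g x * Complex.I))‖ = 1
      split_ifs with hxA
      · exact hn x hxA
      · exact Complex.norm_exp_ofReal_mul_I _)
  refine ⟨v, cv.mono subset_union_left, fun x hx => ?_⟩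
  have := ev x (Or.inl hx)
  rwa [if_pos hx] at this

/-- A retract.  If `r` maps `Y` continuously to `A` and is the identity on `A` and every map of `Y`
to the circle lifts, take the lift of `u ∘ r`. -/
theorem LiftS.retract {Y : Type*} [TopologicalSpace Y] {A : Set Y} (h : LiftS (univ : Set Y))
    (r : Y → Y) (hr : Continuous r) (hrA : ∀ y, r y ∈ A) (hid : ∀ y ∈ A, r y = y) : LiftS A := by
  intro u hu hn
  obtain ⟨v, cv, ev⟩ := h (u ∘ r) (hu.comp hr.continuousOn (fun y _ => hrA y))
    (fun y _ => hn _ (hrA y))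
  refine ⟨v, cv.mono (subset_univ _), fun x hx => ?_⟩
  have := ev x (mem_univ x)
  rwa [Function.comp_apply, hid x hx] at this

end Pool.Schoen
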