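import Mathlib
import Pool.Agent.H.MP_6c077c_gt.IxB.Lift

/-! Index theorem: lifting of maps to the circle on convex sets. -/

set_option autoImplicit false

namespace Pool.Schoen

open Filter Set Metric
open scoped Topology RealInnerProductSpace

/-- The whole space.

PROOF.  `Circle.isCoveringMap_exp` and `IsCoveringMap.existsUnique_continuousMap_lifts` (or the
version `IsCoveringMapOn...` in `Mathlib/Topology/Homotopy/Lifting.lean`); a real normed space is
contractible (`RealTopologicalVectorSpace.contractibleSpace`), so simply connected, and locally path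
connected.  The map is `x ↦ (⟨u x, _⟩ : Circle)`; `Circle.coe_exp`.  The starting value is an
argument of `u 0` (`Circle.exp` is surjective: `Circle.exp_arg`). -/
theorem liftS_univ (V : Type*) [NormedAddCommGroup V] [NormedSpace ℝ V] :
    LiftS (univ : Set V) := by
  intro u hu hn
  have hu' : Continuous u := continuousOn_univ.1 hu
  let f0 : V → Circle := fun x => ⟨u x, mem_sphere_zero_iff_norm.2 (hn x (mem_univ x))⟩
  have hf0 : Continuous f0 := Continuous.subtype_mk hu' _
  obtain ⟨F, ⟨-, hF⟩, -⟩ := Circle.isCoveringMap_exp.existsUnique_continuousMap_lifts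
    (⟨f0, hf0⟩ : C(V, Circle)) 0 (Complex.arg (f0 0)) (Circle.exp_arg _)
  refine ⟨F, F.continuous.continuousOn, fun x _ => ?_⟩
  have h1 : Circle.exp (F x) = f0 x := congrFun hF x
  have h2 := congrArg (fun z : Circle => (z : ℂ)) h1
  simp only [Circle.coe_exp] at h2
  exact h2.symm

/-- Closed convex sets with interior points.

PROOF.  Translate so that `0` is an interior point: with `K' = {x | x + o ∈ K}`, `gauge K'` is
continuous (`continuous_gauge`, `K'` a neighbourhood of `0`, convex) and
`K' = {x | gauge K' x ≤ 1}` (`gauge_le_one_iff_mem_closure`, `K'` closed).  The retraction is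
`r y = o + (max 1 (gauge K' (y - o)))⁻¹ • (y - o)`.  Apply `LiftS.retract`. -/
theorem liftS_convex {V : Type*} [NormedAddCommGroup V] [NormedSpace ℝ V] (K : Set V)
    (hK : Convex ℝ K) (hc : IsClosed K) (hi : (interior K).Nonempty) : LiftS K := by
  obtain ⟨o, ho⟩ := hi
  obtain ⟨K', hK'⟩ : ∃ K' : Set V, K' = (fun x => o + x) ⁻¹' K := ⟨_, rfl⟩
  have hmem : ∀ x, x ∈ K' ↔ o + x ∈ K := by
    intro x
    rw [hK']
    exact Iff.rfl
  have hconv : Convex ℝ K' := by
    rw [hK']
    exact hK.translate_preimage_right o
  have hclosed : IsClosed K' := by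
    rw [hK']
    exact hc.preimage (continuous_const.add continuous_id)
  have hnhds : K' ∈ 𝓝 (0 : V) := by
    rw [hK']
    have h1 : Continuous (fun x : V => o + x) := continuous_const.add continuous_id
    apply h1.continuousAt.preimage_mem_nhds
    rw [add_zero]
    exact mem_interior_iff_mem_nhds.1 ho
  have hg : Continuous (gauge K') := continuous_gauge hconv hnhds
  have hle : ∀ x, gauge K' x ≤ 1 ↔ x ∈ K' := by
    intro x
    rw [gauge_le_one_iff_mem_closure hconv hnhds, hclosed.closure_eq]
  have hpos : ∀ y : V, (0 : ℝ) < max 1 (gauge K' (y - o)) := fun y =>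
    lt_of_lt_of_le one_pos (le_max_left _ _)
  refine LiftS.retract (liftS_univ V)
    (fun y => o + (max 1 (gauge K' (y - o)))⁻¹ • (y - o)) ?_ ?_ ?_
  · have h1 : Continuous fun y : V => y - o := continuous_id.sub continuous_const
    have h2 : Continuous fun y : V => max 1 (gauge K' (y - o)) :=
      continuous_const.max (hg.comp h1)
    exact continuous_const.add ((h2.inv₀ fun y => (hpos y).ne').smul h1)
  · intro y
    rw [← hmem, ← hle, gauge_smul_of_nonneg (inv_nonneg.2 (hpos y).le), smul_eq_mul,
      inv_mul_le_iff₀ (hpos y), mul_one]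
    exact le_max_right _ _
  · intro y hy
    have h1 : y - o ∈ K' := by
      rw [hmem, add_sub_cancel]
      exact hy
    have h2 : max 1 (gauge K' (y - o)) = 1 := max_eq_left ((hle _).2 h1)
    change o + (max 1 (gauge K' (y - o)))⁻¹ • (y - o) = y
    rw [h2, inv_one, one_smul, add_sub_cancel]

end Pool.Schoen
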