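import Mathlib
import Pool.Agent.H.MP_6c077c_gt.IxB.LiftBall

/-! Index theorem: lifting of maps to the circle on spheres. -/

set_option autoImplicit false

namespace Pool.Schoen

open Filter Set Metric
open scoped Topology RealInnerProductSpace

/-- The equator is preconnected. -/
private theorem LiftSphere_equator {E : Type*} [NormedAddCommGroup E] [InnerProductSpace ℝ E]
    [FiniteDimensional ℝ E] (hE : 3 ≤ Module.finrank ℝ E) {e : E} (he : ‖e‖ = 1) :
    IsPreconnected {x : E | ‖x‖ = 1 ∧ ⟪e, x⟫ = 0} := by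
  have he0 : e ≠ 0 := by
    rintro rfl
    simp at he
  have hfr : Module.finrank ℝ (ℝ ∙ e)ᗮ + 1 = Module.finrank ℝ E := by
    have h1 := Submodule.finrank_add_finrank_orthogonal (ℝ ∙ e)
    rw [finrank_span_singleton he0] at h1
    omega
  have hrank : 1 < Module.rank ℝ (ℝ ∙ e)ᗮ := by
    rw [← Module.finrank_eq_rank]
    have : 2 ≤ Module.finrank ℝ (ℝ ∙ e)ᗮ := by omega
    exact_mod_cast this
  have h2 := (isPreconnected_sphere hrank (0 : (ℝ ∙ e)ᗮ) 1).image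
    (fun w : (ℝ ∙ e)ᗮ => (w : E)) (by fun_prop)
  have h3 : {x : E | ‖x‖ = 1 ∧ ⟪e, x⟫ = 0} = (fun w : (ℝ ∙ e)ᗮ => (w : E)) '' sphere 0 1 := by
    ext x
    constructor
    · rintro ⟨hx, ht⟩
      refine ⟨⟨x, Submodule.mem_orthogonal_singleton_iff_inner_right.2 ht⟩, ?_, rfl⟩
      rw [mem_sphere, dist_zero_right]
      exact hx
    · rintro ⟨w, hw, rfl⟩
      rw [mem_sphere, dist_zero_right] at hw
      exact ⟨hw, Submodule.mem_orthogonal_singleton_iff_inner_right.1 w.2⟩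
  rw [h3]
  exact h2

private theorem LiftSphere_norm {E : Type*} [NormedAddCommGroup E] [InnerProductSpace ℝ E]
    {e w : E} (he : ‖e‖ = 1) (hw : ⟪e, w⟫ = 0) (s : ℝ) : ‖w + s • e‖ ^ 2 = ‖w‖ ^ 2 + s ^ 2 := by
  have h1 : ⟪w, s • e⟫ = 0 := by
    rw [real_inner_smul_right, real_inner_comm, hw, mul_zero]
  have h2 := norm_add_sq_real w (s • e)
  rw [h1, norm_smul, he, mul_one, Real.norm_eq_abs, sq_abs] at h2
  linarith

private theorem LiftSphere_inner {E : Type*} [NormedAddCommGroup E] [InnerProductSpace ℝ E]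
    {e w : E} (he : ‖e‖ = 1) (hw : ⟪e, w⟫ = 0) (s : ℝ) : ⟪e, w + s • e⟫ = s := by
  rw [inner_add_right, hw, real_inner_smul_right, real_inner_self_eq_norm_sq, he]
  ring

private theorem LiftSphere_orth {E : Type*} [NormedAddCommGroup E] [InnerProductSpace ℝ E]
    {e : E} (he : ‖e‖ = 1) (x : E) : ⟪e, x - ⟪e, x⟫ • e⟫ = 0 := by
  rw [inner_sub_right, real_inner_smul_right, real_inner_self_eq_norm_sq, he]
  ring

/-- the map to the hemisphere -/
private noncomputable def LiftSphere_up {E : Type*} [NormedAddCommGroup E]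
    [InnerProductSpace ℝ E] (e : E) (y : (ℝ ∙ e)ᗮ) : E := (y : E) + √(1 - ‖y‖ ^ 2) • e

private theorem LiftSphere_up_mem {E : Type*} [NormedAddCommGroup E] [InnerProductSpace ℝ E]
    {e : E} (he : ‖e‖ = 1) (y : (ℝ ∙ e)ᗮ) (hy : y ∈ closedBall (0 : (ℝ ∙ e)ᗮ) 1) :
    LiftSphere_up e y ∈ {x : E | ‖x‖ = 1 ∧ 0 ≤ ⟪e, x⟫} := by
  have hw : ⟪e, (y : E)⟫ = 0 := Submodule.mem_orthogonal_singleton_iff_inner_right.1 y.2
  have hy1 : ‖y‖ ≤ 1 := by
    rwa [mem_closedBall, dist_zero_right] at hy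
  have hy2 : 0 ≤ 1 - ‖y‖ ^ 2 := by nlinarith [norm_nonneg y]
  constructor
  · have h1 := LiftSphere_norm he hw (√(1 - ‖y‖ ^ 2))
    rw [Real.sq_sqrt hy2, Submodule.coe_norm, add_sub_cancel] at h1
    have h2 : ‖LiftSphere_up e y‖ ^ 2 = 1 ^ 2 := by
      rw [one_pow, LiftSphere_up]
      exact h1
    exact (sq_eq_sq₀ (norm_nonneg _) zero_le_one).1 h2
  · rw [LiftSphere_up, LiftSphere_inner he hw]
    exact Real.sqrt_nonneg _

/-- the projection to the orthogonal complement -/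
private noncomputable def LiftSphere_down {E : Type*} [NormedAddCommGroup E]
    [InnerProductSpace ℝ E] {e : E} (he : ‖e‖ = 1) (x : E) : (ℝ ∙ e)ᗮ :=
  ⟨x - ⟪e, x⟫ • e, Submodule.mem_orthogonal_singleton_iff_inner_right.2 (LiftSphere_orth he x)⟩

private theorem LiftSphere_down_sq {E : Type*} [NormedAddCommGroup E] [InnerProductSpace ℝ E]
    {e : E} (he : ‖e‖ = 1) {x : E} (hx : ‖x‖ = 1) :
    ‖LiftSphere_down he x‖ ^ 2 = 1 - ⟪e, x⟫ ^ 2 := by
  have h1 := LiftSphere_norm he (LiftSphere_orth he x) ⟪e, x⟫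
  rw [sub_add_cancel, hx] at h1
  have h2 : ‖LiftSphere_down he x‖ = ‖x - ⟪e, x⟫ • e‖ := rfl
  rw [h2]
  linarith

private theorem LiftSphere_hemi {E : Type*} [NormedAddCommGroup E] [InnerProductSpace ℝ E]
    {e : E} (he : ‖e‖ = 1) : LiftS {x : E | ‖x‖ = 1 ∧ 0 ≤ ⟪e, x⟫} := by
  let Φ : closedBall (0 : (ℝ ∙ e)ᗮ) 1 ≃ₜ {x : E | ‖x‖ = 1 ∧ 0 ≤ ⟪e, x⟫} :=
    { toFun := fun y => ⟨LiftSphere_up e y.1, LiftSphere_up_mem he y.1 y.2⟩
      invFun := fun x => ⟨LiftSphere_down he x.1, by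
        rw [mem_closedBall, dist_zero_right]
        have h1 := LiftSphere_down_sq he x.2.1
        nlinarith [norm_nonneg (LiftSphere_down he x.1), sq_nonneg ⟪e, x.1⟫]⟩
      left_inv := by
        rintro ⟨y, hy⟩
        have hw : ⟪e, (y : E)⟫ = 0 := Submodule.mem_orthogonal_singleton_iff_inner_right.1 y.2
        apply Subtype.ext
        apply Subtype.ext
        show LiftSphere_up e y - ⟪e, LiftSphere_up e y⟫ • e = (y : E)
        rw [LiftSphere_up, LiftSphere_inner he hw]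
        abel
      right_inv := by
        rintro ⟨x, hx⟩
        apply Subtype.ext
        show (x - ⟪e, x⟫ • e) + √(1 - ‖LiftSphere_down he x‖ ^ 2) • e = x
        rw [LiftSphere_down_sq he hx.1, sub_sub_cancel, Real.sqrt_sq hx.2]
        abel
      continuous_toFun := by
        apply Continuous.subtype_mk
        unfold LiftSphere_up
        fun_prop
      continuous_invFun := by
        apply Continuous.subtype_mk
        unfold LiftSphere_down
        apply Continuous.subtype_mk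
        fun_prop }
  refine LiftS.homeo Φ (liftS_convex _ (convex_closedBall 0 1) isClosed_closedBall ⟨0, ?_⟩)
  exact ball_subset_interior_closedBall (mem_ball_self one_pos)

/-- Spheres of dimension at least two.

PROOF.  Choose a unit vector `e : E`.  `A = {x | ‖x‖ = 1 ∧ 0 ≤ ⟪e, x⟫}` and
`B = {x | ‖x‖ = 1 ∧ ⟪e, x⟫ ≤ 0}` are closed, `A ∪ B = sphere 0 1`, and `A ∩ B` is the image of the
unit sphere of `(ℝ ∙ e)ᗮ`, of dimension `≥ 2`, so preconnected (`isPreconnected_sphere`; see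
`Ring_equator` in `CG/Ring.lean`).  `A` is homeomorphic to the closed unit ball of `(ℝ ∙ e)ᗮ`:
`x ↦ x - ⟪e, x⟫ • e`, inverse `y ↦ y + √(1 - ‖y‖²) • e`; `liftS_convex` for the ball (radius one, in
the space `(ℝ ∙ e)ᗮ`) and `LiftS.homeo`.  The same for `B` (with `-e`; or compose with `x ↦ -x`).
Conclude with `LiftS.union`. -/
theorem liftS_sphere {E : Type*} [NormedAddCommGroup E] [InnerProductSpace ℝ E]
    [FiniteDimensional ℝ E] (hE : 3 ≤ Module.finrank ℝ E) : LiftS (sphere (0 : E) 1) := by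
  haveI : Nontrivial E := Module.nontrivial_of_finrank_pos (R := ℝ) (by omega)
  obtain ⟨e, he⟩ := exists_norm_eq E (zero_le_one (α := ℝ))
  have hn : Continuous fun x : E => ‖x‖ := continuous_norm
  have hi : Continuous fun x : E => ⟪e, x⟫ := continuous_const.inner continuous_id
  have hAc : IsClosed {x : E | ‖x‖ = 1 ∧ 0 ≤ ⟪e, x⟫} :=
    (isClosed_eq hn continuous_const).inter (isClosed_le continuous_const hi)
  have hBc : IsClosed {x : E | ‖x‖ = 1 ∧ ⟪e, x⟫ ≤ 0} :=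
    (isClosed_eq hn continuous_const).inter (isClosed_le hi continuous_const)
  have hB : LiftS {x : E | ‖x‖ = 1 ∧ ⟪e, x⟫ ≤ 0} := by
    have h1 := LiftSphere_hemi (e := -e) (by rw [norm_neg]; exact he)
    have h2 : {x : E | ‖x‖ = 1 ∧ 0 ≤ ⟪-e, x⟫} = {x : E | ‖x‖ = 1 ∧ ⟪e, x⟫ ≤ 0} := by
      ext x
      simp only [mem_setOf_eq, inner_neg_left, Left.nonneg_neg_iff]
    rwa [h2] at h1
  have hint : {x : E | ‖x‖ = 1 ∧ 0 ≤ ⟪e, x⟫} ∩ {x : E | ‖x‖ = 1 ∧ ⟪e, x⟫ ≤ 0} =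
      {x : E | ‖x‖ = 1 ∧ ⟪e, x⟫ = 0} := by
    ext x
    constructor
    · rintro ⟨⟨h1, h2⟩, -, h3⟩
      exact ⟨h1, le_antisymm h3 h2⟩
    · rintro ⟨h1, h2⟩
      exact ⟨⟨h1, h2.ge⟩, h1, h2.le⟩
  have hun : {x : E | ‖x‖ = 1 ∧ 0 ≤ ⟪e, x⟫} ∪ {x : E | ‖x‖ = 1 ∧ ⟪e, x⟫ ≤ 0} =
      sphere (0 : E) 1 := by
    ext x
    rw [mem_sphere, dist_zero_right]
    constructor
    · rintro (h | h)
      · exact h.1
      · exact h.1
    · intro h
      rcases le_total 0 ⟪e, x⟫ with h1 | h1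
      · exact Or.inl ⟨h, h1⟩
      · exact Or.inr ⟨h, h1⟩
  rw [← hun]
  refine LiftS.union hAc hBc (LiftSphere_hemi he) hB ?_
  rw [hint]
  exact LiftSphere_equator hE he

end Pool.Schoen
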