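import Mathlib
import Pool.Agent.H.MP_6c077c_gt.IxB.LiftSphere
import Pool.Agent.H.MP_6c077c_gt.IxB.Isol
import Pool.Agent.H.MP_6c077c_gt.CG.Crit
import Pool.Agent.H.MP_6c077c_gt.CG.Conn

/-! Index theorem for hypersurfaces: the hypothesis of the index theorem for good functions. -/

set_option autoImplicit false

namespace Pool.Schoen

open scoped ContDiff RealInnerProductSpace Topology
open Metric Set

variable {V : Type*} [NormedAddCommGroup V] [InnerProductSpace ℝ V] [FiniteDimensional ℝ V]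

private theorem T1_fd (F : V → ℝ) (x v : V) : fderiv ℝ F x v = ⟪gradient F x, v⟫ := by
  unfold gradient
  rw [InnerProductSpace.toDual_symm_apply]

/-- From the splitting to the data of `Inw`.

PROOF.  Smoothness: `hF.contDiffAt.of_le`.  Gradient: `Inward`, `fderiv F p v = ⟪gradient F p, v⟫`
(`inner_gradient_left`).  Index: let `N, P` be the splitting.  If `finrank N = 0` then `PosAt`
(`Idx.posAt`).  If `finrank N = 1`: there is a unit `u` with `N = ℝ ∙ u`
(`finrank_eq_one_iff'`, normalise); `⟪e, u⟫ = 0`, `hess F p u u < 0`.  If `⟪e, w⟫ = 0` and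
`⟪u, w⟫ = 0`, write `w = a + b` (`span`), `a = t • u`, `0 = ⟪u, w⟫ = t + 0`, so `w = b ∈ P`:
`hess F p u w = 0` by `diag` and `0 < hess F p w w` by `pos` if `w ≠ 0`. -/
theorem inw_of_idx (F : V → ℝ) (hF : ContDiff ℝ ∞ F) (e p : V) (hp : Inward F e p) (k : ℕ)
    (hk : k ≤ 1) (hi : Idx F e p k) : Inw F e p := by
  obtain ⟨hp0, l, hl, hg⟩ := hp
  refine ⟨hF.contDiffAt.of_le (by norm_cast), hp0, ⟨l, hl, fun v => ?_⟩, ?_⟩
  · rw [T1_fd, hg, inner_neg_left, real_inner_smul_left]
  · rcases Nat.lt_or_ge k 1 with hk0 | hk1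
    · left
      have hk0' : k = 0 := by omega
      subst hk0'
      intro w hw hw0
      exact hi.posAt w (by rw [real_inner_comm]; exact hw) hw0
    · right
      have hk1' : k = 1 := by omega
      subst hk1'
      obtain ⟨N, P, hs, hN⟩ := hi
      obtain ⟨⟨u0, hu0N⟩, hu0, hspan⟩ := (finrank_eq_one_iff' (K := ℝ) (V := N)).1 hN
      have hu0' : u0 ≠ 0 := fun h => hu0 (by
        apply Subtype.ext
        exact h)
      have hn0 : 0 < ‖u0‖ := norm_pos_iff.2 hu0'
      have hu1 : ‖‖u0‖⁻¹ • u0‖ = 1 := by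
        rw [norm_smul, norm_inv, norm_norm, inv_mul_cancel₀ hn0.ne']
      have huN : ‖u0‖⁻¹ • u0 ∈ N := N.smul_mem _ hu0N
      have hu : ‖u0‖⁻¹ • u0 ≠ 0 := by
        intro h
        rw [h, norm_zero] at hu1
        exact zero_ne_one hu1
      have hdec : ∀ w : V, ⟪e, w⟫ = 0 → ⟪‖u0‖⁻¹ • u0, w⟫ = 0 → w ∈ P := by
        intro w hw huw
        obtain ⟨a, ha, b, hb, hab⟩ := hs.span w (by rw [real_inner_comm]; exact hw)
        obtain ⟨c, hc⟩ := hspan ⟨a, ha⟩
        have hc' : c • u0 = a := congrArg Subtype.val hc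
        have h1 : ⟪‖u0‖⁻¹ • u0, b⟫ = 0 := hs.orth _ huN b hb
        have h2 : ⟪u0, b⟫ = 0 := hs.orth _ hu0N b hb
        rw [hab, inner_add_right, h1, add_zero, real_inner_smul_left, ← hc',
          real_inner_smul_right, real_inner_self_eq_norm_sq] at huw
        have h3 : c = 0 := by
          rcases mul_eq_zero.1 huw with h | h
          · exact absurd h (inv_ne_zero hn0.ne')
          · rcases mul_eq_zero.1 h with h | h
            · exact h
            · exact absurd h (by positivity)
        rw [hab, ← hc', h3, zero_smul, zero_add]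
        exact hb
      refine ⟨‖u0‖⁻¹ • u0, hu1, ?_, hs.neg _ huN hu, ?_, ?_⟩
      · rw [real_inner_comm]
        exact hs.hN _ huN
      · intro w hw huw
        exact hs.diag _ huN _ (hdec w hw huw)
      · intro w hw huw hw0
        exact hs.pos _ (hdec w hw huw) hw0

/-- A point of the hypersurface which is not `Inward` is free.

PROOF.  Let `g = gradient F x ≠ 0`.  `‖g‖ + ⟪g, e⟫ > 0`, otherwise `⟪g, -e⟫ ≥ ‖g‖ ‖e‖` and `g` is a
positive multiple of `-e` (`inner_eq_norm_mul_iff_real`).  `w = -(‖g‖ • e + g)` has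
`⟪e, w⟫ = -(‖g‖ + ⟪g, e⟫) < 0` and `fderiv F x w = -‖g‖ (⟪g, e⟫ + ‖g‖) < 0`; `desc1_smooth`.
(The same computation is in the private lemma `crit_key` in `CG/Crit.lean`.) -/
theorem free_of_not_inward (F : V → ℝ) (hF : ContDiff ℝ ∞ F) (e : V) (he : ‖e‖ = 1) (x : V)
    (hx : F x = 0) (hg : gradient F x ≠ 0) (hn : ¬ Inward F e x) : FreeAt F e x := by
  have hee : ⟪e, e⟫ = 1 := by rw [real_inner_self_eq_norm_sq, he]; norm_num
  obtain ⟨g, hgd⟩ : ∃ g, g = gradient F x := ⟨_, rfl⟩
  have hg0 : g ≠ 0 := by rw [hgd]; exact hg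
  have hgn : 0 < ‖g‖ := norm_pos_iff.2 hg0
  have hgne : g ≠ -(‖g‖ • e) := by
    intro h
    apply hn
    refine ⟨hx, ‖g‖, hgn, ?_⟩
    rw [← hgd]
    exact h
  have hpos : 0 < ‖g‖ + ⟪g, e⟫ := by
    have h1 : 0 < ‖g + ‖g‖ • e‖ ^ 2 := by
      have : g + ‖g‖ • e ≠ 0 := fun h => hgne (eq_neg_of_add_eq_zero_left h)
      positivity
    have h2 : ‖g + ‖g‖ • e‖ ^ 2 = 2 * ‖g‖ * (‖g‖ + ⟪g, e⟫) := by
      rw [norm_add_sq_real, norm_smul, inner_smul_right, he]
      simp
      ring
    rw [h2] at h1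
    by_contra hle
    push Not at hle
    nlinarith
  refine ⟨-(‖g‖ • e + g), ?_, ?_⟩
  · apply desc1_smooth (hF.contDiffAt.of_le (by norm_cast))
    rw [T1_fd, ← hgd, inner_neg_right, inner_add_right, real_inner_smul_right,
      real_inner_self_eq_norm_sq]
    nlinarith
  · rw [inner_neg_right, inner_add_right, real_inner_smul_right, hee, real_inner_comm]
    linarith

/-- The hypersurface, homeomorphic to a sphere of dimension at least two, is connected and has the
lifting property.

PROOF.  `liftS_sphere` and `LiftS.homeo`; connectedness: image of the connected sphere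
(`isConnected_sphere`) under `fun y => (φ.symm y : V)`. -/
theorem level_top (hdim : 3 ≤ Module.finrank ℝ V) (F : V → ℝ)
    (hM : Nonempty ({x : V // F x = 0} ≃ₜ sphere (0 : V) 1)) :
    IsConnected {x | F x = 0} ∧ LiftS {x | F x = 0} := by
  obtain ⟨φ⟩ := hM
  have hrank : 1 < Module.rank ℝ V := by
    have h1 : (1 : ℕ) < Module.finrank ℝ V := by omega
    have h2 := (Module.lt_rank_of_lt_finrank h1)
    exact_mod_cast h2
  have hc : IsConnected (sphere (0 : V) 1) := isConnected_sphere hrank 0 zero_le_one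
  have hcs : ConnectedSpace (sphere (0 : V) 1) := isConnected_iff_connectedSpace.1 hc
  constructor
  · have h1 : {x | F x = 0} = range fun y : sphere (0 : V) 1 => (φ.symm y : V) := by
      ext x
      constructor
      · intro hx
        exact ⟨φ ⟨x, hx⟩, by simp⟩
      · rintro ⟨y, rfl⟩
        exact (φ.symm y).2
    rw [h1]
    exact isConnected_range (continuous_subtype_val.comp φ.symm.continuous)
  · have h1 : LiftS (sphere (0 : V) 1) := liftS_sphere hdim
    exact LiftS.homeo (A := sphere (0 : V) 1) (B := {x | F x = 0}) φ.symm h1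

/-- The domain is connected and has the lifting property.

PROOF.  Connected: `cg_conn_inner` and `level_top`.  Lifting: let `{F ≤ 0} ⊆ ball 0 R`, `R > 0`; apply
`LiftS.of_union` to `A = {F ≤ 0}`, `B = {0 ≤ F} ∩ closedBall 0 R`: `A ∪ B = closedBall 0 R`
(`liftS_convex`), `A ∩ B = {F = 0}` (`level_top`). -/
theorem domain_top (hdim : 3 ≤ Module.finrank ℝ V) (F : V → ℝ) (hF : Continuous F)
    (hb : Bornology.IsBounded {x | F x ≤ 0}) (hc : IsConnected {x | F x = 0})
    (hl : LiftS {x | F x = 0}) :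
    IsConnected {x | F x ≤ 0} ∧ LiftS {x | F x ≤ 0} := by
  have hnt : Nontrivial V := Module.nontrivial_of_finrank_pos (R := ℝ) (by omega)
  constructor
  · obtain ⟨z, hz⟩ := hc.nonempty
    have hz' : F z = 0 := hz
    exact ⟨⟨z, hz'.le⟩, cg_conn_inner F hF hb hc.isPreconnected⟩
  · obtain ⟨R, hR0, hR⟩ := hb.exists_pos_norm_lt
    have hR' : ∀ y, F y ≤ 0 → ‖y‖ < R := fun y hy => hR y hy
    have hU : {x | F x ≤ 0} ∪ ({x | 0 ≤ F x} ∩ closedBall (0 : V) R) = closedBall (0 : V) R := by
      ext x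
      constructor
      · rintro (h | h)
        · rw [mem_closedBall_zero_iff]
          exact (hR' x h).le
        · exact h.2
      · intro h
        rcases le_total (F x) 0 with h1 | h1
        · exact Or.inl h1
        · exact Or.inr ⟨h1, h⟩
    have hI : {x | F x ≤ 0} ∩ ({x | 0 ≤ F x} ∩ closedBall (0 : V) R) = {x | F x = 0} := by
      ext x
      constructor
      · rintro ⟨h1, h2, -⟩
        exact le_antisymm h1 h2
      · intro h
        have h' : F x = 0 := h
        refine ⟨h'.le, h'.ge, ?_⟩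
        rw [mem_closedBall_zero_iff]
        exact (hR' x h'.le).le
    refine LiftS.of_union (A := {x | F x ≤ 0}) (B := {x | 0 ≤ F x} ∩ closedBall (0 : V) R)
      (isClosed_le hF continuous_const)
      ((isClosed_le continuous_const hF).inter isClosed_closedBall) ?_ ?_
    · rw [hU]
      exact liftS_convex _ (convex_closedBall _ _) isClosed_closedBall
        ⟨0, ball_subset_interior_closedBall (mem_ball_self hR0)⟩
    · rw [hI]
      exact hl

end Pool.Schoen
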