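import Mathlib
import Pool.Agent.H.MP_6c077c_gt.IxB.Isol

/-! Index theorem: a connected ring below a point of index at least two. -/

set_option autoImplicit false

namespace Pool.Schoen

open scoped ContDiff RealInnerProductSpace
open Metric Set

variable {V : Type*} [NormedAddCommGroup V] [InnerProductSpace ℝ V] [FiniteDimensional ℝ V]

/-- A definite form stays definite near `p`. -/
theorem IxRing_sub (F : V → ℝ) (hF : ContDiff ℝ ∞ F) (p : V) (M : Submodule ℝ V) (s : ℝ)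
    (hd : ∀ w ∈ M, w ≠ 0 → 0 < s * fderiv ℝ (fderiv ℝ F) p w w) :
    ∀ᶠ x in nhds p, ∀ w ∈ M, w ≠ 0 → 0 < s * fderiv ℝ (fderiv ℝ F) x w w := by
  have h1 : ContDiff ℝ ∞ (fderiv ℝ F) := hF.fderiv_right (m := ∞) (by simp)
  have c2 : Continuous (fderiv ℝ (fderiv ℝ F)) := h1.continuous_fderiv (by simp)
  obtain ⟨K, hK⟩ : ∃ K : Set V, K = (M : Set V) ∩ sphere 0 1 := ⟨_, rfl⟩
  have hKc : IsCompact K := by
    rw [hK]
    exact (isCompact_sphere 0 1).inter_left (Submodule.closed_of_finiteDimensional M)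
  have U2 : ∀ᶠ x in nhds p, ∀ w ∈ K, 0 < s * fderiv ℝ (fderiv ℝ F) x w w := by
    apply hKc.eventually_forall_of_forall_eventually
    intro w hw
    rw [hK] at hw
    have h3 : Continuous fun z : V × V => s * fderiv ℝ (fderiv ℝ F) z.1 z.2 z.2 := by
      refine continuous_const.mul ?_
      exact ((c2.comp continuous_fst).clm_apply continuous_snd).clm_apply continuous_snd
    have h4 : w ≠ 0 := by
      intro h5
      have := hw.2
      rw [h5] at this
      simp at this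
    exact continuousAt_const.eventually_lt h3.continuousAt (hd w hw.1 h4)
  filter_upwards [U2] with x hx w hw hw0
  have hwn : 0 < ‖w‖ := norm_pos_iff.2 hw0
  have h5 : ‖w‖⁻¹ • w ∈ K := by
    rw [hK]
    refine ⟨M.smul_mem _ hw, ?_⟩
    rw [mem_sphere_zero_iff_norm, norm_smul, norm_inv, norm_norm, inv_mul_cancel₀ hwn.ne']
  have h6 := hx _ h5
  rw [map_smul, map_smul, smul_apply, smul_eq_mul, smul_eq_mul] at h6
  have h7 : s * (‖w‖⁻¹ * (‖w‖⁻¹ * fderiv ℝ (fderiv ℝ F) x w w))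
      = (‖w‖⁻¹ * ‖w‖⁻¹) * (s * fderiv ℝ (fderiv ℝ F) x w w) := by ring
  rw [h7] at h6
  exact (pos_iff_pos_of_mul_pos h6).1 (by positivity)

/-- The signs are uniform near `p`.

PROOF.  As `cg_uniform` in `CG/Local.lean`.  The unit spheres of `N` and `P` are compact, so there is
`c > 0` with `D²F(p) a a ≤ -c ‖a‖²` on `N` and `c ‖b‖² ≤ D²F(p) b b` on `P` (for the zero space
nothing to prove).  By continuity of `fderiv (fderiv F)` there is `ρ₁` with
`‖D²F(x) - D²F(p)‖ ≤ c / 2` for `x ∈ closedBall p ρ₁`, so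
`|D²F(x) a a - D²F(p) a a| ≤ (c / 2) ‖a‖²` (`ContinuousLinearMap.le_opNorm₂`).  The first claim by
continuity: `fderiv F p e = -l < 0`. -/
theorem ix_uniform (F : V → ℝ) (hF : ContDiff ℝ ∞ F) (e : V) (he : ‖e‖ = 1) (p : V)
    (hp : Inward F e p) (N P : Submodule ℝ V) (hS : Split F e p N P) :
    ∃ ρ₀ : ℝ, 0 < ρ₀ ∧ ∀ x ∈ closedBall p ρ₀, fderiv ℝ F x e < 0 ∧
      (∀ a ∈ N, a ≠ 0 → fderiv ℝ (fderiv ℝ F) x a a < 0) ∧
      ∀ b ∈ P, b ≠ 0 → 0 < fderiv ℝ (fderiv ℝ F) x b b := by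
  have h1 : ContDiff ℝ ∞ (fderiv ℝ F) := hF.fderiv_right (m := ∞) (by simp)
  have c1 : Continuous (fderiv ℝ F) := h1.continuous
  obtain ⟨hp0, l, hl, hg⟩ := hp
  have e1 : fderiv ℝ F p e = -l := by
    rw [cgLocal_grad hg, real_inner_self_eq_norm_sq, he]
    ring
  have U1 : ∀ᶠ x in nhds p, fderiv ℝ F x e < 0 := by
    have h2 : Continuous fun x => fderiv ℝ F x e := c1.clm_apply continuous_const
    exact h2.continuousAt.eventually_lt continuousAt_const (by rw [e1]; linarith)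
  have U2 := IxRing_sub F hF p N (-1) (fun w hw hw0 => by
    have := hS.neg w hw hw0
    linarith)
  have U3 := IxRing_sub F hF p P 1 (fun w hw hw0 => by
    have := hS.pos w hw hw0
    linarith)
  obtain ⟨ρ, hρ, h⟩ := (Metric.nhds_basis_closedBall.eventually_iff).1 (U1.and (U2.and U3))
  refine ⟨ρ, hρ, fun x hx => ⟨(h hx).1, fun a ha ha0 => ?_, fun b hb hb0 => ?_⟩⟩
  · have := (h hx).2.1 a ha ha0
    linarith
  · have := (h hx).2.2 b hb hb0
    linarith

/-- Coordinates of `p + (a + b) + t • e`. -/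
theorem IxRing_mk {F : V → ℝ} {e p : V} (he : ‖e‖ = 1) {N P : Submodule ℝ V}
    (hS : Split F e p N P) {a b : V} (ha : a ∈ N) (hb : b ∈ P) (t : ℝ) :
    Ring_t p e (p + (a + b) + t • e) = t ∧ Ring_w p e (p + (a + b) + t • e) = a + b ∧
      N.starProjection (Ring_w p e (p + (a + b) + t • e)) = a := by
  have h1 : ⟪a + b, e⟫ = 0 := by rw [inner_add_left, hS.hN a ha, hS.hP b hb, add_zero]
  have h2 := Ring_w_mk he p h1 t
  refine ⟨Ring_t_mk he p h1 t, h2, ?_⟩
  rw [h2]
  apply Submodule.eq_starProjection_of_mem_orthogonal ha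
  rw [add_sub_cancel_left, Submodule.mem_orthogonal]
  intro c hc
  exact hS.orth c hc b hb

/-- Near a point `p` with normal `-e` of index at least two the part of the domain below `p` is
separated from `p` by a connected set.

PROOF.  Adapt the proof of `cg_ring` (`CG/Ring.lean`; all coordinate lemmas `Ring_...` can be used).
Let `ρ₀` be from `ix_uniform`, `ρ₁` from `ix_isol`, and `ρ > 0` with `4 ρ ≤ ρ₀, ρ₁, ε`.  Coordinates
of a point `x`: `t = Ring_t p e x`, `a = N.starProjection (Ring_w p e x)`, `b = Ring_w p e x - a`;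
`a ∈ N`, `b ∈ P` (`Split.proj`), `x = p + (a + b) + t • e`, all continuous in `x`; conversely for
`a ∈ N`, `b ∈ P` the point `p + (a + b) + t • e` has the coordinates `a, b, t`.  If
`‖a‖, ‖b‖, |t| ≤ ρ` then `x ∈ closedBall p (3 ρ)`.
(1) `F (p + (a+b) + t'•e) < F (p + (a+b) + t•e)` for `-ρ ≤ t < t' ≤ ρ`, `‖a‖, ‖b‖ ≤ ρ`
(`cg_vertical`).
(2) `0 < F (p + b)` for `b ∈ P`, `0 < ‖b‖ ≤ ρ`, and `F (p + a) < 0` for `a ∈ N`, `0 < ‖a‖ ≤ ρ`
(`cg_segment` with `s = 1`, `s = -1`; `fderiv F p` vanishes on vectors `⊥ e` by `Ring_fd`).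
(3) `K = {p + b + t•e | b ∈ P, ‖b‖ ≤ ρ, -ρ ≤ t ≤ 0, ‖b‖ = ρ ∨ t = -ρ}` is compact and `F > 0` on
it: if `‖b‖ = ρ`, `F ≥ F (p + b) > 0` by (1), (2); if `t = -ρ`, `F > F (p + b) ≥ 0` (as
`F (p + 0) = 0`).  By compactness there is `r₁ > 0` with `F (y + a) > 0` for all `y ∈ K`,
`‖a‖ ≤ r₁` (e.g. `IsCompact.exists_cthickening_subset_open`, or the minimum of `F` on `K` and uniform
continuity of `F` on a compact ball).  Let `r = min ρ r₁ / 2`.
(4) `U = {x | ‖a‖ < r ∧ ‖b‖ < ρ ∧ |t| < ρ}` is open, contains `p`, `U ⊆ ball p ε`;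
`A = {x | ‖a‖ = r ∧ ‖b‖ ≤ ρ ∧ -ρ ≤ t ∧ t ≤ 0 ∧ F x ≤ 0}` is closed and bounded, hence compact.
(5) Frontier: `x ∈ frontier U` has `‖a‖ ≤ r`, `‖b‖ ≤ ρ`, `|t| ≤ ρ` and is not in `U`; if `F x ≤ 0`
and `t ≤ 0`, then `‖b‖ = ρ` and `t = -ρ` are excluded by (3), so `‖a‖ = r` and `x ∈ A`.
(6) `A` is preconnected: from `x = p + (a + b) + t•e ∈ A` move up vertically to `p + (a + b)` (`F`
decreases, (1)), then along `p + (a + s • b)`, `s` from `1` to `0`: the function
`s ↦ F (p + (a + s•b))` is convex on `[0,1]` (second derivative `D²F b b ≥ 0`; or use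
`cg_segment`-type arguments: if it were positive somewhere there would be an interior maximum with
zero derivative, contradicting `cg_segment`), is `≤ 0` at `s = 1` and `< 0` at `s = 0`, so it is
`≤ 0`.  This ends in the sphere `{p + a | a ∈ N, ‖a‖ = r} ⊆ A`, the image of a sphere of the space
`N` of dimension `≥ 2`, which is preconnected (`isPreconnected_sphere`).  Combine as in `cg_ring`.
(7) A point of `A` is not `Inward` and an `Inward` point of `U` equals `p`: `ix_isol` (`A` does not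
contain `p` since `‖a‖ = r > 0`). -/
theorem ix_ring (F : V → ℝ) (hF : ContDiff ℝ ∞ F) (e : V) (he : ‖e‖ = 1) (p : V)
    (hp : Inward F e p) (k : ℕ) (hk : 2 ≤ k) (hd : Idx F e p k) (ε : ℝ) (hε : 0 < ε) :
    ∃ U A : Set V, IsOpen U ∧ p ∈ U ∧ U ⊆ ball p ε ∧ IsCompact A ∧ IsPreconnected A ∧
      (∀ x ∈ A, F x ≤ 0 ∧ ⟪x, e⟫ ≤ ⟪p, e⟫ ∧ dist x p < ε ∧ ¬ Inward F e x) ∧
      (∀ x ∈ frontier U, F x ≤ 0 → ⟪x, e⟫ ≤ ⟪p, e⟫ → x ∈ A) ∧
      (∀ x ∈ U, Inward F e x → ⟪x, e⟫ ≤ ⟪p, e⟫ → x = p) := by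
  obtain ⟨N, P, hS, hfin⟩ := hd
  obtain ⟨ρ₀, hρ₀, hρ⟩ := ix_uniform F hF e he p hp N P hS
  obtain ⟨ρ₁, hρ₁, hiso⟩ := ix_isol F hF e he p hp k ⟨N, P, hS, hfin⟩
  obtain ⟨ρ, hρ0, hρ1, hρ2, hρ3⟩ : ∃ ρ : ℝ, 0 < ρ ∧ 4 * ρ ≤ ρ₀ ∧ 4 * ρ ≤ ρ₁ ∧ 4 * ρ ≤ ε :=
    ⟨min ρ₀ (min ρ₁ ε) / 4, by positivity, by linarith [min_le_left ρ₀ (min ρ₁ ε)], by
      linarith [min_le_right ρ₀ (min ρ₁ ε), min_le_left ρ₁ ε], by
      linarith [min_le_right ρ₀ (min ρ₁ ε), min_le_right ρ₁ ε]⟩
  -- coordinates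
  obtain ⟨ca, hca⟩ : ∃ ca : V → V, ca = fun x => N.starProjection (Ring_w p e x) := ⟨_, rfl⟩
  obtain ⟨cb, hcb⟩ : ∃ cb : V → V, cb = fun x => Ring_w p e x - N.starProjection (Ring_w p e x) :=
    ⟨_, rfl⟩
  have hmem : ∀ x, ca x ∈ N ∧ cb x ∈ P := by
    intro x
    rw [hca, hcb]
    exact hS.proj _ (Ring_orth he p x)
  have hxe : ∀ x, p + (ca x + cb x) + Ring_t p e x • e = x := by
    intro x
    rw [hca, hcb]
    show p + (N.starProjection (Ring_w p e x) +
      (Ring_w p e x - N.starProjection (Ring_w p e x))) + Ring_t p e x • e = x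
    rw [add_sub_cancel]
    exact Ring_eq p e x
  have hmk : ∀ a ∈ N, ∀ b ∈ P, ∀ t : ℝ, Ring_t p e (p + (a + b) + t • e) = t ∧
      ca (p + (a + b) + t • e) = a ∧ cb (p + (a + b) + t • e) = b := by
    intro a ha b hb t
    obtain ⟨h1, h2, h3⟩ := IxRing_mk he hS ha hb t
    refine ⟨h1, by rw [hca]; exact h3, ?_⟩
    rw [hcb]
    show Ring_w p e (p + (a + b) + t • e) - N.starProjection (Ring_w p e (p + (a + b) + t • e)) = b
    rw [h3, h2, add_sub_cancel_left]
  have hct := Ring_cont_t p e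
  have hcac : Continuous ca := by
    rw [hca]
    exact N.starProjection.continuous.comp (Ring_cont_w p e)
  have hcbc : Continuous cb := by
    rw [hcb]
    exact (Ring_cont_w p e).sub (N.starProjection.continuous.comp (Ring_cont_w p e))
  have hdist : ∀ x, dist x p ≤ ‖ca x‖ + ‖cb x‖ + |Ring_t p e x| := by
    intro x
    have h1 := Ring_dist he p x
    have h2 : Ring_w p e x = ca x + cb x := by
      rw [hca, hcb]
      exact (add_sub_cancel _ _).symm
    have h3 := norm_add_le (ca x) (cb x)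
    rw [← h2] at h3
    linarith
  have hball : ∀ (a b : V) (t : ℝ), ‖a‖ ≤ ρ → ‖b‖ ≤ ρ → |t| ≤ ρ →
      p + (a + b) + t • e ∈ closedBall p ρ₀ := by
    intro a b t ha hb ht
    rw [mem_closedBall, dist_eq_norm]
    have e1 : p + (a + b) + t • e - p = a + b + t • e := by abel
    rw [e1]
    refine (norm_add₃_le).trans ?_
    rw [norm_smul, he, mul_one, Real.norm_eq_abs]
    linarith
  have hvert : ∀ (a b : V) (t t' : ℝ), ‖a‖ ≤ ρ → ‖b‖ ≤ ρ → -ρ ≤ t → t < t' → t' ≤ ρ →
      F (p + (a + b) + t' • e) < F (p + (a + b) + t • e) := by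
    intro a b t t' ha hb h1 h2 h3
    have h4 := cg_vertical F hF (p + (a + b) + t' • e) e (t - t') (by linarith) (fun r hr => by
      have e1 : p + (a + b) + t' • e + r • e = p + (a + b) + (t' + r) • e := by
        rw [add_smul]; abel
      rw [e1]
      exact (hρ _ (hball a b _ ha hb (abs_le.2 ⟨by linarith [hr.1], by linarith [hr.2]⟩))).1)
    have e1 : p + (a + b) + t' • e + (t - t') • e = p + (a + b) + t • e := by
      rw [sub_smul]; abel
    rwa [e1] at h4
  have hF0 : F (p + (0 + 0) + (0 : ℝ) • e) = 0 := by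
    rw [zero_smul, add_zero, add_zero, add_zero]; exact hp.1
  have hcont : Continuous F := hF.continuous
  have hN0 : (0 : V) ∈ N := N.zero_mem
  have hP0 : (0 : V) ∈ P := P.zero_mem
  have hnorm0 : ‖(0 : V)‖ ≤ ρ := by rw [norm_zero]; exact hρ0.le
  have habs0 : |(0 : ℝ)| ≤ ρ := by rw [abs_zero]; exact hρ0.le
  -- positive on `P`
  have hPb : ∀ b ∈ P, b ≠ 0 → ‖b‖ ≤ ρ → 0 < F (p + (0 + b) + (0 : ℝ) • e) := by
    intro b hb hb0 hbρ
    have h1 := cg_segment F hF p b 1 (Ring_fd hp (hS.hP b hb)) (fun t ht => by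
      have hm := hball 0 (t • b) 0 hnorm0 (by
        rw [norm_smul, Real.norm_eq_abs, abs_of_nonneg ht.1]
        nlinarith [norm_nonneg b, ht.2]) habs0
      rw [zero_smul, add_zero, zero_add] at hm
      rw [one_mul]
      exact (hρ _ hm).2.2 b hb hb0)
    rw [hp.1, one_mul, one_mul] at h1
    rw [zero_smul, add_zero, zero_add]
    exact h1
  have hPb' : ∀ b ∈ P, ‖b‖ ≤ ρ → 0 ≤ F (p + (0 + b) + (0 : ℝ) • e) := by
    intro b hb hbρ
    by_cases hb0 : b = 0
    · rw [hb0, hF0]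
    · exact (hPb b hb hb0 hbρ).le
  -- negative on `N`
  have hNa : ∀ a ∈ N, a ≠ 0 → ‖a‖ ≤ ρ → F (p + a) < 0 := by
    intro a ha ha0 haρ
    have h1 := cg_segment F hF p a (-1) (Ring_fd hp (hS.hN a ha)) (fun t ht => by
      have hm := hball (t • a) 0 0 (by
        rw [norm_smul, Real.norm_eq_abs, abs_of_nonneg ht.1]
        nlinarith [norm_nonneg a, ht.2]) hnorm0 habs0
      rw [zero_smul, add_zero, add_zero] at hm
      have := (hρ _ hm).2.1 a ha ha0
      linarith)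
    rw [hp.1] at h1
    linarith
  have habs : ∀ x : V, -ρ ≤ Ring_t p e x → Ring_t p e x ≤ 0 → |Ring_t p e x| ≤ ρ := fun x h1 h2 =>
    abs_le.2 ⟨h1, by linarith⟩
  -- the compact set on which `F` is positive
  obtain ⟨r₁, hr₁, hr₁'⟩ : ∃ r₁ > 0, ∀ a ∈ N, ∀ b ∈ P, ∀ t : ℝ, ‖a‖ < r₁ → ‖b‖ ≤ ρ → -ρ ≤ t →
      t ≤ 0 → (‖b‖ = ρ ∨ t = -ρ) → 0 < F (p + (a + b) + t • e) := by
    obtain ⟨K, hK⟩ : ∃ K : Set V, K = {x | ca x = 0 ∧ ‖cb x‖ ≤ ρ ∧ -ρ ≤ Ring_t p e x ∧
        Ring_t p e x ≤ 0 ∧ (‖cb x‖ = ρ ∨ Ring_t p e x = -ρ)} := ⟨_, rfl⟩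
    have hKc : IsCompact K := by
      refine Metric.isCompact_of_isClosed_isBounded ?_ ?_
      · rw [hK]
        exact (isClosed_eq hcac continuous_const).inter
          ((isClosed_le hcbc.norm continuous_const).inter
          ((isClosed_le continuous_const hct).inter ((isClosed_le hct continuous_const).inter
          ((isClosed_eq hcbc.norm continuous_const).union (isClosed_eq hct continuous_const)))))
      · refine (Metric.isBounded_closedBall (x := p) (r := ρ₀)).subset ?_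
        intro x hx
        rw [hK] at hx
        obtain ⟨h1, h2, h3, h4, _⟩ := hx
        rw [mem_closedBall]
        have h5 := hdist x
        have h6 := habs x h3 h4
        rw [h1, norm_zero] at h5
        linarith
    have hKpos : K ⊆ {x | 0 < F x} := by
      intro x hx
      rw [hK] at hx
      obtain ⟨h1, h2, h3, h4, h5⟩ := hx
      show 0 < F x
      rw [← hxe x, h1]
      have h6 := hPb' (cb x) (hmem x).2 h2
      rcases h5 with h5 | h5
      · have hb0 : cb x ≠ 0 := by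
          intro h7
          rw [h7, norm_zero] at h5
          exact hρ0.ne h5
        have h7 := hPb (cb x) (hmem x).2 hb0 h2
        rcases h4.lt_or_eq with h8 | h8
        · exact h7.trans (hvert 0 (cb x) _ 0 hnorm0 h2 h3 h8 hρ0.le)
        · rw [h8]
          exact h7
      · have h8 : Ring_t p e x < 0 := by rw [h5]; linarith
        exact h6.trans_lt (hvert 0 (cb x) _ 0 hnorm0 h2 h3 h8 hρ0.le)
    obtain ⟨δ, hδ, hth⟩ := hKc.exists_thickening_subset_open (isOpen_lt continuous_const hcont)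
      hKpos
    refine ⟨δ, hδ, fun a ha b hb t h1 h2 h3 h4 h5 => ?_⟩
    apply hth
    rw [Metric.mem_thickening_iff]
    refine ⟨p + (0 + b) + t • e, ?_, ?_⟩
    · rw [hK]
      obtain ⟨h6, h7, h8⟩ := hmk 0 hN0 b hb t
      refine ⟨h7, ?_, ?_, ?_, ?_⟩
      · rw [h8]; exact h2
      · rw [h6]; exact h3
      · rw [h6]; exact h4
      · rw [h6, h8]; exact h5
    · rw [dist_eq_norm]
      have e1 : p + (a + b) + t • e - (p + (0 + b) + t • e) = a := by abel
      rw [e1]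
      exact h1
  obtain ⟨r, hr0, hrρ, hr1⟩ : ∃ r : ℝ, 0 < r ∧ r < ρ ∧ r < r₁ := by
    refine ⟨min ρ r₁ / 2, by positivity, ?_, ?_⟩
    · linarith [min_le_left ρ r₁]
    · linarith [min_le_right ρ r₁]
  have hpp : Ring_t p e p = 0 ∧ ca p = 0 ∧ cb p = 0 := by
    have h1 := hmk 0 hN0 0 hP0 0
    rw [zero_smul, add_zero, add_zero, add_zero] at h1
    exact h1
  refine ⟨{x | ‖ca x‖ < r ∧ ‖cb x‖ < ρ ∧ |Ring_t p e x| < ρ},
    {x | ‖ca x‖ = r ∧ ‖cb x‖ ≤ ρ ∧ -ρ ≤ Ring_t p e x ∧ Ring_t p e x ≤ 0 ∧ F x ≤ 0},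
    ?_, ?_, ?_, ?_, ?_, ?_, ?_, ?_⟩
  · exact (isOpen_lt hcac.norm continuous_const).inter
      ((isOpen_lt hcbc.norm continuous_const).inter (isOpen_lt hct.abs continuous_const))
  · obtain ⟨h1, h2, h3⟩ := hpp
    exact ⟨by rw [h2, norm_zero]; exact hr0, by rw [h3, norm_zero]; exact hρ0,
      by rw [h1, abs_zero]; exact hρ0⟩
  · rintro x ⟨h1, h2, h3⟩
    rw [mem_ball]
    have h4 := hdist x
    linarith
  · refine Metric.isCompact_of_isClosed_isBounded ?_ ?_
    · exact (isClosed_eq hcac.norm continuous_const).inter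
        ((isClosed_le hcbc.norm continuous_const).inter ((isClosed_le continuous_const hct).inter
        ((isClosed_le hct continuous_const).inter (isClosed_le hcont continuous_const))))
    · refine (Metric.isBounded_closedBall (x := p) (r := ρ₀)).subset ?_
      rintro x ⟨h1, h2, h3, h4, _⟩
      rw [mem_closedBall]
      have h5 := hdist x
      have h6 := habs x h3 h4
      linarith
  · -- connectedness
    obtain ⟨A, hA⟩ : ∃ A : Set V, A = {x | ‖ca x‖ = r ∧ ‖cb x‖ ≤ ρ ∧ -ρ ≤ Ring_t p e x ∧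
      Ring_t p e x ≤ 0 ∧ F x ≤ 0} := ⟨_, rfl⟩
    rw [← hA]
    obtain ⟨Q, hQ⟩ : ∃ Q : Set V, Q = (fun w : N => p + (w : V)) '' sphere (0 : N) r := ⟨_, rfl⟩
    have hQc : IsPreconnected Q := by
      rw [hQ]
      have hrank : 1 < Module.rank ℝ N := by
        rw [← Module.finrank_eq_rank]
        have : 2 ≤ Module.finrank ℝ N := by omega
        exact_mod_cast this
      exact (isPreconnected_sphere hrank (0 : N) r).image _ (by fun_prop)
    have hQA : Q ⊆ A := by
      rw [hQ, hA]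
      rintro _ ⟨w, hw, rfl⟩
      rw [mem_sphere, dist_zero_right] at hw
      have hw' : ‖(w : V)‖ = r := hw
      obtain ⟨h1, h2, h3⟩ := hmk (w : V) w.2 0 hP0 0
      rw [zero_smul, add_zero, add_zero] at h1 h2 h3
      show ‖ca (p + (w : V))‖ = r ∧ ‖cb (p + (w : V))‖ ≤ ρ ∧ -ρ ≤ Ring_t p e (p + (w : V)) ∧
        Ring_t p e (p + (w : V)) ≤ 0 ∧ F (p + (w : V)) ≤ 0
      rw [h1, h2, h3]
      refine ⟨hw', hnorm0, by linarith, le_rfl, ?_⟩
      refine (hNa _ w.2 ?_ (by rw [hw']; exact hrρ.le)).le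
      intro h4
      rw [h4, norm_zero] at hw'
      exact hr0.ne hw'
    have hbase : ∀ x ∈ A, p + ca x ∈ Q := by
      intro x hx
      rw [hA] at hx
      rw [hQ]
      refine ⟨⟨ca x, (hmem x).1⟩, ?_, rfl⟩
      rw [mem_sphere, dist_zero_right]
      exact hx.1
    have hseg : ∀ x ∈ A, ∃ S : Set V, S ⊆ A ∧ x ∈ S ∧ p + ca x ∈ S ∧ IsPreconnected S := by
      intro x hx
      have hxA := hx
      rw [hA] at hx
      obtain ⟨h1, h2, h3, h4, h5⟩ := hx
      have h1' : ‖ca x‖ ≤ ρ := by rw [h1]; exact hrρ.le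
      have haN := (hmem x).1
      have hbP := (hmem x).2
      -- the vertical segment
      have hS1 : (fun t : ℝ => p + (ca x + cb x) + t • e) '' Icc (Ring_t p e x) 0 ⊆ A := by
        rintro _ ⟨t, ht, rfl⟩
        obtain ⟨g1, g2, g3⟩ := hmk (ca x) haN (cb x) hbP t
        rw [hA]
        show ‖ca (p + (ca x + cb x) + t • e)‖ = r ∧ ‖cb (p + (ca x + cb x) + t • e)‖ ≤ ρ ∧
          -ρ ≤ Ring_t p e (p + (ca x + cb x) + t • e) ∧
          Ring_t p e (p + (ca x + cb x) + t • e) ≤ 0 ∧ F (p + (ca x + cb x) + t • e) ≤ 0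
        rw [g1, g2, g3]
        refine ⟨h1, h2, h3.trans ht.1, ht.2, ?_⟩
        rcases ht.1.lt_or_eq with h6 | h6
        · have h7 := hvert (ca x) (cb x) (Ring_t p e x) t h1' h2 h3 h6 (by linarith [ht.2])
          rw [hxe x] at h7
          exact h7.le.trans h5
        · rw [← h6, hxe x]
          exact h5
      have hc1 : IsPreconnected
          ((fun t : ℝ => p + (ca x + cb x) + t • e) '' Icc (Ring_t p e x) 0) :=
        isPreconnected_Icc.image _ (by fun_prop)
      have hm1 : x ∈ (fun t : ℝ => p + (ca x + cb x) + t • e) '' Icc (Ring_t p e x) 0 :=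
        ⟨Ring_t p e x, ⟨le_rfl, h4⟩, hxe x⟩
      have hm2 : p + (ca x + cb x) ∈
          (fun t : ℝ => p + (ca x + cb x) + t • e) '' Icc (Ring_t p e x) 0 := by
        refine ⟨0, ⟨h4, le_rfl⟩, ?_⟩
        show p + (ca x + cb x) + (0 : ℝ) • e = p + (ca x + cb x)
        rw [zero_smul, add_zero]
      -- the horizontal segment
      have hg1 : F (p + ca x + (1 : ℝ) • cb x) ≤ 0 := by
        have h6 := hS1 hm2
        rw [hA] at h6
        have h7 := h6.2.2.2.2
        rw [one_smul, add_assoc]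
        exact h7
      have hg0 : F (p + ca x + (0 : ℝ) • cb x) ≤ 0 := by
        rw [zero_smul, add_zero]
        refine (hNa _ haN ?_ h1').le
        intro h6
        rw [h6, norm_zero] at h1
        exact hr0.ne h1
      have hconv : ConvexOn ℝ (Icc (0 : ℝ) 1) fun s => F (p + ca x + s • cb x) := by
        refine convexOn_of_hasDerivWithinAt2_nonneg (convex_Icc 0 1)
          (f' := fun s => fderiv ℝ F (p + ca x + s • cb x) (cb x))
          (f'' := fun s => fderiv ℝ (fderiv ℝ F) (p + ca x + s • cb x) (cb x) (cb x)) ?_ ?_ ?_ ?_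
        · exact (hcont.comp (by fun_prop)).continuousOn
        · intro s _
          exact (cgLocal_deriv hF (p + ca x) (cb x) s).hasDerivWithinAt
        · intro s _
          exact (cgLocal_deriv2 hF (p + ca x) (cb x) s).hasDerivWithinAt
        · intro s hs
          rw [interior_Icc] at hs
          by_cases hb0 : cb x = 0
          · rw [hb0, map_zero]
          · have hm := hball (ca x) (s • cb x) 0 h1' (by
              rw [norm_smul, Real.norm_eq_abs, abs_of_nonneg hs.1.le]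
              nlinarith [norm_nonneg (cb x), hs.2]) habs0
            rw [zero_smul, add_zero, ← add_assoc] at hm
            exact ((hρ _ hm).2.2 (cb x) hbP hb0).le
      have hS2 : (fun s : ℝ => p + ca x + s • cb x) '' Icc 0 1 ⊆ A := by
        rintro _ ⟨s, hs, rfl⟩
        have h6 := hconv.le_max_of_mem_Icc (left_mem_Icc.2 zero_le_one)
          (right_mem_Icc.2 zero_le_one) hs
        have h7 : F (p + ca x + s • cb x) ≤ 0 := h6.trans (max_le hg0 hg1)
        obtain ⟨g1, g2, g3⟩ := hmk (ca x) haN (s • cb x) (P.smul_mem _ hbP) 0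
        rw [zero_smul, add_zero, ← add_assoc] at g1 g2 g3
        rw [hA]
        show ‖ca (p + ca x + s • cb x)‖ = r ∧ ‖cb (p + ca x + s • cb x)‖ ≤ ρ ∧
          -ρ ≤ Ring_t p e (p + ca x + s • cb x) ∧ Ring_t p e (p + ca x + s • cb x) ≤ 0 ∧
          F (p + ca x + s • cb x) ≤ 0
        rw [g1, g2, g3]
        refine ⟨h1, ?_, by linarith, le_rfl, h7⟩
        rw [norm_smul, Real.norm_eq_abs, abs_of_nonneg hs.1]
        nlinarith [norm_nonneg (cb x), hs.2]
      have hc2 : IsPreconnected ((fun s : ℝ => p + ca x + s • cb x) '' Icc 0 1) :=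
        isPreconnected_Icc.image _ (by fun_prop)
      have hm3 : p + (ca x + cb x) ∈ (fun s : ℝ => p + ca x + s • cb x) '' Icc 0 1 := by
        refine ⟨1, right_mem_Icc.2 zero_le_one, ?_⟩
        show p + ca x + (1 : ℝ) • cb x = p + (ca x + cb x)
        rw [one_smul, add_assoc]
      have hm4 : p + ca x ∈ (fun s : ℝ => p + ca x + s • cb x) '' Icc 0 1 := by
        refine ⟨0, left_mem_Icc.2 zero_le_one, ?_⟩
        show p + ca x + (0 : ℝ) • cb x = p + ca x
        rw [zero_smul, add_zero]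
      exact ⟨_, union_subset hS1 hS2, Or.inl hm1, Or.inr hm4,
        IsPreconnected.union _ hm2 hm3 hc1 hc2⟩
    refine isPreconnected_of_forall_pair ?_
    intro x hx y hy
    obtain ⟨S, hS1, hS2, hS3, hS4⟩ := hseg x hx
    obtain ⟨S', hS1', hS2', hS3', hS4'⟩ := hseg y hy
    refine ⟨(S ∪ Q) ∪ S', ?_, Or.inl (Or.inl hS2), Or.inr hS2', ?_⟩
    · exact union_subset (union_subset hS1 hQA) hS1'
    · refine IsPreconnected.union (p + ca y) (Or.inr (hbase y hy)) hS3' ?_ hS4'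
      exact IsPreconnected.union (p + ca x) hS3 (hbase x hx) hS4 hQc
  · rintro x ⟨h1, h2, h3, h4, h5⟩
    have h6 := hdist x
    have h7 := habs x h3 h4
    refine ⟨h5, (Ring_le p e x).2 h4, by linarith, ?_⟩
    intro hin
    have h8 := hiso x (by linarith) hin
    rw [h8, hpp.2.1, norm_zero] at h1
    exact hr0.ne h1
  · intro x hx hFx hxe'
    have ht := (Ring_le p e x).1 hxe'
    have hU : IsOpen {x : V | ‖ca x‖ < r ∧ ‖cb x‖ < ρ ∧ |Ring_t p e x| < ρ} :=
      (isOpen_lt hcac.norm continuous_const).inter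
        ((isOpen_lt hcbc.norm continuous_const).inter (isOpen_lt hct.abs continuous_const))
    rw [hU.frontier_eq] at hx
    have hcl : closure {x : V | ‖ca x‖ < r ∧ ‖cb x‖ < ρ ∧ |Ring_t p e x| < ρ} ⊆
        {x : V | ‖ca x‖ ≤ r ∧ ‖cb x‖ ≤ ρ ∧ |Ring_t p e x| ≤ ρ} := by
      refine closure_minimal (fun y hy => ⟨hy.1.le, hy.2.1.le, hy.2.2.le⟩) ?_
      exact (isClosed_le hcac.norm continuous_const).inter
        ((isClosed_le hcbc.norm continuous_const).inter (isClosed_le hct.abs continuous_const))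
    obtain ⟨h1, h2, h3⟩ := hcl hx.1
    have h4 := (abs_le.1 h3).1
    refine ⟨?_, h2, h4, ht, hFx⟩
    by_contra hne
    have hlt : ‖ca x‖ < r := lt_of_le_of_ne h1 hne
    have h5 : ‖cb x‖ = ρ ∨ Ring_t p e x = -ρ := by
      by_contra hcon
      push Not at hcon
      apply hx.2
      refine ⟨hlt, lt_of_le_of_ne h2 hcon.1, ?_⟩
      rw [abs_of_nonpos ht]
      have h6 : -ρ < Ring_t p e x := lt_of_le_of_ne h4 (Ne.symm hcon.2)
      linarith
    have h6 := hr₁' (ca x) (hmem x).1 (cb x) (hmem x).2 (Ring_t p e x) (hlt.trans hr1) h2 h4 ht h5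
    rw [hxe x] at h6
    linarith
  · rintro x ⟨h1, h2, h3⟩ hin _
    have h4 := hdist x
    exact hiso x (by linarith) hin

end Pool.Schoen
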