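import Mathlib
import Pool.Agent.H.MP_6c077c_gt.IxB.Ring
import Pool.Agent.H.MP_6c077c_gt.CG.Unique

/-! Index theorem: at most one point of index zero if there is no point of index one. -/

set_option autoImplicit false

namespace Pool.Schoen

open scoped ContDiff RealInnerProductSpace
open Metric Set

variable {V : Type*} [NormedAddCommGroup V] [InnerProductSpace ℝ V] [FiniteDimensional ℝ V]

/-- Getting rid of the points with normal `-e` at the top level of a continuum.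

PROOF.  Literally the proof of `cg_clean` (`CG/Clean.lean`) with `cg_ring` replaced by `ix_ring`
(no assumption on the dimension is needed). -/
theorem ix_clean (F : V → ℝ) (hF : ContDiff ℝ ∞ F) (e : V)
    (he : ‖e‖ = 1) (q₁ q₂ : V) (s : ℝ) (S : Finset V) :
    ∀ C : Set V, IsCompact C → IsPreconnected C → q₁ ∈ C → q₂ ∈ C → q₁ ∉ S → q₂ ∉ S →
      (∀ x ∈ C, F x ≤ 0 ∧ ⟪x, e⟫ ≤ s) →
      (∀ x, x ∈ S ↔ x ∈ C ∧ Inward F e x ∧ ⟪x, e⟫ = s) →
      (∀ x ∈ S, ∃ k, 2 ≤ k ∧ Idx F e x k) →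
      ∃ C' : Set V, IsCompact C' ∧ IsPreconnected C' ∧ q₁ ∈ C' ∧ q₂ ∈ C' ∧
        (∀ x ∈ C', F x ≤ 0 ∧ ⟪x, e⟫ ≤ s) ∧ (∀ x ∈ C', Inward F e x → ⟪x, e⟫ ≠ s) := by
  classical
  induction S using Finset.induction_on with
  | empty =>
    intro C hC hCp h1 h2 _ _ hle hS _
    refine ⟨C, hC, hCp, h1, h2, hle, fun x hx hi hs => ?_⟩
    exact absurd ((hS x).mpr ⟨hx, hi, hs⟩) (Finset.notMem_empty x)
  | insert p S hpS ih =>
    intro C hC hCp h1 h2 h3 h4 hle hS hneg
    have hpm : p ∈ insert p S := Finset.mem_insert_self p S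
    have hp := (hS p).mp hpm
    have hq1 : q₁ ≠ p := fun h => h3 (by rw [h]; exact hpm)
    have hq2 : q₂ ≠ p := fun h => h4 (by rw [h]; exact hpm)
    have hfin : ((S : Set V) ∪ {q₁, q₂}).Finite :=
      (Finset.finite_toSet S).union ((Set.finite_singleton q₂).insert q₁)
    have hpn : p ∈ ((S : Set V) ∪ {q₁, q₂})ᶜ := by
      rintro (h | h | h)
      · exact hpS h
      · exact hq1 h.symm
      · exact hq2 h.symm
    obtain ⟨ε, hε, hball⟩ := Metric.isOpen_iff.mp hfin.isClosed.isOpen_compl p hpn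
    obtain ⟨k, hk, hidx⟩ := hneg p hpm
    obtain ⟨U, A, hU, hpU, hUb, hA, hAp, hA1, hA2, hA3⟩ :=
      ix_ring F hF e he p hp.2.1 k hk hidx ε hε
    have hout : ∀ x ∈ ((S : Set V) ∪ {q₁, q₂}), x ∉ U := fun x hx hxU => hball (hUb hxU) hx
    refine ih ((C \ U) ∪ A) ((hC.diff hU).union hA) ?_ ?_ ?_ ?_ ?_ ?_ ?_ ?_
    · refine cg_surgery C U A hC.isClosed hCp hU hA.isClosed hAp ?_ ⟨p, hp.1, hpU⟩
      intro x hx
      exact hA2 x hx.2 (hle x hx.1).1 (by rw [hp.2.2]; exact (hle x hx.1).2)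
    · exact Or.inl ⟨h1, hout q₁ (Or.inr (Or.inl rfl))⟩
    · exact Or.inl ⟨h2, hout q₂ (Or.inr (Or.inr rfl))⟩
    · exact fun h => h3 (Finset.mem_insert_of_mem h)
    · exact fun h => h4 (Finset.mem_insert_of_mem h)
    · rintro x (hx | hx)
      · exact hle x hx.1
      · obtain ⟨a1, a2, _, _⟩ := hA1 x hx
        exact ⟨a1, by rw [← hp.2.2]; exact a2⟩
    · intro x
      constructor
      · intro hx
        obtain ⟨b1, b2, b3⟩ := (hS x).mp (Finset.mem_insert_of_mem hx)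
        exact ⟨Or.inl ⟨b1, hout x (Or.inl hx)⟩, b2, b3⟩
      · rintro ⟨hx | hx, b2, b3⟩
        · have h5 := (hS x).mpr ⟨hx.1, b2, b3⟩
          rcases Finset.mem_insert.mp h5 with h6 | h6
          · exact absurd (by rw [h6]; exact hpU) hx.2
          · exact h6
        · exact absurd b2 (hA1 x hx).2.2.2
    · exact fun x hx => hneg x (Finset.mem_insert_of_mem hx)

/-- Uniqueness of the point of index zero.

PROOF.  Literally the proof of `cg_unique` (`CG/Unique.lean`), with `cg_clean` replaced by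
`ix_clean`, `cg_ring` (used there for the isolation of the points) replaced by `ix_isol`, and
`NegAt` by `∃ k, 2 ≤ k ∧ Idx F e x k`. -/
theorem ix_unique (F : V → ℝ) (hF : ContDiff ℝ ∞ F)
    (hb : Bornology.IsBounded {x | F x ≤ 0}) (hreg : ∀ x, F x = 0 → gradient F x ≠ 0)
    (hW : IsPreconnected {x | F x ≤ 0}) (e : V) (he : ‖e‖ = 1)
    (hdef : ∀ x, Inward F e x → PosAt F e x ∨ ∃ k, 2 ≤ k ∧ Idx F e x k) (p q : V)
    (hp : Inward F e p) (hq : Inward F e q) (hpd : PosAt F e p) (hqd : PosAt F e q) : p = q := by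
  classical
  by_contra hpq
  have hFc : Continuous F := hF.continuous
  have hgc : Continuous (gradient F) := by
    have h1 : Continuous (fderiv ℝ F) := hF.continuous_fderiv (by simp)
    exact (InnerProductSpace.toDual ℝ V).symm.continuous.comp h1
  have hhc : Continuous fun x : V => (⟪x, e⟫ : ℝ) := continuous_id.inner continuous_const
  obtain ⟨s, C, hCc, hCp, hpC, hqC, hCs, hmin⟩ :=
    cg_minimal F hF hb hW e p q (le_of_eq hp.1) (le_of_eq hq.1)
  -- points of height `s` are not `PosAt`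
  have hTneg : ∀ x, x ∈ C → Inward F e x → ⟪x, e⟫ = s → ¬ PosAt F e x := by
    intro x hxC hxI hxs hxd
    obtain ⟨ρ, hρ, hloc⟩ := cg_min_local F hF e he x hxI hxd
    have hiso : ∀ y ∈ C, dist y x < ρ → y = x := by
      intro y hy hyd
      by_contra hne
      have h1 := hloc y (hCs y hy).1 hyd hne
      have h2 := (hCs y hy).2
      rw [hxs] at h1
      exact absurd h1 (not_lt.2 h2)
    have key : ∀ y ∈ C, y = x := by
      intro y hy
      by_contra hne
      obtain ⟨z, hzC, hz1, hz2⟩ := hCp (ball x ρ) {x}ᶜ isOpen_ball isOpen_compl_singleton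
        (fun z _ => by
          by_cases h : z = x
          · left
            rw [h]
            exact mem_ball_self hρ
          · right
            exact h) ⟨x, hxC, mem_ball_self hρ⟩ ⟨y, hy, hne⟩
      exact hz2 (hiso z hzC hz1)
    exact hpq ((key p hpC).trans (key q hqC).symm)
  -- the set of these points
  have hIn : ∀ x, Inward F e x ↔ F x = 0 ∧ gradient F x = -(‖gradient F x‖ • e) := by
    intro x
    constructor
    · rintro ⟨h0, l, hl, hg⟩
      refine ⟨h0, ?_⟩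
      have hn : ‖gradient F x‖ = l := by
        rw [hg, norm_neg, norm_smul, he, mul_one, Real.norm_of_nonneg hl.le]
      rw [hn]
      exact hg
    · rintro ⟨h0, hg⟩
      exact ⟨h0, _, norm_pos_iff.2 (hreg x h0), hg⟩
  set T : Set V := C ∩ {x | Inward F e x ∧ ⟪x, e⟫ = s} with hT
  have hTcl : IsClosed {x : V | Inward F e x ∧ ⟪x, e⟫ = s} := by
    have h1 : {x : V | Inward F e x ∧ ⟪x, e⟫ = s} =
        ({x | F x = 0} ∩ {x | gradient F x = -(‖gradient F x‖ • e)}) ∩ {x | ⟪x, e⟫ = s} := by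
      ext x
      constructor
      · rintro ⟨h2, h3⟩
        exact ⟨⟨((hIn x).1 h2).1, ((hIn x).1 h2).2⟩, h3⟩
      · rintro ⟨⟨h2, h3⟩, h4⟩
        exact ⟨(hIn x).2 ⟨h2, h3⟩, h4⟩
    rw [h1]
    exact ((isClosed_eq hFc continuous_const).inter
      (isClosed_eq hgc (hgc.norm.smul continuous_const).neg)).inter
      (isClosed_eq hhc continuous_const)
  have hTc : IsCompact T := hCc.inter_right hTcl
  have hTn : ∀ x ∈ T, ∃ k, 2 ≤ k ∧ Idx F e x k := by
    rintro x ⟨h1, h2, h3⟩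
    exact (hdef x h2).resolve_left (hTneg x h1 h2 h3)
  have hloc : ∀ x : V, ∃ U : Set V, x ∈ T → (U ∈ nhds x ∧ ∀ y ∈ T, y ∈ U → y = x) := by
    intro x
    by_cases hx : x ∈ T
    · obtain ⟨k, hk, hidx⟩ := hTn x hx
      obtain ⟨U, A, hUo, hxU, _, _, _, _, _, hlast⟩ :=
        ix_ring F hF e he x hx.2.1 k hk hidx 1 one_pos
      refine ⟨U, fun _ => ⟨hUo.mem_nhds hxU, ?_⟩⟩
      intro y hy hyU
      apply hlast y hyU hy.2.1
      rw [hy.2.2, hx.2.2]
    · exact ⟨∅, fun h => absurd h hx⟩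
  choose U hU using hloc
  obtain ⟨t, htT, ht⟩ := hTc.elim_nhds_subcover U (fun x hx => (hU x hx).1)
  have hTt : T ⊆ (t : Set V) := by
    intro x hx
    obtain ⟨y, hy, hxy⟩ := Set.mem_iUnion₂.1 (ht hx)
    rw [(hU y (htT y hy)).2 x hx hxy]
    exact Finset.mem_coe.2 hy
  have hTf : T.Finite := t.finite_toSet.subset hTt
  have hmemS : ∀ x, x ∈ hTf.toFinset ↔ x ∈ C ∧ Inward F e x ∧ ⟪x, e⟫ = s := by
    intro x
    rw [Set.Finite.mem_toFinset]
    rfl
  obtain ⟨C', hC'c, hC'p, hpC', hqC', hC's, hC'n⟩ :=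
    ix_clean F hF e he p q s hTf.toFinset C hCc hCp hpC hqC
      (fun h => by
        obtain ⟨h1, h2, h3⟩ := (hmemS p).1 h
        exact hTneg p h1 h2 h3 hpd)
      (fun h => by
        obtain ⟨h1, h2, h3⟩ := (hmemS q).1 h
        exact hTneg q h1 h2 h3 hqd)
      hCs hmemS (fun x hx => hTn x ((Set.Finite.mem_toFinset hTf).1 hx))
  obtain ⟨η, hηc, hη⟩ := cg_descend F hF hb hreg e he
  have hηC' : ContinuousOn η C' := hηc.mono fun x hx => (hC's x hx).1
  have hc2 : IsCompact (η '' C') := hC'c.image_of_continuousOn hηC'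
  have hp2 : IsPreconnected (η '' C') := hC'p.image η hηC'
  have hpη : η p = p := (hη p (le_of_eq hp.1)).2.2 hp
  have hqη : η q = q := (hη q (le_of_eq hq.1)).2.2 hq
  have hpm : p ∈ η '' C' := ⟨p, hpC', hpη⟩
  have hqm : q ∈ η '' C' := ⟨q, hqC', hqη⟩
  have hlow : ∀ y ∈ η '' C', F y ≤ 0 ∧ ⟪y, e⟫ < s := by
    rintro _ ⟨x, hx, rfl⟩
    obtain ⟨h1, h2⟩ := hC's x hx
    obtain ⟨h3, h4, _⟩ := hη x h1
    refine ⟨h3, ?_⟩
    rcases h4 with h4 | ⟨h4, h5⟩
    · exact lt_of_lt_of_le h4 h2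
    · rw [h5]
      exact lt_of_le_of_ne h2 (hC'n x hx h4)
  obtain ⟨m, hm, hmax⟩ := hc2.exists_isMaxOn ⟨p, hpm⟩ hhc.continuousOn
  have h1 := hmin ⟪m, e⟫ (η '' C') hc2 hp2 hpm hqm
    (fun x hx => ⟨(hlow x hx).1, hmax hx⟩)
  exact absurd (hlow m hm).2 (not_lt.2 h1)

end Pool.Schoen
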