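import Mathlib
import Pool.Agent.H.MP_6c077c_gt.IxB.Basic
import Pool.Agent.H.MP_6c077c_gt.CG.Level

/-! Index theorem: principal curvatures. -/

set_option autoImplicit false

namespace Pool.Schoen

open scoped ContDiff RealInnerProductSpace
open Metric Set

variable {V : Type*} [NormedAddCommGroup V] [InnerProductSpace ℝ V] [FiniteDimensional ℝ V]

private theorem specA_matrix (n : ℕ) (S : V →L[ℝ] V) (b : OrthonormalBasis (Option (Fin n)) ℝ V)
    (d : Option (Fin n) → ℝ) (h : ∀ j, S (b j) = d j • b j) :
    LinearMap.toMatrix b.toBasis b.toBasis (S : V →ₗ[ℝ] V) = Matrix.diagonal d := by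
  ext i j
  rw [LinearMap.toMatrix_apply, OrthonormalBasis.coe_toBasis, ContinuousLinearMap.coe_coe, h,
    map_smul, Finsupp.smul_apply, OrthonormalBasis.coe_toBasis_repr_apply,
    OrthonormalBasis.repr_self, Matrix.diagonal_apply, smul_eq_mul, PiLp.single_apply]
  by_cases hij : i = j
  · subst hij; simp
  · simp [hij]

private theorem specA_det (n : ℕ) (S : V →L[ℝ] V) (b : OrthonormalBasis (Option (Fin n)) ℝ V)
    (d : Option (Fin n) → ℝ) (h : ∀ j, S (b j) = d j • b j) :
    S.det = ∏ j, d j := by
  change LinearMap.det (S : V →ₗ[ℝ] V) = _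
  rw [← LinearMap.det_toMatrix b.toBasis, specA_matrix n S b d h, Matrix.det_diagonal]

private theorem specA_count (n : ℕ) (S : V →L[ℝ] V) (b : OrthonormalBasis (Option (Fin n)) ℝ V)
    (κ : Fin n → ℝ) (h0 : S (b none) = 0) (h : ∀ i, S (b (some i)) = κ i • b (some i)) :
    Multiset.card ((LinearMap.charpoly (S : V →ₗ[ℝ] V)).roots.filter fun r => r < 0) =
      (Finset.univ.filter fun i => κ i < 0).card := by
  have hd : ∀ j, S (b j) = (Option.elim j (0 : ℝ) κ) • b j := by
    intro j
    rcases j with _ | j
    · simp [h0]
    · simp [h]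
  have h1 : LinearMap.charpoly (S : V →ₗ[ℝ] V) =
      ((Finset.univ.val.map fun j : Option (Fin n) => Option.elim j (0 : ℝ) κ).map
        fun a => Polynomial.X - Polynomial.C a).prod := by
    rw [← LinearMap.charpoly_toMatrix (S : V →ₗ[ℝ] V) b.toBasis, specA_matrix n S b _ hd,
      Matrix.charpoly_diagonal, Multiset.map_map]
    rfl
  rw [h1, Polynomial.roots_multiset_prod_X_sub_C, Multiset.filter_map, Multiset.card_map]
  have h2 : Multiset.card (Multiset.filter
      ((fun r : ℝ => r < 0) ∘ fun j : Option (Fin n) => Option.elim j (0 : ℝ) κ) Finset.univ.val) =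
      (Finset.univ.filter fun j : Option (Fin n) => Option.elim j (0 : ℝ) κ < 0).card := rfl
  rw [h2]
  have h3 : (Finset.univ.filter fun j : Option (Fin n) => Option.elim j (0 : ℝ) κ < 0) =
      (Finset.univ.filter fun i => κ i < 0).map Function.Embedding.some := by
    ext j
    rcases j with _ | j
    · simp
    · simp
  rw [h3, Finset.card_map]

private theorem specA_gradient (F : V → ℝ) (x : V) :
    gradient (fun y => -F y) x = -gradient F x := by
  show (InnerProductSpace.toDual ℝ V).symm (fderiv ℝ (fun y => -F y) x) =
    -(InnerProductSpace.toDual ℝ V).symm (fderiv ℝ F x)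
  rw [fderiv_fun_neg, map_neg]

private theorem specA_nrm (F : V → ℝ) (x : V) : nrm (fun y => -F y) x = -nrm F x := by
  unfold nrm
  rw [specA_gradient, norm_neg, smul_neg]

private theorem specA_tproj (u : V) : tproj (-u) = tproj u := by
  ext v
  rw [tproj_apply, tproj_apply, inner_neg_left, neg_smul_neg]

private theorem specA_nproj (u : V) : nproj (-u) = nproj u := by
  ext v
  rw [nproj_apply, nproj_apply, inner_neg_left, neg_smul_neg]

private theorem specA_shape (F : V → ℝ) (x : V) : shape (fun y => -F y) x = -shape F x := by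
  have h1 : gradient (fun y => -F y) = fun y => -gradient F y := funext fun y => specA_gradient F y
  unfold shape
  rw [specA_nrm, specA_tproj, specA_gradient, norm_neg, h1, fderiv_fun_neg]
  ext v
  simp

/-- Principal curvatures.

PROOF.  `cg_eigenbasis n hn (shape F x) (level_symm F hF x) (nrm F x) (norm_nrm ..) (level_kernel ..)`
(`CG/Oper.lean`, `CG/Level.lean`) gives `b`, `κ`.  `gaussK F x = (cgK (shape F x) (nrm F x)).det`
(`nproj` is the same operator, `rfl` or `ext`), `= ∏ i, κ i` as in the private lemma `oper_det` of
`CG/Oper.lean` (copy it).  `nneg`: the matrix of `shape F x` in the basis `b` is diagonal with the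
entries `d j = Option.elim j 0 κ` (as in `oper_det`), so `LinearMap.charpoly` is
`∏ j, (X - C (d j))` (`LinearMap.charpoly_toMatrix`, `Matrix.charpoly_of_upperTriangular` or
`Matrix.charpoly_diagonal`), its roots are the multiset of the `d j`
(`Polynomial.roots_prod_X_sub_C` / `Polynomial.roots_multiset_prod_X_sub_C`), and
`Multiset.filter` / `Multiset.countP` counts the `j` with `d j < 0`; `none` does not count. -/
theorem ix_spec (n : ℕ) (hn : Module.finrank ℝ V = n + 1) (F : V → ℝ) (hF : ContDiff ℝ ∞ F)
    (x : V) (hx : gradient F x ≠ 0) :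
    ∃ (b : OrthonormalBasis (Option (Fin n)) ℝ V) (κ : Fin n → ℝ), b none = nrm F x ∧
      (∀ i, shape F x (b (some i)) = κ i • b (some i)) ∧ gaussK F x = ∏ i, κ i ∧
      nneg F x = (Finset.univ.filter fun i => κ i < 0).card := by
  obtain ⟨b, κ, hb, hk⟩ := cg_eigenbasis n hn (shape F x) (level_symm F hF x) (nrm F x)
    (norm_nrm F x hx) (level_kernel F x hx)
  refine ⟨b, κ, hb, hk, ?_, ?_⟩
  · unfold gaussK
    have h : ∀ j, (shape F x + nproj (nrm F x)) (b j) = (Option.elim j (1 : ℝ) κ) • b j := by
      intro j
      rcases j with _ | j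
      · rw [add_apply, nproj_apply, hb, level_kernel F x hx, zero_add,
          real_inner_self_eq_norm_sq, norm_nrm F x hx]
        simp
      · rw [add_apply, nproj_apply, hk, ← hb, b.inner_eq_zero (by simp)]
        simp
    rw [specA_det n _ b _ h, Fintype.prod_option]
    simp
  · unfold nneg
    exact specA_count n (shape F x) b κ (by rw [hb, level_kernel F x hx]) hk

/-- Change of the sign of `F`, curvature.

PROOF.  `gradient (-F) = -gradient F`, `nrm (-F) = -nrm F`, `shape (-F) x = -shape F x`,
`nproj (nrm (-F) x) = nproj (nrm F x)` (`tproj`, `nproj` are even), all by unfolding (prove these as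
separate lemmas, they are used in `nneg_neg`).  If `gradient F x = 0` both curvatures are
`det 0 = 0` (the dimension is positive).  Otherwise let `b, κ` be from `ix_spec` for `F`; the operator
`-shape F x + nproj (nrm F x)` has in the basis `b` the diagonal entries `1` and `-κ i` (as in
`oper_det`, `CG/Oper.lean`), so its determinant is `∏ i, -κ i`. -/
theorem gaussK_neg (n : ℕ) (hn : Module.finrank ℝ V = n + 1) (F : V → ℝ) (hF : ContDiff ℝ ∞ F)
    (x : V) : |gaussK (fun y => -F y) x| = |gaussK F x| := by
  by_cases hx : gradient F x = 0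
  · have h1 : shape F x = 0 := by
      unfold shape
      rw [hx, norm_zero, inv_zero, zero_smul]
    unfold gaussK
    rw [specA_shape, specA_nrm, specA_nproj, h1, neg_zero]
  · obtain ⟨b, κ, hb, hk, hg, _⟩ := ix_spec n hn F hF x hx
    rw [hg]
    unfold gaussK
    rw [specA_shape, specA_nrm, specA_nproj]
    have h : ∀ j, (-shape F x + nproj (nrm F x)) (b j) =
        (Option.elim j (1 : ℝ) fun i => -κ i) • b j := by
      intro j
      rcases j with _ | j
      · rw [add_apply, nproj_apply, hb, neg_apply,
          level_kernel F x hx, neg_zero, zero_add, real_inner_self_eq_norm_sq, norm_nrm F x hx]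
        simp
      · rw [add_apply, nproj_apply, neg_apply, hk, ← hb,
          b.inner_eq_zero (by simp)]
        simp
    rw [specA_det n _ b _ h, Fintype.prod_option]
    simp [Finset.abs_prod]

/-- Change of the sign of `F`, number of negative curvatures.

PROOF.  The matrix of `-shape F x` in the basis `b` of `ix_spec` is diagonal with the entries `0`
and `-κ i`; as in the proof of `ix_spec` (extract there a lemma: an operator `S` with
`S (b none) = 0`, `S (b (some i)) = κ i • b (some i)` for an orthonormal basis `b` has
`card (S.charpoly.roots.filter (· < 0)) = card {i | κ i < 0}`), `nneg (-F) x` is the number of `i`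
with `-κ i < 0`.  No `κ i` is zero because their product is not zero. -/
theorem nneg_neg (n : ℕ) (hn : Module.finrank ℝ V = n + 1) (F : V → ℝ) (hF : ContDiff ℝ ∞ F)
    (x : V) (hx : gradient F x ≠ 0) (hK : gaussK F x ≠ 0) :
    nneg (fun y => -F y) x + nneg F x = n := by
  obtain ⟨b, κ, hb, hk, hg, hc⟩ := ix_spec n hn F hF x hx
  have hne : ∀ i, κ i ≠ 0 := by
    intro i hi
    apply hK
    rw [hg]
    exact Finset.prod_eq_zero (Finset.mem_univ i) hi
  have h1 : nneg (fun y => -F y) x = (Finset.univ.filter fun i => -κ i < 0).card := by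
    unfold nneg
    rw [specA_shape]
    refine specA_count n (-shape F x) b (fun i => -κ i) ?_ ?_
    · rw [neg_apply, hb, level_kernel F x hx, neg_zero]
    · intro i
      rw [neg_apply, hk, neg_smul]
  rw [h1, hc]
  have h2 : (Finset.univ.filter fun i => -κ i < 0) =
      (Finset.univ.filter fun i => ¬ κ i < 0) := by
    ext i
    simp only [Finset.mem_filter, Finset.mem_univ, true_and]
    constructor
    · intro h h'
      linarith
    · intro h
      have := lt_of_le_of_ne (not_lt.1 h) (hne i).symm
      linarith
  rw [h2, add_comm, Finset.card_filter_add_card_filter_not]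
  simp

end Pool.Schoen
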