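import Mathlib
import Pool.Agent.H.MP_6c077c_gt.IxB.SpecA

/-! Index theorem: principal curvatures and the index. -/

set_option autoImplicit false

namespace Pool.Schoen

open scoped ContDiff RealInnerProductSpace
open Metric Set

variable {V : Type*} [NormedAddCommGroup V] [InnerProductSpace ℝ V] [FiniteDimensional ℝ V]

/-- The span of the basis vectors with the property `p`. -/
private def SpecB_sp {n : ℕ} (b : OrthonormalBasis (Option (Fin n)) ℝ V) (p : Fin n → Prop) :
    Submodule ℝ V :=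
  Submodule.span ℝ (range fun i : {i // p i} => b (some i.1))

omit [FiniteDimensional ℝ V] in
private theorem SpecB_mem {n : ℕ} {b : OrthonormalBasis (Option (Fin n)) ℝ V} {p : Fin n → Prop}
    {a : V} (ha : a ∈ SpecB_sp b p) {j : Option (Fin n)} (hj : ∀ i, p i → j ≠ some i) :
    ⟪b j, a⟫ = 0 := by
  unfold SpecB_sp at ha
  induction ha using Submodule.span_induction with
  | mem x hx =>
    obtain ⟨i, rfl⟩ := hx
    exact b.orthonormal.2 (hj i.1 i.2)
  | zero => exact inner_zero_right _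
  | add x y _ _ hx hy => rw [inner_add_right, hx, hy, add_zero]
  | smul c x _ hx => rw [real_inner_smul_right, hx, mul_zero]

omit [FiniteDimensional ℝ V] in
private theorem SpecB_expand {n : ℕ} (b : OrthonormalBasis (Option (Fin n)) ℝ V) {a : V}
    (ha : ⟪b none, a⟫ = 0) : a = ∑ i, ⟪b (some i), a⟫ • b (some i) := by
  have h := b.sum_repr' a
  rw [Fintype.sum_option, ha, zero_smul, zero_add] at h
  exact h.symm

omit [FiniteDimensional ℝ V] in
private theorem SpecB_quad {n : ℕ} (b : OrthonormalBasis (Option (Fin n)) ℝ V) {κ : Fin n → ℝ}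
    {S : V →L[ℝ] V} (hS : ∀ i, S (b (some i)) = κ i • b (some i)) {a : V}
    (ha : ⟪b none, a⟫ = 0) (a' : V) :
    ⟪S a, a'⟫ = ∑ i, κ i * ⟪b (some i), a⟫ * ⟪b (some i), a'⟫ := by
  conv_lhs => rw [SpecB_expand b ha]
  rw [map_sum, sum_inner]
  refine Finset.sum_congr rfl fun i _ => ?_
  rw [map_smul, hS, real_inner_smul_left, real_inner_smul_left]
  ring

omit [FiniteDimensional ℝ V] in
private theorem SpecB_ne {n : ℕ} (b : OrthonormalBasis (Option (Fin n)) ℝ V) {a : V}
    (ha : ⟪b none, a⟫ = 0) (h0 : a ≠ 0) : ∃ i, ⟪b (some i), a⟫ ≠ 0 := by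
  by_contra hc
  push Not at hc
  apply h0
  rw [SpecB_expand b ha]
  exact Finset.sum_eq_zero fun i _ => by rw [hc i, zero_smul]

/-- The number of negative principal curvatures is the index, if the curvature is not zero.

PROOF.  `Inward` gives `nrm F x = -e`, `‖gradient F x‖ = l > 0`.  For `a, b' ⊥ e`,
`fderiv (fderiv F) x a b' = l * ⟪shape F x a, b'⟫` (polarise `level_form` with `level_symm` and
`ixHess_symm`).  Let `b, κ` be from `ix_spec`; all `κ i ≠ 0` as `gaussK F x ≠ 0`.
`N = span {b (some i) | κ i < 0}`, `P = span {b (some i) | κ i > 0}`.  Every `w ⊥ e` is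
`∑ i, ⟪b (some i), w⟫ • b (some i)` (`OrthonormalBasis.sum_repr'`, the `none` term vanishes); split
the sum.  For `a = ∑ i, s i • b (some i)` and `a' = ∑ i, t i • b (some i)`,
`⟪shape F x a, a'⟫ = ∑ i, κ i * s i * t i`, which gives `diag`, `neg`, `pos`; membership in a span:
`a ∈ N ↔ a ⊥ e` and `⟪b (some i), a⟫ = 0` for all `i` with `κ i > 0`
(use this characterisation: define `N` by these equations, or prove it by span induction).
`finrank N` is the number of `i` with `κ i < 0`: `finrank_span_eq_card` for the linearly independent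
family `fun i : {i // κ i < 0} => b (some i)` (`Orthonormal.linearIndependent`). -/
theorem idx_of_gaussK (n : ℕ) (hn : Module.finrank ℝ V = n + 1) (F : V → ℝ) (hF : ContDiff ℝ ∞ F)
    (e : V) (he : ‖e‖ = 1) (x : V) (hx : Inward F e x) (hK : gaussK F x ≠ 0) :
    Idx F e x (nneg F x) := by
  classical
  obtain ⟨hx0, l, hl, hg⟩ := hx
  have hnorm : ‖gradient F x‖ = l := by
    rw [hg, norm_neg, norm_smul, he, mul_one, Real.norm_of_nonneg hl.le]
  have hne : gradient F x ≠ 0 := by
    intro h0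
    rw [h0, norm_zero] at hnorm
    exact hl.ne hnorm
  have hnrm : nrm F x = -e := by
    rw [nrm, hnorm, hg, smul_neg, smul_smul, inv_mul_cancel₀ hl.ne', one_smul]
  obtain ⟨b, κ, hb0, hS, hdet, hcard⟩ := ix_spec n hn F hF x hne
  have hκ : ∀ i, κ i ≠ 0 := by
    rw [hdet] at hK
    exact fun i => Finset.prod_ne_zero_iff.1 hK i (Finset.mem_univ i)
  have hbe : b none = -e := by rw [hb0, hnrm]
  have hperp : ∀ a : V, ⟪a, e⟫ = 0 ↔ ⟪b none, a⟫ = 0 := by
    intro a
    rw [hbe, inner_neg_left, neg_eq_zero, real_inner_comm]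
  -- the second derivative
  have hform : ∀ w : V, ⟪w, e⟫ = 0 →
      fderiv ℝ (fderiv ℝ F) x w w = l * ⟪shape F x w, w⟫ := by
    intro w hw
    rw [level_form F hF x w (by rw [hnrm, inner_neg_right, hw, neg_zero]), hnorm, ← mul_assoc,
      mul_inv_cancel₀ hl.ne', one_mul]
  have hhess : ∀ a a' : V, ⟪a, e⟫ = 0 → ⟪a', e⟫ = 0 →
      fderiv ℝ (fderiv ℝ F) x a a' = l * ⟪shape F x a, a'⟫ := by
    intro a a' ha ha'
    have h1 := hform (a + a') (by rw [inner_add_left, ha, ha', add_zero])
    have h2 := hform a ha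
    have h3 := hform a' ha'
    have h4 := ixHess_symm hF x a' a
    have h5 : ⟪shape F x a', a⟫ = ⟪shape F x a, a'⟫ := by
      rw [level_symm F hF x a' a, real_inner_comm]
    simp only [map_add, _root_.add_apply, inner_add_left, inner_add_right] at h1
    rw [h5] at h1
    linarith
  have hquad : ∀ a a' : V, ⟪a, e⟫ = 0 → ⟪a', e⟫ = 0 → fderiv ℝ (fderiv ℝ F) x a a' =
      l * ∑ i, κ i * ⟪b (some i), a⟫ * ⟪b (some i), a'⟫ := by
    intro a a' ha ha'
    rw [hhess a a' ha ha', SpecB_quad b hS ((hperp a).1 ha) a']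
  set N : Submodule ℝ V := SpecB_sp b fun i => κ i < 0 with hN
  set P : Submodule ℝ V := SpecB_sp b fun i => 0 < κ i with hP
  have hNn : ∀ a ∈ N, ⟪a, e⟫ = 0 := fun a ha =>
    (hperp a).2 (SpecB_mem ha fun i _ => by simp)
  have hPn : ∀ a ∈ P, ⟪a, e⟫ = 0 := fun a ha =>
    (hperp a).2 (SpecB_mem ha fun i _ => by simp)
  have hNi : ∀ a ∈ N, ∀ i, 0 < κ i → ⟪b (some i), a⟫ = 0 := by
    intro a ha i hi
    refine SpecB_mem ha fun k hk hki => ?_
    have : i = k := Option.some_injective _ hki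
    subst this
    linarith
  have hPi : ∀ a ∈ P, ∀ i, κ i < 0 → ⟪b (some i), a⟫ = 0 := by
    intro a ha i hi
    refine SpecB_mem ha fun k hk hki => ?_
    have : i = k := Option.some_injective _ hki
    subst this
    linarith
  refine ⟨N, P, ⟨hNn, hPn, ?_, ?_, ?_, ?_, ?_⟩, ?_⟩
  · intro a ha a' ha'
    rw [← b.sum_inner_mul_inner a a', Fintype.sum_option]
    have h1 : ⟪b none, a'⟫ = 0 := (hperp a').1 (hPn a' ha')
    rw [h1, mul_zero, zero_add]
    refine Finset.sum_eq_zero fun i _ => ?_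
    rcases lt_or_gt_of_ne (hκ i) with h | h
    · rw [hPi a' ha' i h, mul_zero]
    · rw [real_inner_comm, hNi a ha i h, zero_mul]
  · intro w hw
    refine ⟨∑ i, (if κ i < 0 then ⟪b (some i), w⟫ else 0) • b (some i), ?_,
      ∑ i, (if κ i < 0 then 0 else ⟪b (some i), w⟫) • b (some i), ?_, ?_⟩
    · refine Submodule.sum_mem _ fun i _ => ?_
      split_ifs with h
      · exact Submodule.smul_mem _ _ (Submodule.subset_span ⟨⟨i, h⟩, rfl⟩)
      · rw [zero_smul]
        exact Submodule.zero_mem _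
    · refine Submodule.sum_mem _ fun i _ => ?_
      split_ifs with h
      · rw [zero_smul]
        exact Submodule.zero_mem _
      · exact Submodule.smul_mem _ _ (Submodule.subset_span
          ⟨⟨i, lt_of_le_of_ne (not_lt.1 h) (hκ i).symm⟩, rfl⟩)
    · rw [← Finset.sum_add_distrib]
      conv_lhs => rw [SpecB_expand b ((hperp w).1 hw)]
      refine Finset.sum_congr rfl fun i _ => ?_
      split_ifs with h
      · rw [zero_smul, add_zero]
      · rw [zero_smul, zero_add]
  · intro a ha a' ha'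
    rw [hquad a a' (hNn a ha) (hPn a' ha')]
    rw [Finset.sum_eq_zero, mul_zero]
    intro i _
    rcases lt_or_gt_of_ne (hκ i) with h | h
    · rw [hPi a' ha' i h, mul_zero]
    · rw [hNi a ha i h, mul_zero, zero_mul]
  · intro a ha h0
    rw [hquad a a (hNn a ha) (hNn a ha)]
    refine mul_neg_of_pos_of_neg hl ?_
    obtain ⟨i, hi⟩ := SpecB_ne b ((hperp a).1 (hNn a ha)) h0
    have h1 : ∀ k, κ k * ⟪b (some k), a⟫ * ⟪b (some k), a⟫ ≤ 0 := by
      intro k
      rcases lt_or_gt_of_ne (hκ k) with h | h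
      · rw [mul_assoc]
        exact mul_nonpos_of_nonpos_of_nonneg h.le (mul_self_nonneg _)
      · rw [hNi a ha k h, mul_zero]
    have h2 : κ i * ⟪b (some i), a⟫ * ⟪b (some i), a⟫ < 0 := by
      rcases lt_or_gt_of_ne (hκ i) with h | h
      · rw [mul_assoc]
        exact mul_neg_of_neg_of_pos h (mul_self_pos.2 hi)
      · exact absurd (hNi a ha i h) hi
    calc ∑ k, κ k * ⟪b (some k), a⟫ * ⟪b (some k), a⟫ < ∑ _k : Fin n, (0 : ℝ) :=
          Finset.sum_lt_sum (fun k _ => h1 k) ⟨i, Finset.mem_univ i, h2⟩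
      _ = 0 := by simp
  · intro a ha h0
    rw [hquad a a (hPn a ha) (hPn a ha)]
    refine mul_pos hl ?_
    obtain ⟨i, hi⟩ := SpecB_ne b ((hperp a).1 (hPn a ha)) h0
    have h1 : ∀ k, 0 ≤ κ k * ⟪b (some k), a⟫ * ⟪b (some k), a⟫ := by
      intro k
      rcases lt_or_gt_of_ne (hκ k) with h | h
      · rw [hPi a ha k h, mul_zero]
      · rw [mul_assoc]
        exact mul_nonneg h.le (mul_self_nonneg _)
    have h2 : 0 < κ i * ⟪b (some i), a⟫ * ⟪b (some i), a⟫ := by
      rcases lt_or_gt_of_ne (hκ i) with h | h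
      · exact absurd (hPi a ha i h) hi
      · rw [mul_assoc]
        exact mul_pos h (mul_self_pos.2 hi)
    calc (0 : ℝ) = ∑ _k : Fin n, (0 : ℝ) := by simp
      _ < ∑ k, κ k * ⟪b (some k), a⟫ * ⟪b (some k), a⟫ :=
          Finset.sum_lt_sum (fun k _ => h1 k) ⟨i, Finset.mem_univ i, h2⟩
  · have h1 : LinearIndependent ℝ fun i : {i // κ i < 0} => b (some i.1) :=
      b.orthonormal.linearIndependent.comp (fun i : {i // κ i < 0} => some i.1)
        (fun i j hij => Subtype.ext (Option.some_injective _ hij))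
    rw [hcard, hN, SpecB_sp, finrank_span_eq_card h1, Fintype.card_subtype]

end Pool.Schoen
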