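import Mathlib
import Pool.Agent.H.MP_6c077c_gt.IxB.Basic
import Pool.Agent.H.MP_6c077c_gt.CG.Level

/-! Index theorem: the bad set is closed. -/

set_option autoImplicit false

namespace Pool.Schoen

open scoped ContDiff RealInnerProductSpace
open Metric Set

variable {V : Type*} [NormedAddCommGroup V] [InnerProductSpace ℝ V] [FiniteDimensional ℝ V]

/-- The bad set: two dimensions of nonpositive and one dimension of nonnegative curvature. -/
def ixBad (F : V → ℝ) : Set V :=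
  {x | F x = 0 ∧ (∃ a₁ a₂ : V, ‖a₁‖ = 1 ∧ ‖a₂‖ = 1 ∧ ⟪a₁, a₂⟫ = 0 ∧ ⟪a₁, nrm F x⟫ = 0 ∧
      ⟪a₂, nrm F x⟫ = 0 ∧
      ∀ s t : ℝ, ⟪shape F x (s • a₁ + t • a₂), s • a₁ + t • a₂⟫ ≤ 0) ∧
    ∃ b : V, ‖b‖ = 1 ∧ ⟪b, nrm F x⟫ = 0 ∧ 0 ≤ ⟪shape F x b, b⟫}

private theorem BadA_one (F : V → ℝ) (hF : ContDiff ℝ ∞ F)
    (hreg : ∀ x, F x = 0 → gradient F x ≠ 0) (hK : IsCompact {x | F x = 0}) :
    IsClosed {x : V | F x = 0 ∧ ∃ b : V, ‖b‖ = 1 ∧ ⟪b, nrm F x⟫ = 0 ∧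
      0 ≤ ⟪shape F x b, b⟫} := by
  have hP : IsCompact ({x | F x = 0} ×ˢ sphere (0 : V) 1) := hK.prod (isCompact_sphere (0 : V) 1)
  have hF2 : ContDiff ℝ 2 F := hF.of_le (by norm_cast)
  have hmaps : MapsTo (Prod.fst : V × V → V) ({x | F x = 0} ×ˢ sphere (0 : V) 1) {x | F x = 0} :=
    fun q hq => hq.1
  have hn : ContinuousOn (nrm F) {x | F x = 0} := fun x hx =>
    (nrm_continuousAt F hF2 x (hreg x hx)).continuousWithinAt
  have hs : ContinuousOn (shape F) {x | F x = 0} := fun x hx =>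
    (shape_continuousAt F hF2 x (hreg x hx)).continuousWithinAt
  have hfst : ContinuousOn (Prod.fst : V × V → V) ({x | F x = 0} ×ˢ sphere (0 : V) 1) :=
    continuous_fst.continuousOn
  have hsnd : ContinuousOn (Prod.snd : V × V → V) ({x | F x = 0} ×ˢ sphere (0 : V) 1) :=
    continuous_snd.continuousOn
  have h1 : ContinuousOn (fun q : V × V => ⟪q.2, nrm F q.1⟫)
      ({x | F x = 0} ×ˢ sphere (0 : V) 1) := hsnd.inner (hn.comp hfst hmaps)
  have h2 : ContinuousOn (fun q : V × V => ⟪shape F q.1 q.2, q.2⟫)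
      ({x | F x = 0} ×ˢ sphere (0 : V) 1) := ((hs.comp hfst hmaps).clm_apply hsnd).inner hsnd
  have h3 : IsClosed (({x | F x = 0} ×ˢ sphere (0 : V) 1) ∩
      (fun q : V × V => (⟪q.2, nrm F q.1⟫, ⟪shape F q.1 q.2, q.2⟫)) ⁻¹'
        (({0} : Set ℝ) ×ˢ Ici (0 : ℝ))) :=
    (h1.prodMk h2).preimage_isClosed_of_isClosed hP.isClosed (isClosed_singleton.prod isClosed_Ici)
  have h4 : IsCompact (({x | F x = 0} ×ˢ sphere (0 : V) 1) ∩
      (fun q : V × V => (⟪q.2, nrm F q.1⟫, ⟪shape F q.1 q.2, q.2⟫)) ⁻¹'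
        (({0} : Set ℝ) ×ˢ Ici (0 : ℝ))) :=
    hP.of_isClosed_subset h3 inter_subset_left
  have h5 := (h4.image continuous_fst).isClosed
  convert h5 using 1
  ext x
  constructor
  · rintro ⟨hx, w, hw0, hw1, hw2⟩
    exact ⟨(x, w), ⟨⟨hx, by rw [mem_sphere_zero_iff_norm]; exact hw0⟩, hw1, hw2⟩, rfl⟩
  · rintro ⟨⟨y, w⟩, ⟨⟨hy, hw⟩, hw1, hw2⟩, rfl⟩
    exact ⟨hy, w, by rw [← mem_sphere_zero_iff_norm]; exact hw, hw1, hw2⟩

private theorem BadA_two (F : V → ℝ) (hF : ContDiff ℝ ∞ F)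
    (hreg : ∀ x, F x = 0 → gradient F x ≠ 0) (hK : IsCompact {x | F x = 0}) :
    IsClosed {x : V | F x = 0 ∧ ∃ a₁ a₂ : V, ‖a₁‖ = 1 ∧ ‖a₂‖ = 1 ∧ ⟪a₁, a₂⟫ = 0 ∧
      ⟪a₁, nrm F x⟫ = 0 ∧ ⟪a₂, nrm F x⟫ = 0 ∧
      ∀ s t : ℝ, ⟪shape F x (s • a₁ + t • a₂), s • a₁ + t • a₂⟫ ≤ 0} := by
  obtain ⟨S, hSdef⟩ : ∃ S : Set (V × (V × V)),
      S = {x | F x = 0} ×ˢ (sphere (0 : V) 1 ×ˢ sphere (0 : V) 1) := ⟨_, rfl⟩
  have hP : IsCompact S := by
    rw [hSdef]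
    exact hK.prod ((isCompact_sphere (0 : V) 1).prod (isCompact_sphere (0 : V) 1))
  have hF2 : ContDiff ℝ 2 F := hF.of_le (by norm_cast)
  have hmaps : MapsTo (Prod.fst : V × (V × V) → V) S {x | F x = 0} := by
    intro q hq
    rw [hSdef] at hq
    exact hq.1
  have hn : ContinuousOn (nrm F) {x | F x = 0} := fun x hx =>
    (nrm_continuousAt F hF2 x (hreg x hx)).continuousWithinAt
  have hs : ContinuousOn (shape F) {x | F x = 0} := fun x hx =>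
    (shape_continuousAt F hF2 x (hreg x hx)).continuousWithinAt
  have hfst : ContinuousOn (Prod.fst : V × (V × V) → V) S := continuous_fst.continuousOn
  have c1 : ContinuousOn (fun q : V × (V × V) => q.2.1) S :=
    (continuous_fst.comp continuous_snd).continuousOn
  have c2 : ContinuousOn (fun q : V × (V × V) => q.2.2) S :=
    (continuous_snd.comp continuous_snd).continuousOn
  have cn : ContinuousOn (fun q : V × (V × V) => nrm F q.1) S := hn.comp hfst hmaps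
  have cs : ContinuousOn (fun q : V × (V × V) => shape F q.1) S := hs.comp hfst hmaps
  obtain ⟨g, hg⟩ : ∃ g : ℝ × ℝ → V × (V × V) → ℝ × (ℝ × (ℝ × ℝ)), g = fun p q =>
      (⟪q.2.1, q.2.2⟫, (⟪q.2.1, nrm F q.1⟫, (⟪q.2.2, nrm F q.1⟫,
        ⟪shape F q.1 (p.1 • q.2.1 + p.2 • q.2.2), p.1 • q.2.1 + p.2 • q.2.2⟫))) := ⟨_, rfl⟩
  obtain ⟨C, hC⟩ : ∃ C : Set (ℝ × (ℝ × (ℝ × ℝ))),
      C = ({0} : Set ℝ) ×ˢ (({0} : Set ℝ) ×ˢ (({0} : Set ℝ) ×ˢ Iic (0 : ℝ))) := ⟨_, rfl⟩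
  have hCc : IsClosed C := by
    rw [hC]
    exact isClosed_singleton.prod (isClosed_singleton.prod (isClosed_singleton.prod isClosed_Iic))
  have hgc : ∀ p, ContinuousOn (g p) S := by
    intro p
    rw [hg]
    have c3 : ContinuousOn (fun q : V × (V × V) => p.1 • q.2.1 + p.2 • q.2.2) S :=
      (c1.const_smul p.1).add (c2.const_smul p.2)
    exact (c1.inner c2).prodMk ((c1.inner cn).prodMk ((c2.inner cn).prodMk
      ((cs.clm_apply c3).inner c3)))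
  have h3 : IsClosed (⋂ p : ℝ × ℝ, (S ∩ g p ⁻¹' C)) :=
    isClosed_iInter fun p => (hgc p).preimage_isClosed_of_isClosed hP.isClosed hCc
  have h4 : IsCompact (⋂ p : ℝ × ℝ, (S ∩ g p ⁻¹' C)) :=
    hP.of_isClosed_subset h3 ((iInter_subset _ ((0 : ℝ), (0 : ℝ))).trans inter_subset_left)
  have h5 := (h4.image continuous_fst).isClosed
  convert h5 using 1
  ext x
  constructor
  · rintro ⟨hx, a, b, ha, hb, hab, han, hbn, hst⟩
    refine ⟨(x, (a, b)), ?_, rfl⟩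
    rw [mem_iInter]
    intro p
    refine ⟨?_, ?_⟩
    · rw [hSdef]
      exact ⟨hx, by rw [mem_sphere_zero_iff_norm]; exact ha,
        by rw [mem_sphere_zero_iff_norm]; exact hb⟩
    · rw [mem_preimage, hg, hC]
      exact ⟨hab, han, hbn, hst p.1 p.2⟩
  · rintro ⟨⟨y, ⟨a, b⟩⟩, h, rfl⟩
    rw [mem_iInter] at h
    have h0 := (h (0, 0)).1
    rw [hSdef] at h0
    have h1 := fun p => (h p).2
    simp only [mem_preimage, hg, hC] at h1
    refine ⟨h0.1, a, b, ?_, ?_, (h1 (0, 0)).1, (h1 (0, 0)).2.1, (h1 (0, 0)).2.2.1,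
      fun s t => (h1 (s, t)).2.2.2⟩
    · rw [← mem_sphere_zero_iff_norm]; exact h0.2.1
    · rw [← mem_sphere_zero_iff_norm]; exact h0.2.2

/-- PROOF.  As `level_closed_aux` in `CG/Level.lean`: the set is the image under `Prod.fst` of a
closed subset of the compact set `{F = 0} × sphere × sphere × sphere` of `V × V × V × V`, cut out by
closed conditions on functions continuous there (`nrm_continuousAt`, `shape_continuousAt` in
`AreaGlob.lean`); the condition with `∀ s t` is an intersection of closed conditions. -/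
theorem ixBad_closed (F : V → ℝ) (hF : ContDiff ℝ ∞ F) (hreg : ∀ x, F x = 0 → gradient F x ≠ 0)
    (hK : IsCompact {x | F x = 0}) : IsClosed (ixBad F) := by
  have h1 := BadA_two F hF hreg hK
  have h2 := BadA_one F hF hreg hK
  convert h1.inter h2 using 1
  ext x
  constructor
  · rintro ⟨hx, h3, h4⟩
    exact ⟨⟨hx, h3⟩, ⟨hx, h4⟩⟩
  · rintro ⟨⟨hx, h3⟩, ⟨_, h4⟩⟩
    exact ⟨hx, h3, h4⟩

end Pool.Schoen
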