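import Mathlib
import Pool.Agent.H.MP_6c077c_gt.IxB.SpecA
import Pool.Agent.H.MP_6c077c_gt.IxB.BadA

/-! Index theorem: the bad set and the number of negative curvatures. -/

set_option autoImplicit false

namespace Pool.Schoen

open scoped ContDiff RealInnerProductSpace
open Metric Set

variable {V : Type*} [NormedAddCommGroup V] [InnerProductSpace ℝ V] [FiniteDimensional ℝ V]

private theorem BadB_expand {n : ℕ} (b : OrthonormalBasis (Option (Fin n)) ℝ V) (w : V)
    (hw : ⟪w, b none⟫ = 0) : w = ∑ i, ⟪b (some i), w⟫ • b (some i) := by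
  have h := b.sum_repr' w
  rw [Fintype.sum_option, real_inner_comm, hw, zero_smul, zero_add] at h
  exact h.symm

private theorem BadB_quad {n : ℕ} (b : OrthonormalBasis (Option (Fin n)) ℝ V) (S : V →L[ℝ] V)
    (κ : Fin n → ℝ) (hS : ∀ i, S (b (some i)) = κ i • b (some i)) (w : V)
    (hw : ⟪w, b none⟫ = 0) : ⟪S w, w⟫ = ∑ i, κ i * ⟪b (some i), w⟫ ^ 2 := by
  have h1 : S w = ∑ i, ⟪b (some i), w⟫ • κ i • b (some i) := by
    conv_lhs => rw [BadB_expand b w hw]
    rw [map_sum]
    refine Finset.sum_congr rfl (fun i _ => ?_)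
    rw [map_smul, hS]
  rw [h1, sum_inner]
  refine Finset.sum_congr rfl (fun i _ => ?_)
  rw [inner_smul_left, inner_smul_left]
  simp only [conj_trivial]
  ring

private theorem BadB_exists {n : ℕ} (b : OrthonormalBasis (Option (Fin n)) ℝ V) (w : V)
    (hw : ⟪w, b none⟫ = 0) (h0 : w ≠ 0) : ∃ i, ⟪b (some i), w⟫ ≠ 0 := by
  by_contra h
  push Not at h
  apply h0
  rw [BadB_expand b w hw]
  exact Finset.sum_eq_zero (fun i _ => by rw [h i, zero_smul])

private theorem BadB_comb {a₁ a₂ : V} (h1 : ‖a₁‖ = 1) (h2 : ‖a₂‖ = 1) (h12 : ⟪a₁, a₂⟫ = 0)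
    (s t : ℝ) (hst : s • a₁ + t • a₂ = 0) : s = 0 ∧ t = 0 := by
  have e1 : ⟪a₁, s • a₁ + t • a₂⟫ = s := by
    rw [inner_add_right, inner_smul_right, inner_smul_right, h12, real_inner_self_eq_norm_sq, h1]
    ring
  have e2 : ⟪a₂, s • a₁ + t • a₂⟫ = t := by
    rw [inner_add_right, inner_smul_right, inner_smul_right, real_inner_comm, h12,
      real_inner_self_eq_norm_sq, h2]
    ring
  rw [hst, inner_zero_right] at e1 e2
  exact ⟨e1.symm, e2.symm⟩

private theorem BadB_core {n : ℕ} (b : OrthonormalBasis (Option (Fin n)) ℝ V) (S : V →L[ℝ] V)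
    (κ : Fin n → ℝ) (hS : ∀ i, S (b (some i)) = κ i • b (some i)) (hκ : ∀ i, κ i ≠ 0) :
    ((∃ a₁ a₂ : V, ‖a₁‖ = 1 ∧ ‖a₂‖ = 1 ∧ ⟪a₁, a₂⟫ = 0 ∧ ⟪a₁, b none⟫ = 0 ∧
      ⟪a₂, b none⟫ = 0 ∧
      ∀ s t : ℝ, ⟪S (s • a₁ + t • a₂), s • a₁ + t • a₂⟫ ≤ 0) ∧
    ∃ c : V, ‖c‖ = 1 ∧ ⟪c, b none⟫ = 0 ∧ 0 ≤ ⟪S c, c⟫) ↔
    2 ≤ (Finset.univ.filter fun i => κ i < 0).card ∧
      (Finset.univ.filter fun i => κ i < 0).card + 1 ≤ n := by
  have hnn : ∀ i, ⟪b (some i), b none⟫ = 0 := fun i =>
    b.orthonormal.2 (by simp)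
  constructor
  · rintro ⟨⟨a₁, a₂, h1, h2, h12, ha1, ha2, hle⟩, c, hc1, hc2, hc3⟩
    constructor
    · by_contra hcon
      have hcard : (Finset.univ.filter fun i => κ i < 0).card ≤ 1 := by omega
      rw [Finset.card_le_one] at hcard
      -- a pair `s, t`, not both zero, with the combination orthogonal to the negative direction
      obtain ⟨s, t, hst, horth⟩ : ∃ s t : ℝ, ¬ (s = 0 ∧ t = 0) ∧
          ∀ i, κ i < 0 → ⟪b (some i), s • a₁ + t • a₂⟫ = 0 := by
        by_cases hex : ∃ i, κ i < 0
        · obtain ⟨i, hi⟩ := hex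
          have huniq : ∀ j, κ j < 0 → j = i := fun j hj => hcard j (by simpa using hj) i
            (by simpa using hi)
          by_cases hz : ⟪b (some i), a₁⟫ = 0
          · refine ⟨1, 0, by simp, fun j hj => ?_⟩
            rw [huniq j hj, one_smul, zero_smul, add_zero]
            exact hz
          · refine ⟨⟪b (some i), a₂⟫, -⟪b (some i), a₁⟫, fun h => hz (by linarith [h.2]),
              fun j hj => ?_⟩
            rw [huniq j hj, inner_add_right, inner_smul_right, inner_smul_right]
            ring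
        · push Not at hex
          exact ⟨1, 0, by simp, fun j hj => absurd hj (not_lt.2 (hex j))⟩
      have hw0 : s • a₁ + t • a₂ ≠ 0 := fun h => hst (BadB_comb h1 h2 h12 s t h)
      have hwn : ⟪s • a₁ + t • a₂, b none⟫ = 0 := by
        rw [inner_add_left, inner_smul_left, inner_smul_left, ha1, ha2]
        simp
      have hq := BadB_quad b S κ hS _ hwn
      have hle' := hle s t
      rw [hq] at hle'
      obtain ⟨i, hi⟩ := BadB_exists b _ hwn hw0
      have hterm : ∀ j, 0 ≤ κ j * ⟪b (some j), s • a₁ + t • a₂⟫ ^ 2 := by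
        intro j
        rcases lt_or_ge (κ j) 0 with hj | hj
        · rw [horth j hj]
          simp
        · positivity
      have hpos : 0 < κ i * ⟪b (some i), s • a₁ + t • a₂⟫ ^ 2 := by
        have hki : 0 < κ i := by
          rcases lt_trichotomy (κ i) 0 with h | h | h
          · exact absurd (horth i h) hi
          · exact absurd h (hκ i)
          · exact h
        positivity
      have hsum := Finset.single_le_sum (fun j _ => hterm j) (Finset.mem_univ i)
      linarith
    · by_contra hcon
      have hle2 : (Finset.univ.filter fun i => κ i < 0).card ≤ n := by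
        refine (Finset.card_filter_le _ _).trans ?_
        simp
      have heq : (Finset.univ.filter fun i => κ i < 0) = Finset.univ := by
        apply Finset.eq_univ_of_card
        rw [Fintype.card_fin]
        omega
      have hneg : ∀ i, κ i < 0 := by
        intro i
        have : i ∈ (Finset.univ.filter fun i => κ i < 0) := by
          rw [heq]
          exact Finset.mem_univ i
        simpa using this
      have hc0 : c ≠ 0 := by
        intro h
        rw [h, norm_zero] at hc1
        exact zero_ne_one hc1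
      obtain ⟨i, hi⟩ := BadB_exists b c hc2 hc0
      rw [BadB_quad b S κ hS c hc2] at hc3
      have hterm : ∀ j, 0 ≤ -(κ j * ⟪b (some j), c⟫ ^ 2) := by
        intro j
        have h1 := hneg j
        have h2 : 0 ≤ ⟪b (some j), c⟫ ^ 2 := sq_nonneg _
        nlinarith
      have hpos : 0 < -(κ i * ⟪b (some i), c⟫ ^ 2) := by
        have h1 := hneg i
        have h2 : 0 < ⟪b (some i), c⟫ ^ 2 := by positivity
        nlinarith
      have hsum := Finset.single_le_sum (fun j _ => hterm j) (Finset.mem_univ i)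
      rw [Finset.sum_neg_distrib] at hsum
      linarith
  · rintro ⟨hc2, hcn⟩
    constructor
    · obtain ⟨i, hi, j, hj, hij⟩ := Finset.one_lt_card.1 hc2
      simp only [Finset.mem_filter, Finset.mem_univ, true_and] at hi hj
      have hij' : ⟪b (some i), b (some j)⟫ = 0 := b.orthonormal.2 (by simpa using hij)
      refine ⟨b (some i), b (some j), b.orthonormal.1 _, b.orthonormal.1 _, hij', hnn i, hnn j, ?_⟩
      intro s t
      rw [map_add, map_smul, map_smul, hS, hS, inner_add_left, inner_add_right, inner_add_right]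
      simp only [inner_smul_left, inner_smul_right, conj_trivial, hij']
      have hji' : ⟪b (some j), b (some i)⟫ = 0 := by
        rw [real_inner_comm]
        exact hij'
      rw [hji', real_inner_self_eq_norm_sq, real_inner_self_eq_norm_sq, b.orthonormal.1,
        b.orthonormal.1]
      have h1 : 0 ≤ s ^ 2 := sq_nonneg s
      have h2 : 0 ≤ t ^ 2 := sq_nonneg t
      nlinarith
    · obtain ⟨i, hi⟩ : ∃ i, ¬ κ i < 0 := by
        by_contra h
        push Not at h
        have heq : (Finset.univ.filter fun i => κ i < 0) = Finset.univ := by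
          ext i
          simpa using h i
        rw [heq, Finset.card_univ, Fintype.card_fin] at hcn
        omega
      refine ⟨b (some i), b.orthonormal.1 _, hnn i, ?_⟩
      rw [hS, inner_smul_left, real_inner_self_eq_norm_sq, b.orthonormal.1]
      simp only [conj_trivial]
      push Not at hi
      linarith

/-- Where the curvature is not zero, the bad set is given by the number of negative curvatures.

PROOF.  Let `b, κ` be from `ix_spec`, all `κ i ≠ 0`, `k = nneg F x` the number of negative ones; for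
`w = ∑ i, s i • b (some i)`: `⟪shape F x w, w⟫ = ∑ i, κ i * s i ^ 2`.
(⇐) two different `i, j` with `κ i, κ j < 0` give `a₁, a₂`, an `i` with `κ i > 0` (there is one as
`k ≤ n - 1`) gives `b`.  (⇒) If `k ≤ 1`: the vectors `s • a₁ + t • a₂` which are orthogonal to the
(at most one) `b (some i)` with `κ i < 0` contain a nonzero one (one linear equation, two unknowns),
and it is a combination of the `b (some j)` with `κ j > 0`, so `⟪shape F x w, w⟫ > 0`, a
contradiction.  If `k = n`, all `κ i < 0` and `⟪shape F x b, b⟫ < 0`, a contradiction.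
(`k ≤ n` always: `Finset.card_filter_le`.) -/
theorem ixBad_iff (n : ℕ) (hn : Module.finrank ℝ V = n + 1) (F : V → ℝ) (hF : ContDiff ℝ ∞ F)
    (x : V) (hx0 : F x = 0) (hx : gradient F x ≠ 0) (hK : gaussK F x ≠ 0) :
    x ∈ ixBad F ↔ 2 ≤ nneg F x ∧ nneg F x + 1 ≤ n := by
  obtain ⟨b, κ, hb, hS, hG, hN⟩ := ix_spec n hn F hF x hx
  have hκ : ∀ i, κ i ≠ 0 := by
    intro i h
    apply hK
    rw [hG]
    exact Finset.prod_eq_zero (Finset.mem_univ i) h
  have hcore := BadB_core b (shape F x) κ hS hκ
  rw [hb] at hcore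
  rw [hN, ← hcore]
  constructor
  · rintro ⟨_, h2, h3⟩
    exact ⟨h2, h3⟩
  · rintro ⟨h2, h3⟩
    exact ⟨hx0, h2, h3⟩

end Pool.Schoen
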