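import Mathlib
import Pool.Agent.H.MP_6c077c_gt.IxB.SpecB
import Pool.Agent.H.MP_6c077c_gt.IxB.BadB
import Pool.Agent.H.MP_6c077c_gt.AreaGlob

/-! Index theorem: choice of the direction. -/

set_option autoImplicit false

namespace Pool.Schoen

open scoped ContDiff RealInnerProductSpace ENNReal
open Metric Set MeasureTheory

variable {V : Type*} [NormedAddCommGroup V] [InnerProductSpace ℝ V] [FiniteDimensional ℝ V]
  [MeasurableSpace V] [BorelSpace V]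

omit [MeasurableSpace V] [BorelSpace V] in
private theorem Direction_nneg_le (n : ℕ) (hn : Module.finrank ℝ V = n + 1) (F : V → ℝ)
    (hF : ContDiff ℝ ∞ F) (x : V) (hx : gradient F x ≠ 0) : nneg F x ≤ n := by
  obtain ⟨b, κ, -, -, -, h⟩ := ix_spec n hn F hF x hx
  rw [h]
  have h1 := Finset.card_filter_le (Finset.univ : Finset (Fin n)) (fun i => κ i < 0)
  rwa [Finset.card_univ, Fintype.card_fin] at h1

omit [FiniteDimensional ℝ V] [MeasurableSpace V] [BorelSpace V] in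
private theorem Direction_nrm [FiniteDimensional ℝ V] (F : V → ℝ) (x u : V) (hu : ‖u‖ = 1) (l : ℝ)
    (hl : 0 < l) (h : gradient F x = l • u) : nrm F x = u := by
  unfold nrm
  rw [h, norm_smul, hu, mul_one, Real.norm_eq_abs, abs_of_pos hl, smul_smul,
    inv_mul_cancel₀ hl.ne', one_smul]

omit [MeasurableSpace V] [BorelSpace V] in
private theorem Direction_grad (F : V → ℝ) (x : V) :
    gradient (fun y => -F y) x = -gradient F x := by
  unfold gradient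
  rw [fderiv_fun_neg, map_neg]

/-- A normal direction avoiding the bad set and the points of zero curvature.

PROOF.  `M = {F = 0}` is compact.  `Z = ixBad F ∪ {x | F x = 0 ∧ gaussK F x = 0}` is closed
(`ixBad_closed`; `gaussK` is continuous at the points of `M` by `gaussK_continuousAt`:
`ContinuousOn.preimage_isClosed_of_isClosed`), so measurable.  `area_le` (with `U = Z`):
`μH[n] (nrm F '' Z) ≤ ∫⁻ x in Z, ofReal |gaussK F x|`.  Split `Z = Z₁ ∪ Z₀` with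
`Z₀ = Z ∩ {gaussK = 0}` (closed), `Z₁ = Z \ Z₀`: on `Z₀` the integrand is zero, so the integral over
`Z` is at most the one over `Z₁`, and `Z₁ ⊆ {x | F x = 0 ∧ gaussK F x ≠ 0 ∧ 2 ≤ nneg F x ∧
nneg F x + 1 ≤ n}` (`ixBad_iff`); `lintegral_mono_set`.  With `hint`,
`μH[n] (nrm F '' Z) < μH[n] (sphere 0 1)`, so some unit vector `u` is not in `nrm F '' Z`
(`measure_mono`).  If `F x = 0` and `nrm F x = u`, then `x ∉ Z`, so `gaussK F x ≠ 0` and
`x ∉ ixBad F`; by `ixBad_iff` `nneg F x ≤ 1` or `nneg F x + 1 > n`, and `nneg F x ≤ n`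
(`ix_spec`, `Finset.card_filter_le`).  (Compare `cg_level` in `CG/Level.lean`.  The cast:
`μH[((n : ℕ) : ℝ)]`.) -/
theorem ix_direction (n : ℕ) (hn : Module.finrank ℝ V = n + 1) (F : V → ℝ) (hF : ContDiff ℝ ∞ F)
    (hreg : ∀ x, F x = 0 → gradient F x ≠ 0) (hK : IsCompact {x | F x = 0})
    (hint : ∫⁻ x in {x | F x = 0 ∧ gaussK F x ≠ 0 ∧ 2 ≤ nneg F x ∧ nneg F x + 1 ≤ n},
      ENNReal.ofReal |gaussK F x| ∂μH[(n : ℝ)] < μH[(n : ℝ)] (sphere (0 : V) 1)) :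
    ∃ u : V, ‖u‖ = 1 ∧ ∀ x, F x = 0 → nrm F x = u →
      gaussK F x ≠ 0 ∧ (nneg F x ≤ 1 ∨ nneg F x = n) := by
  have : ProperSpace V := FiniteDimensional.proper ℝ V
  have hF2 : ContDiff ℝ 2 F := hF.of_le (by norm_cast)
  have hgc : ContinuousOn (gaussK F) {x | F x = 0} := fun x hx =>
    (gaussK_continuousAt F hF2 x (hreg x hx)).continuousWithinAt
  have hZ0 : IsClosed ({x | F x = 0} ∩ gaussK F ⁻¹' {0}) :=
    hgc.preimage_isClosed_of_isClosed hK.isClosed isClosed_singleton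
  have hZc : IsClosed (ixBad F ∪ ({x | F x = 0} ∩ gaussK F ⁻¹' {0})) :=
    (ixBad_closed F hF hreg hK).union hZ0
  obtain ⟨Z, hZ⟩ : ∃ Z, Z = ixBad F ∪ ({x | F x = 0} ∩ gaussK F ⁻¹' {0}) := ⟨_, rfl⟩
  rw [← hZ] at hZc
  have hZM : Z ⊆ {x | F x = 0} := by
    rw [hZ]
    rintro x (h | h)
    · exact h.1
    · exact h.1
  have h1 := area_le n hn F hF2 hreg hK Z hZc.measurableSet hZM
  have hsub : Z \ ({x | F x = 0} ∩ gaussK F ⁻¹' {0}) ⊆
      {x | F x = 0 ∧ gaussK F x ≠ 0 ∧ 2 ≤ nneg F x ∧ nneg F x + 1 ≤ n} := by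
    rintro x ⟨hxZ, hx0⟩
    have hx : F x = 0 := hZM hxZ
    have hK0 : gaussK F x ≠ 0 := fun h => hx0 ⟨hx, h⟩
    rw [hZ] at hxZ
    rcases hxZ with h | h
    · have h2 := (ixBad_iff n hn F hF x hx (hreg x hx) hK0).1 h
      exact ⟨hx, hK0, h2.1, h2.2⟩
    · exact absurd h hx0
  have h2 : ∫⁻ x in Z, ENNReal.ofReal |gaussK F x| ∂μH[((n : ℕ) : ℝ)] ≤
      ∫⁻ x in {x | F x = 0 ∧ gaussK F x ≠ 0 ∧ 2 ≤ nneg F x ∧ nneg F x + 1 ≤ n},
        ENNReal.ofReal |gaussK F x| ∂μH[((n : ℕ) : ℝ)] := by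
    have e1 : ∫⁻ x in Z, ENNReal.ofReal |gaussK F x| ∂μH[((n : ℕ) : ℝ)] ≤
        ∫⁻ x in Z \ ({x | F x = 0} ∩ gaussK F ⁻¹' {0}), ENNReal.ofReal |gaussK F x|
          ∂μH[((n : ℕ) : ℝ)] +
        ∫⁻ x in ({x | F x = 0} ∩ gaussK F ⁻¹' {0}), ENNReal.ofReal |gaussK F x|
          ∂μH[((n : ℕ) : ℝ)] := by
      refine le_trans (lintegral_mono_set ?_) (lintegral_union_le _ _ _)
      intro x hx
      by_cases h : x ∈ ({x | F x = 0} ∩ gaussK F ⁻¹' {0})
      · exact Or.inr h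
      · exact Or.inl ⟨hx, h⟩
    have e2 : ∫⁻ x in ({x | F x = 0} ∩ gaussK F ⁻¹' {0}), ENNReal.ofReal |gaussK F x|
          ∂μH[((n : ℕ) : ℝ)] = 0 := by
      have e3 : ∫⁻ x in ({x | F x = 0} ∩ gaussK F ⁻¹' {0}), ENNReal.ofReal |gaussK F x|
          ∂μH[((n : ℕ) : ℝ)] ≤ ∫⁻ x in ({x | F x = 0} ∩ gaussK F ⁻¹' {0}), 0
          ∂μH[((n : ℕ) : ℝ)] := by
        refine setLIntegral_mono' hZ0.measurableSet ?_
        rintro x ⟨-, hx⟩
        have hx' : gaussK F x = 0 := hx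
        rw [hx']
        simp
      simpa using e3
    rw [e2, add_zero] at e1
    exact e1.trans (lintegral_mono_set hsub)
  have h4 : ∃ u ∈ sphere (0 : V) 1, u ∉ nrm F '' Z := by
    by_contra hcon
    push Not at hcon
    have h5 : μH[((n : ℕ) : ℝ)] (sphere (0 : V) 1) ≤ μH[((n : ℕ) : ℝ)] (nrm F '' Z) :=
      measure_mono hcon
    exact absurd (lt_of_le_of_lt (h5.trans (h1.trans h2)) hint) (lt_irrefl _)
  obtain ⟨u, hu, huZ⟩ := h4
  refine ⟨u, by simpa using hu, fun x hx hxu => ?_⟩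
  have hxZ : x ∉ Z := fun h => huZ ⟨x, h, hxu⟩
  rw [hZ] at hxZ
  have hK0 : gaussK F x ≠ 0 := fun h => hxZ (Or.inr ⟨hx, h⟩)
  refine ⟨hK0, ?_⟩
  have hb : ¬ (2 ≤ nneg F x ∧ nneg F x + 1 ≤ n) := fun h =>
    hxZ (Or.inl ((ixBad_iff n hn F hF x hx (hreg x hx) hK0).2 h))
  have hle := Direction_nneg_le n hn F hF x (hreg x hx)
  by_contra hcon
  push Not at hcon
  apply hb
  omega

/-- Direction for the first half of the theorem.

PROOF.  `u` from `ix_direction` (the integral over the subset where `gaussK F x ≠ 0` is at most the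
given one, `lintegral_mono_set`), `e = -u`.  If `Inward F e x` then `gradient F x = l • u`, `l > 0`,
`nrm F x = u` (as in `cg_level`); `idx_of_gaussK`. -/
theorem ix_direction_one (n : ℕ) (hn : Module.finrank ℝ V = n + 1) (F : V → ℝ)
    (hF : ContDiff ℝ ∞ F) (hreg : ∀ x, F x = 0 → gradient F x ≠ 0)
    (hK : IsCompact {x | F x = 0})
    (hint : ∫⁻ x in {x | F x = 0 ∧ 2 ≤ nneg F x ∧ nneg F x + 1 ≤ n},
      ENNReal.ofReal |gaussK F x| ∂μH[(n : ℝ)] < μH[(n : ℝ)] (sphere (0 : V) 1)) :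
    ∃ e : V, ‖e‖ = 1 ∧ ∀ x, Inward F e x → ∃ k, Idx F e x k ∧ (k ≤ 1 ∨ k = n) := by
  have hsub : {x | F x = 0 ∧ gaussK F x ≠ 0 ∧ 2 ≤ nneg F x ∧ nneg F x + 1 ≤ n} ⊆
      {x | F x = 0 ∧ 2 ≤ nneg F x ∧ nneg F x + 1 ≤ n} := fun x hx => ⟨hx.1, hx.2.2⟩
  obtain ⟨u, hu, h⟩ := ix_direction n hn F hF hreg hK
    (lt_of_le_of_lt (lintegral_mono_set hsub) hint)
  have he : ‖-u‖ = 1 := by rw [norm_neg, hu]
  refine ⟨-u, he, ?_⟩
  intro x hxI
  have hxI' := hxI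
  obtain ⟨hx, l, hl, hgl⟩ := hxI
  rw [smul_neg, neg_neg] at hgl
  obtain ⟨hK0, h1⟩ := h x hx (Direction_nrm F x u hu l hl hgl)
  exact ⟨nneg F x, idx_of_gaussK n hn F hF (-u) he x hxI' hK0, h1⟩

/-- Direction for the second half of the theorem.

PROOF.  `ix_direction` for `G = fun y => -F y`: `{G = 0} = {F = 0}`, `gradient G = -gradient F`.
`|gaussK G x| = |gaussK F x|` for all `x` (`gaussK_neg`), so the integrand is the same; by `nneg_neg`
the set `{x | G x = 0 ∧ gaussK G x ≠ 0 ∧ 2 ≤ nneg G x ∧ nneg G x + 1 ≤ n}` is contained in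
`{x | F x = 0 ∧ 1 ≤ nneg F x ∧ nneg F x + 2 ≤ n}` (`lintegral_mono_set`).  Get `u`; take `e = u`: if
`Inward F e x` then `nrm F x = -u`, `nrm G x = u` (`gradient G x = -gradient F x`), so
`gaussK F x ≠ 0` and `nneg F x = n - nneg G x` is `n`, `n - 1` or `0`; `idx_of_gaussK`. -/
theorem ix_direction_two (n : ℕ) (hn : Module.finrank ℝ V = n + 1) (F : V → ℝ)
    (hF : ContDiff ℝ ∞ F) (hreg : ∀ x, F x = 0 → gradient F x ≠ 0)
    (hK : IsCompact {x | F x = 0})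
    (hint : ∫⁻ x in {x | F x = 0 ∧ 1 ≤ nneg F x ∧ nneg F x + 2 ≤ n},
      ENNReal.ofReal |gaussK F x| ∂μH[(n : ℝ)] < μH[(n : ℝ)] (sphere (0 : V) 1)) :
    ∃ e : V, ‖e‖ = 1 ∧ ∀ x, Inward F e x → ∃ k, Idx F e x k ∧ (k = 0 ∨ n - 1 ≤ k) := by
  have hG : ContDiff ℝ ∞ (fun y => -F y) := hF.neg
  have hset : {x | -F x = 0} = {x | F x = 0} := by
    ext x
    exact neg_eq_zero
  have hregG : ∀ x, -F x = 0 → gradient (fun y => -F y) x ≠ 0 := by
    intro x hx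
    rw [Direction_grad, neg_ne_zero]
    exact hreg x (neg_eq_zero.1 hx)
  obtain ⟨u, hu, h⟩ := ix_direction n hn (fun y => -F y) hG hregG (by rw [hset]; exact hK) (by
    refine lt_of_le_of_lt ?_ hint
    have e1 : (fun x => ENNReal.ofReal |gaussK (fun y => -F y) x|) =
        fun x => ENNReal.ofReal |gaussK F x| := by
      funext x
      rw [gaussK_neg n hn F hF x]
    rw [e1]
    refine lintegral_mono_set ?_
    rintro x ⟨hx, hK0, h2, h3⟩
    have hx' : F x = 0 := neg_eq_zero.1 hx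
    have hK0' : gaussK F x ≠ 0 := by
      intro h0
      apply hK0
      rw [← abs_eq_zero, gaussK_neg n hn F hF x, h0, abs_zero]
    have h4 := nneg_neg n hn F hF x (hreg x hx') hK0'
    refine ⟨hx', ?_, ?_⟩ <;> omega)
  refine ⟨u, hu, ?_⟩
  intro x hxI
  have hxI' := hxI
  obtain ⟨hx, l, hl, hgl⟩ := hxI
  have hgG : gradient (fun y => -F y) x = l • u := by rw [Direction_grad, hgl, neg_neg]
  obtain ⟨hK0, h1⟩ := h x (by show -F x = 0; rw [hx, neg_zero])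
    (Direction_nrm (fun y => -F y) x u hu l hl hgG)
  have hK0' : gaussK F x ≠ 0 := by
    intro h0
    apply hK0
    rw [← abs_eq_zero, gaussK_neg n hn F hF x, h0, abs_zero]
  have h4 := nneg_neg n hn F hF x (hreg x hx) hK0'
  refine ⟨nneg F x, idx_of_gaussK n hn F hF u hu x hxI' hK0', ?_⟩
  omega

end Pool.Schoen
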