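import Mathlib
import Pool.Agent.H.MP_6c077c_gt.IxB.FlipIdx
import Pool.Agent.H.MP_6c077c_gt.IxB.Unique
import Pool.Agent.H.MP_6c077c_gt.CG.Crit

/-! Index theorem: consequences of the uniqueness of the point of index zero. -/

set_option autoImplicit false

namespace Pool.Schoen

open scoped ContDiff RealInnerProductSpace
open Metric Set

variable {V : Type*} [NormedAddCommGroup V] [InnerProductSpace ℝ V] [FiniteDimensional ℝ V]

/-- If all indices are at most one or equal to `n`, the index `n` does not occur. -/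
theorem ix_no_top (n : ℕ) (hn3 : 3 ≤ n) (hn : Module.finrank ℝ V = n + 1) (F : V → ℝ)
    (hF : ContDiff ℝ ∞ F) (hb : Bornology.IsBounded {x | F x ≤ 0})
    (hreg : ∀ x, F x = 0 → gradient F x ≠ 0) (hM : IsConnected {x | F x = 0}) (e : V)
    (he : ‖e‖ = 1) (hidx : ∀ x, Inward F e x → ∃ k, Idx F e x k ∧ (k ≤ 1 ∨ k = n)) :
    ∀ x, Inward F e x → ∃ k, Idx F e x k ∧ k ≤ 1 := by
  obtain ⟨Y, q, hY, hYb, hYreg, hYc, hYin, hYq, hFq, hYidx⟩ :=
    ix_outer n hn F hF hb hreg hM e he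
  intro p hp
  obtain ⟨k, hk, hk1⟩ := hidx p hp
  rcases hk1 with hk1 | hk1
  · exact ⟨k, hk, hk1⟩
  exfalso
  rw [hk1] at hk
  have hpY : Idx Y (-e) p 0 := by
    have := hYidx p n hp hk
    rwa [Nat.sub_self] at this
  have heq : p = q := by
    refine ix_unique Y hY hYb hYreg hYc (-e) (by rw [norm_neg, he]) ?_ p q
      ((hYin p).2 (Or.inl hp)) ((hYin q).2 (Or.inr rfl)) hpY.posAt hYq
    intro x hx
    rcases (hYin x).1 hx with h | h
    · obtain ⟨j, hj, hj1⟩ := hidx x h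
      have h2 := hYidx x j h hj
      rcases hj1 with hj1 | hj1
      · exact Or.inr ⟨n - j, by omega, h2⟩
      · rw [hj1, Nat.sub_self] at h2
        exact Or.inl h2.posAt
    · rw [h]
      exact Or.inl hYq
  rw [← heq, hp.1] at hFq
  exact lt_irrefl _ hFq

private theorem noTop_fd (F : V → ℝ) (x v : V) : fderiv ℝ F x v = ⟪gradient F x, v⟫ := by
  unfold gradient
  rw [InnerProductSpace.toDual_symm_apply]

omit [FiniteDimensional ℝ V] in
/-- moving in a direction of negative derivative. -/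
private theorem noTop_desc (F : V → ℝ) (hF : ContDiff ℝ ∞ F) (m w : V) (hm : F m ≤ 0)
    (hw : fderiv ℝ F m w < 0) : ∃ t : ℝ, 0 < t ∧ F (m + t • w) ≤ 0 := by
  have hd : HasDerivAt (fun t : ℝ => F (m + t • w)) (fderiv ℝ F m w) 0 := by
    have h1 : HasFDerivAt F (fderiv ℝ F m) (m + (0 : ℝ) • w) := by
      rw [zero_smul, add_zero]
      exact ((hF.differentiable (by simp)) m).hasFDerivAt
    have h2 : HasDerivAt (fun t : ℝ => m + t • w) w 0 := by
      have := ((hasDerivAt_id (0 : ℝ)).smul_const w).const_add m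
      simpa using this
    exact h1.comp_hasDerivAt (0 : ℝ) h2
  have h3 : ∀ᶠ t in nhdsWithin (0 : ℝ) (Ioi 0), F (m + t • w) < F m := by
    have h5 := hasDerivAt_iff_tendsto_slope.1 hd
    have hsub : Ioi (0 : ℝ) ⊆ {0}ᶜ := fun t ht => ne_of_gt ht
    have h6 : ∀ᶠ t in nhdsWithin (0 : ℝ) (Ioi 0), slope (fun t : ℝ => F (m + t • w)) 0 t < 0 :=
      (h5.eventually_lt_const hw).filter_mono (nhdsWithin_mono _ hsub)
    filter_upwards [h6, self_mem_nhdsWithin] with t ht ht0
    rw [slope_def_field] at ht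
    have ht0' : 0 < t := ht0
    have : F (m + t • w) - F (m + (0 : ℝ) • w) < 0 := by
      by_contra hcon
      push Not at hcon
      have := div_nonneg hcon (by linarith : (0 : ℝ) ≤ t - 0)
      linarith
    rw [zero_smul, add_zero] at this
    linarith
  have hne : (nhdsWithin (0 : ℝ) (Ioi 0)).NeBot := inferInstance
  obtain ⟨t, ht, ht0⟩ := (h3.and self_mem_nhdsWithin).exists
  exact ⟨t, ht0, by linarith⟩

/-- A minimum point of the height on `{F ≤ 0}` is `Inward`. -/
private theorem noTop_key (F : V → ℝ) (hF : ContDiff ℝ ∞ F)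
    (hreg : ∀ x, F x = 0 → gradient F x ≠ 0) (e : V) (he : ‖e‖ = 1) (m : V) (hm : F m ≤ 0)
    (hmin : ∀ x, F x ≤ 0 → ⟪m, e⟫ ≤ ⟪x, e⟫) : Inward F e m := by
  have hee : ⟪e, e⟫ = 1 := by rw [real_inner_self_eq_norm_sq, he]; norm_num
  have hFm : F m = 0 := by
    by_contra hne
    have hlt : F m < 0 := lt_of_le_of_ne hm hne
    have hc : Continuous fun t : ℝ => F (m - t • e) := hF.continuous.comp (by fun_prop)
    have hev : ∀ᶠ t in nhds (0 : ℝ), F (m - t • e) < 0 := by
      have : F (m - (0 : ℝ) • e) < 0 := by simpa using hlt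
      exact (hc.tendsto 0).eventually_lt_const this
    have hev' : ∀ᶠ t in nhdsWithin (0 : ℝ) (Ioi 0), F (m - t • e) < 0 :=
      hev.filter_mono nhdsWithin_le_nhds
    obtain ⟨t, ht, ht0⟩ := (hev'.and self_mem_nhdsWithin).exists
    have ht0' : 0 < t := ht0
    have h1 := hmin _ ht.le
    rw [inner_sub_left, inner_smul_left, hee] at h1
    simp at h1
    linarith
  refine ⟨hFm, ?_⟩
  set g := gradient F m with hg
  have hg0 : g ≠ 0 := hreg m hFm
  have hgn : 0 < ‖g‖ := norm_pos_iff.2 hg0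
  by_contra hcon
  push Not at hcon
  have hgne := hcon ‖g‖ hgn
  have hpos : 0 < ‖g‖ + ⟪g, e⟫ := by
    have h1 : 0 < ‖g + ‖g‖ • e‖ ^ 2 := by
      have : g + ‖g‖ • e ≠ 0 := fun h => hgne (eq_neg_of_add_eq_zero_left h)
      positivity
    have h2 : ‖g + ‖g‖ • e‖ ^ 2 = 2 * ‖g‖ * (‖g‖ + ⟪g, e⟫) := by
      rw [norm_add_sq_real, norm_smul, inner_smul_right, he]
      simp
      ring
    rw [h2] at h1
    by_contra hle
    push Not at hle
    nlinarith
  set w : V := -(‖g‖ • e + g) with hw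
  have hwe : ⟪w, e⟫ < 0 := by
    rw [hw, inner_neg_left, inner_add_left, inner_smul_left, hee]
    simp
    linarith
  have hwg : fderiv ℝ F m w < 0 := by
    rw [noTop_fd, ← hg, hw, inner_neg_right, inner_add_right, inner_smul_right,
      real_inner_self_eq_norm_sq]
    nlinarith
  obtain ⟨t, ht, hFt⟩ := noTop_desc F hF m w hm hwg
  have h1 := hmin _ hFt
  rw [inner_add_left, inner_smul_left] at h1
  simp only [conj_trivial] at h1
  nlinarith

/-- A lowest point of the domain has normal `-e`; if it is nondegenerate its index is zero. -/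
theorem ix_lowest (F : V → ℝ) (hF : ContDiff ℝ ∞ F) (hreg : ∀ x, F x = 0 → gradient F x ≠ 0)
    (e : V) (he : ‖e‖ = 1) (m : V) (hm : F m ≤ 0) (hmin : ∀ x, F x ≤ 0 → ⟪m, e⟫ ≤ ⟪x, e⟫) :
    Inward F e m ∧ ∀ k, Idx F e m k → k = 0 := by
  have hmI : Inward F e m := noTop_key F hF hreg e he m hm hmin
  refine ⟨hmI, ?_⟩
  rintro k ⟨N, P, hS, hk⟩
  by_contra hk0
  have hN : N ≠ ⊥ := by
    intro h
    rw [h, finrank_bot] at hk
    exact hk0 hk.symm
  obtain ⟨a, ha, ha0⟩ := Submodule.exists_mem_ne_zero_of_ne_bot hN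
  have hae : ⟪a, e⟫ = 0 := hS.hN a ha
  obtain ⟨ρ, hρ, h⟩ := ix_uniform F hF e he m hmI N P hS
  obtain ⟨hm0, l, hl, hg⟩ := hmI
  have han : 0 < ‖a‖ := norm_pos_iff.2 ha0
  obtain ⟨r, hr⟩ : ∃ r, r = ρ / ‖a‖ := ⟨_, rfl⟩
  have hr0 : 0 < r := by rw [hr]; positivity
  have hra : r * ‖a‖ = ρ := by rw [hr]; field_simp
  have h1 := cg_segment F hF m (r • a) (-1)
    (by rw [cgLocal_grad hg, real_inner_smul_left, hae]; simp) (by
    intro t ht
    have h2 := (h (m + t • r • a) (by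
      rw [mem_closedBall, dist_eq_norm]
      have : m + t • r • a - m = t • r • a := by abel
      rw [this, norm_smul, norm_smul, Real.norm_eq_abs, Real.norm_eq_abs,
        abs_of_nonneg ht.1, abs_of_pos hr0]
      nlinarith [ht.1, ht.2])).2.1 (r • a) (N.smul_mem r ha) (smul_ne_zero hr0.ne' ha0)
    linarith)
  have h2 : F (m + r • a) < 0 := by
    rw [hm0] at h1
    linarith
  have h3 : ∀ᶠ t : ℝ in nhds 0, F (m + r • a - t • e) < 0 := by
    have hc : Continuous fun t : ℝ => F (m + r • a - t • e) := by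
      have := hF.continuous
      fun_prop
    refine hc.continuousAt.eventually_lt continuousAt_const ?_
    simpa using h2
  have h3' : ∀ᶠ t in nhdsWithin (0 : ℝ) (Ioi 0), F (m + r • a - t • e) < 0 :=
    h3.filter_mono nhdsWithin_le_nhds
  obtain ⟨t, ht, ht0⟩ := (h3'.and self_mem_nhdsWithin).exists
  have ht0' : 0 < t := ht0
  have h4 := hmin _ ht.le
  rw [inner_sub_left, inner_add_left, real_inner_smul_left, real_inner_smul_left, hae,
    real_inner_self_eq_norm_sq, he] at h4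
  linarith

/-- If all indices are zero or at least `n - 1`, there is a strict lowest point of the domain, and
all other points with normal `-e` have index at least `n - 1`. -/
theorem ix_one_min (n : ℕ) (hn3 : 3 ≤ n) (hn : Module.finrank ℝ V = n + 1) (F : V → ℝ)
    (hF : ContDiff ℝ ∞ F) (hb : Bornology.IsBounded {x | F x ≤ 0})
    (hreg : ∀ x, F x = 0 → gradient F x ≠ 0) (hM : IsConnected {x | F x = 0}) (e : V)
    (he : ‖e‖ = 1) (hidx : ∀ x, Inward F e x → ∃ k, Idx F e x k ∧ (k = 0 ∨ n - 1 ≤ k)) :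
    ∃ m, Inward F e m ∧ PosAt F e m ∧ (∀ x, F x ≤ 0 → x ≠ m → ⟪m, e⟫ < ⟪x, e⟫) ∧
      ∀ x, Inward F e x → x ≠ m → ∃ k, Idx F e x k ∧ n - 1 ≤ k := by
  have hprop : ProperSpace V := FiniteDimensional.proper ℝ V
  have hnt : Nontrivial V := Module.nontrivial_of_finrank_pos (R := ℝ) (by omega)
  have hKc : IsCompact {x | F x ≤ 0} :=
    Metric.isCompact_of_isClosed_isBounded (isClosed_le hF.continuous continuous_const) hb
  have hcont : Continuous fun x : V => ⟪x, e⟫ := by fun_prop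
  obtain ⟨z, hz⟩ := hM.nonempty
  have hz' : F z = 0 := hz
  obtain ⟨m, hm, hmin⟩ := hKc.exists_isMinOn ⟨z, hz'.le⟩ hcont.continuousOn
  have hmin' : ∀ x, F x ≤ 0 → ⟪m, e⟫ ≤ ⟪x, e⟫ := fun x hx => hmin hx
  have hW := cg_conn_inner F hF.continuous hb hM.isPreconnected
  have hdef : ∀ x, Inward F e x → PosAt F e x ∨ ∃ k, 2 ≤ k ∧ Idx F e x k := by
    intro x hx
    obtain ⟨k, hk, hk1⟩ := hidx x hx
    rcases hk1 with hk1 | hk1
    · rw [hk1] at hk
      exact Or.inl hk.posAt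
    · exact Or.inr ⟨k, by omega, hk⟩
  -- a lowest point is `Inward` and `PosAt`
  have hlow : ∀ y, F y ≤ 0 → (∀ x, F x ≤ 0 → ⟪y, e⟫ ≤ ⟪x, e⟫) → Inward F e y ∧ PosAt F e y := by
    intro y hy hymin
    obtain ⟨h1, h2⟩ := ix_lowest F hF hreg e he y hy hymin
    refine ⟨h1, ?_⟩
    obtain ⟨k, hk, -⟩ := hidx y h1
    have hk0 := h2 k hk
    rw [hk0] at hk
    exact hk.posAt
  obtain ⟨hmI, hmP⟩ := hlow m hm hmin'
  refine ⟨m, hmI, hmP, ?_, ?_⟩
  · intro x hx hne
    by_contra hcon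
    push Not at hcon
    obtain ⟨hxI, hxP⟩ := hlow x hx fun y hy => hcon.trans (hmin' y hy)
    exact hne (ix_unique F hF hb hreg hW e he hdef x m hxI hmI hxP hmP)
  · intro x hx hne
    obtain ⟨k, hk, hk1⟩ := hidx x hx
    rcases hk1 with hk1 | hk1
    · exfalso
      rw [hk1] at hk
      exact hne (ix_unique F hF hb hreg hW e he hdef x m hx hmI hk.posAt hmP)
    · exact ⟨k, hk, hk1⟩

end Pool.Schoen
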