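import Mathlib
import Pool.Agent.H.MP_6c077c_gt.IxB.Direction
import Pool.Agent.H.MP_6c077c_gt.IxB.NoTop
import Pool.Agent.H.MP_6c077c_gt.IxB.T1
import Pool.Agent.H.MP_6c077c_gt.Ix.MollC
import Pool.Agent.H.MP_6c077c_gt.Ix.T1star

/-! Index theorem: first half of the curvature theorem. -/

set_option autoImplicit false

namespace Pool.Schoen

open scoped ContDiff RealInnerProductSpace ENNReal
open Metric Set MeasureTheory

variable {V : Type*} [NormedAddCommGroup V] [InnerProductSpace ℝ V] [FiniteDimensional ℝ V]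

theorem Final_fderiv_ne {F : V → ℝ} {x : V} (h : gradient F x ≠ 0) : fderiv ℝ F x ≠ 0 := by
  intro h0
  apply h
  rw [gradient, h0, map_zero]

/-- The index theorem for hypersurfaces, first half. -/
theorem ix_T1 (hdim : 3 ≤ Module.finrank ℝ V) (F : V → ℝ) (hF : ContDiff ℝ ∞ F)
    (hb : Bornology.IsBounded {x | F x ≤ 0}) (hreg : ∀ x, F x = 0 → gradient F x ≠ 0)
    (hMc : IsConnected {x | F x = 0}) (hMl : LiftS {x | F x = 0}) (e : V) (he : ‖e‖ = 1)
    (hidx : ∀ x, Inward F e x → ∃ k, Idx F e x k ∧ k ≤ 1) : IsBall F := by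
  have hfin := ix_finite F hF hb hreg e he (fun x hx => by
    obtain ⟨k, hk, _⟩ := hidx x hx
    exact ⟨k, hk⟩)
  obtain ⟨hc, hl⟩ := domain_top hdim F hF.continuous hb hMc hMl
  refine t1star e he hfin.toFinset F ⟨hb, ?_, ?_, ?_⟩ hc hl
  · exact good_of_regular hF (hb.subset fun x hx => le_of_eq hx)
      (fun x hx => Final_fderiv_ne (hreg x hx))
  · intro p hp
    have hp' : Inward F e p := by simpa using hp
    obtain ⟨k, hk, hk1⟩ := hidx p hp'
    exact inw_of_idx F hF e p hp' k hk1 hk
  · intro x hx hxP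
    refine free_of_not_inward F hF e he x hx (hreg x hx) ?_
    intro h
    apply hxP
    simpa using h

/-- A hypersurface whose domain is homotopic to the ball is carried to the unit sphere. -/
theorem carries_of_isBall (F : V → ℝ) (hF : ContDiff ℝ ∞ F) (h : IsBall F) :
    Carries {x : V | F x = 0} (sphere (0 : V) 1) := by
  have h1 := (Hom.carries h hF ((contDiff_norm_sq ℝ).sub contDiff_const)).carries
  have h2 : {x : V | ‖x‖ ^ 2 - 1 = 0} = sphere (0 : V) 1 := by
    ext x
    rw [mem_sphere_zero_iff_norm, mem_setOf_eq]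
    constructor
    · intro hx
      have : ‖x‖ ^ 2 = 1 := by linarith
      exact (pow_eq_one_iff_of_nonneg (norm_nonneg x) two_ne_zero).1 this
    · intro hx
      rw [hx]
      norm_num
  rw [h2] at h1
  exact h1

theorem Final_compact {F : V → ℝ} (hF : Continuous F) (hb : Bornology.IsBounded {x | F x ≤ 0}) :
    IsCompact {x | F x = 0} :=
  Metric.isCompact_of_isClosed_isBounded (isClosed_eq hF continuous_const)
    (hb.subset fun _ hx => le_of_eq hx)

/-- The first half of the curvature theorem. -/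
theorem ix_half_one [MeasurableSpace V] [BorelSpace V] (n : ℕ) (hn3 : 3 ≤ n)
    (hn : Module.finrank ℝ V = n + 1) (F : V → ℝ) (hF : ContDiff ℝ ∞ F)
    (hb : Bornology.IsBounded {x | F x ≤ 0}) (hreg : ∀ x, F x = 0 → gradient F x ≠ 0)
    (hMc : IsConnected {x | F x = 0}) (hMl : LiftS {x | F x = 0})
    (hint : ∫⁻ x in {x | F x = 0 ∧ 2 ≤ nneg F x ∧ nneg F x + 1 ≤ n},
      ENNReal.ofReal |gaussK F x| ∂μH[(n : ℝ)] < μH[(n : ℝ)] (sphere (0 : V) 1)) :
    Carries {x : V | F x = 0} (sphere (0 : V) 1) := by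
  obtain ⟨e, he, hidx⟩ := ix_direction_one n hn F hF hreg (Final_compact hF.continuous hb) hint
  exact carries_of_isBall F hF (ix_T1 (by omega) F hF hb hreg hMc hMl e he
    (ix_no_top n hn3 hn F hF hb hreg hMc e he hidx))

end Pool.Schoen
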